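import Pool.Graph.R_pool_sql_team_seeded_35f281b4.K7.H35.C.Fam

/-!
# Curves from `f y` to `σ (f y)` built from excursions to points with short orbits
-/

set_option autoImplicit false

open Set Topology Filter

namespace Pool.Agent.H44.LI

open Pool.Agent.Y489.GE Pool.Agent.Y911.GE Pool.Agent.K7.H35.R Pool.Agent.K7.H35.C

variable {X : Type} [MetricSpace X]

/-- a homotopy from the identity to `σ` through `lam`-Lipschitz maps which moves the points of `P`
with speed at most `l` -/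
structure TurnS (X : Type) [MetricSpace X] (σ : X → X) (P : Set X) (lam l : ℝ) (g : ℝ → X → X) :
    Prop where
  cont : Continuous fun z : ℝ × X => g z.1 z.2
  zero : ∀ x, g 0 x = x
  one : ∀ x, g 1 x = σ x
  lip : ∀ t x y, dist (g t x) (g t y) ≤ lam * dist x y
  arc : ∀ z ∈ P, ∀ s t, dist (g s z) (g t z) ≤ l * |s - t|

/-- the time of the way to `P` -/
noncomputable def tA (a : ℝ) (s : ℝ) : ℝ := max 0 (min s a)

/-- the time on the arc -/
noncomputable def tB (a h : ℝ) (s : ℝ) : ℝ := max 0 (min (s - a) h)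

theorem tAB {a h : ℝ} (ha : 0 ≤ a) (hh : 0 ≤ h) {s s' : ℝ} (hs : s ≤ s') :
    0 ≤ tA a s' - tA a s ∧ 0 ≤ tB a h s' - tB a h s ∧
      (tA a s' - tA a s) + (tB a h s' - tB a h s) ≤ s' - s := by
  unfold tA tB
  simp only [max_def, min_def]
  split_ifs <;> refine ⟨?_, ?_, ?_⟩ <;> linarith

theorem tB_zero {a h : ℝ} (hh : 0 ≤ h) {s : ℝ} (hs : s ≤ a) : tB a h s = 0 := by
  unfold tB
  rw [max_eq_left]
  exact (min_le_left _ _).trans (by linarith)

theorem tA_eq {a : ℝ} (ha : 0 ≤ a) {s : ℝ} (hs : a ≤ s) : tA a s = a := by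
  unfold tA
  rw [min_eq_right hs, max_eq_right ha]

theorem tA_zero {a : ℝ} (ha : 0 ≤ a) {s : ℝ} (hs : s ≤ 0) : tA a s = 0 := by
  unfold tA
  rw [min_eq_left (hs.trans ha), max_eq_left hs]

theorem tB_full {a h : ℝ} (hh : 0 ≤ h) {s : ℝ} (hs : a + h ≤ s) : tB a h s = h := by
  unfold tB
  rw [min_eq_right (by linarith), max_eq_right hh]

/-- one half of an excursion: the way out and one half of the arc -/
noncomputable def exc (g : ℝ → X → X) (a h u₀ u₁ : ℝ) (p : ℝ → X) (s : ℝ) : X :=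
  g (u₀ + (u₁ - u₀) * (tB a h s / (2 * h))) (p (tA a s / a))

theorem exc_lip {σ : X → X} {P : Set X} {lam l : ℝ} {g : ℝ → X → X} (hg : TurnS X σ P lam l g)
    (hlam : 0 < lam) (hl : 0 < l) {b : ℝ} (hb : 0 < b) {u₀ u₁ : ℝ} (hu : |u₁ - u₀| ≤ 1) {p : ℝ → X}
    (hp : ∀ s s', dist (p s) (p s') ≤ |s - s'| * b) (hP : u₀ = u₁ ∨ p 1 ∈ P) (s s' : ℝ) :
    dist (exc g (lam * b) (l / 2) u₀ u₁ p s) (exc g (lam * b) (l / 2) u₀ u₁ p s') ≤ |s - s'| := by
  have key : ∀ s s' : ℝ, s ≤ s' →
      dist (exc g (lam * b) (l / 2) u₀ u₁ p s) (exc g (lam * b) (l / 2) u₀ u₁ p s') ≤ s' - s := by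
    intro s s' hs
    set a := lam * b with ha
    have ha0 : 0 < a := mul_pos hlam hb
    have hl2 : (0 : ℝ) ≤ l / 2 := by linarith
    obtain ⟨h1, h2, h3⟩ := tAB ha0.le hl2 hs
    unfold exc
    set A := tA a s
    set A' := tA a s' with hA'
    set B := tB a (l / 2) s with hB
    set B' := tB a (l / 2) s' with hB'
    have e2 : 2 * (l / 2) = l := by ring
    rw [e2]
    have hfirst : dist (g (u₀ + (u₁ - u₀) * (B / l)) (p (A / a)))
        (g (u₀ + (u₁ - u₀) * (B / l)) (p (A' / a))) ≤ A' - A := by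
      refine (hg.lip _ _ _).trans ((mul_le_mul_of_nonneg_left (hp _ _) hlam.le).trans ?_)
      rw [← sub_div, abs_div, abs_of_pos ha0, abs_sub_comm, abs_of_nonneg h1]
      have e : lam * ((A' - A) / a * b) = A' - A := by
        rw [ha]
        field_simp
      rw [e]
    have hsecond : dist (g (u₀ + (u₁ - u₀) * (B / l)) (p (A' / a)))
        (g (u₀ + (u₁ - u₀) * (B' / l)) (p (A' / a))) ≤ B' - B := by
      rcases lt_or_ge s' a with h4 | h4
      · have h5 : B = 0 := by rw [hB]; exact tB_zero hl2 (hs.trans h4.le)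
        have h6 : B' = 0 := by rw [hB']; exact tB_zero hl2 h4.le
        rw [h5, h6, dist_self, sub_self]
      · have h5 : A' / a = 1 := by rw [hA', tA_eq ha0.le h4, div_self ha0.ne']
        rw [h5]
        rcases hP with h6 | h6
        · rw [← h6, sub_self, zero_mul, zero_mul, dist_self]
          exact h2
        · refine (hg.arc _ h6 _ _).trans ?_
          have e : u₀ + (u₁ - u₀) * (B / l) - (u₀ + (u₁ - u₀) * (B' / l)) =
              -((u₁ - u₀) * ((B' - B) / l)) := by ring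
          rw [e, abs_neg, abs_mul, abs_of_nonneg (div_nonneg h2 hl.le)]
          have h7 : |u₁ - u₀| * ((B' - B) / l) ≤ 1 * ((B' - B) / l) :=
            mul_le_mul_of_nonneg_right hu (div_nonneg h2 hl.le)
          refine (mul_le_mul_of_nonneg_left h7 hl.le).trans (le_of_eq ?_)
          field_simp
    calc _ ≤ _ := dist_triangle _ _ _
      _ ≤ (A' - A) + (B' - B) := add_le_add hfirst hsecond
      _ ≤ s' - s := h3
  rcases le_total s s' with h | h
  · rw [abs_sub_comm, abs_of_nonneg (by linarith)]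
    exact key s s' h
  · rw [abs_of_nonneg (by linarith), dist_comm]
    exact key s' s h

omit [MetricSpace X] in
theorem exc_start {g : ℝ → X → X} {a h u₀ u₁ : ℝ} (ha : 0 ≤ a) (hh : 0 ≤ h) {p : ℝ → X} {s : ℝ}
    (hs : s ≤ 0) : exc g a h u₀ u₁ p s = g u₀ (p 0) := by
  unfold exc
  rw [tA_zero ha hs, tB_zero hh (hs.trans ha), zero_div, zero_div, mul_zero, add_zero]

omit [MetricSpace X] in
theorem exc_end {g : ℝ → X → X} {a h u₀ u₁ : ℝ} (ha : 0 < a) (hh : 0 < h) {p : ℝ → X} {s : ℝ}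
    (hs : a + h ≤ s) : exc g a h u₀ u₁ p s = g ((u₀ + u₁) / 2) (p 1) := by
  unfold exc
  rw [tA_eq ha.le (by linarith), tB_full hh.le hs, div_self ha.ne']
  congr 1
  field_simp
  ring

/-- the curves -/
theorem curvesS {Y : Type} [TopologicalSpace Y] [CompactSpace Y] {σ : X → X} {P : Set X}
    {lam l : ℝ} {g : ℝ → X → X} (hg : TurnS X σ P lam l g) (hlam : 0 < lam) (hl : 0 < l) {b : ℝ}
    (hb : 0 < b) {q : ℕ} {f : Y → X} (hf : Continuous f) {A : Set Y}
    {t : ℕ → Y → ℝ} {ρ : ℕ → Y → ℝ → X} (hD : DataF P b q f A t ρ) :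
    ∃ Γ : Y → ℝ → X, (∀ s, Continuous fun y => Γ y s) ∧
      (∀ y s s', dist (Γ y s) (Γ y s') ≤ |s - s'|) ∧ (∀ y, Γ y 0 = f y) ∧
      ∀ y, ∀ s, ((q : ℝ) + 1) * (2 * lam * b + l) ≤ s → Γ y s = σ (f y) := by
  classical
  obtain ⟨d1, d2, d3, d4, d5, d6⟩ := hD
  -- a uniform lower bound of the largest weight
  obtain ⟨θ, hθ, hθ'⟩ : ∃ θ : ℝ, 0 < θ ∧ ∀ y, ∃ v ≤ q, 2 * θ ≤ t v y := by
    rcases isEmpty_or_nonempty Y with hE | hE
    · exact ⟨1, one_pos, fun y => (hE.false y).elim⟩
    · have hne : (Finset.range (q + 1)).Nonempty := ⟨0, by simp⟩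
      have hc : Continuous fun y => (Finset.range (q + 1)).sup' hne fun v => t v y :=
        Continuous.finset_sup'_apply hne fun v _ => d1 v
      obtain ⟨y₀, -, hy₀⟩ := isCompact_univ.exists_isMinOn (univ_nonempty (α := Y)) hc.continuousOn
      have h0 : 0 < (Finset.range (q + 1)).sup' hne fun v => t v y₀ := by
        obtain ⟨v, hv, hv'⟩ := d3 y₀
        exact (Finset.lt_sup'_iff hne).2 ⟨v, Finset.mem_range.2 (by omega), hv'⟩
      refine ⟨((Finset.range (q + 1)).sup' hne fun v => t v y₀) / 2, by positivity, fun y => ?_⟩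
      have h1 := hy₀ (mem_univ y)
      obtain ⟨v, hv, hv'⟩ := Finset.exists_mem_eq_sup' hne fun v => t v y
      refine ⟨v, by rw [Finset.mem_range] at hv; omega, ?_⟩
      rw [← hv']
      have h2 : ((Finset.range (q + 1)).sup' hne fun v => t v y₀) ≤
        ((Finset.range (q + 1)).sup' hne fun v => t v y) := h1
      linarith
  set w : ℕ → Y → ℝ := fun v y => max 0 (t v y - θ) with hw
  have hwc : ∀ v, Continuous (w v) := fun v => continuous_const.max ((d1 v).sub continuous_const)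
  have hw0 : ∀ v y, 0 ≤ w v y := fun v y => le_max_left _ _
  set W : Y → ℝ := fun y => ∑ v ∈ Finset.range (q + 1), w v y with hW
  have hW0 : ∀ y, 0 < W y := by
    intro y
    obtain ⟨v, hv, hv'⟩ := hθ' y
    refine Finset.sum_pos' (fun v _ => hw0 v y) ⟨v, Finset.mem_range.2 (by omega), ?_⟩
    exact lt_max_of_lt_right (by linarith)
  have hWc : Continuous W := continuous_finsetSum _ fun v _ => hwc v
  set T : ℕ → Y → ℝ := fun j y => (∑ v ∈ Finset.range j, w v y) / W y with hT
  have hTc : ∀ j, Continuous (T j) := fun j =>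
    (continuous_finsetSum _ fun v _ => hwc v).div hWc fun y => (hW0 y).ne'
  have hT0 : ∀ y, T 0 y = 0 := fun y => by simp [hT]
  have hT1 : ∀ y, T (q + 1) y = 1 := fun y => div_self (hW0 y).ne'
  have hTd : ∀ j y, T (j + 1) y - T j y = w j y / W y := by
    intro j y
    simp only [hT]
    rw [Finset.sum_range_succ, ← sub_div, add_sub_cancel_left]
  have hTs : ∀ j y, w j y = 0 → T (j + 1) y = T j y := by
    intro j y h
    have := hTd j y
    rw [h, zero_div] at this
    linarith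
  have hTl : ∀ j y, j ≤ q → |T (j + 1) y - T j y| ≤ 1 := by
    intro j y hj
    rw [hTd, abs_of_nonneg (div_nonneg (hw0 j y) (hW0 y).le), div_le_one (hW0 y)]
    exact Finset.single_le_sum (f := fun v => w v y) (fun v _ => hw0 v y)
      (Finset.mem_range.2 (by omega))
  set ℓ : ℕ → Y → ℝ → X := fun v => leg b θ f (t v) (ρ v) with hℓ
  have hℓd : ∀ v y s s', dist (ℓ v y s) (ℓ v y s') ≤ |s - s'| * b := fun v y s s' =>
    leg_dist hb.le hθ (d5 v) y s s'
  have hℓ0 : ∀ v y, ℓ v y 0 = f y := fun v y => leg_zero (d5 v) y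
  have hℓ1 : ∀ v y, w v y ≠ 0 → ℓ v y 1 ∈ P := by
    intro v y h
    refine leg_one hθ (d5 v) ?_
    by_contra hcon
    push Not at hcon
    exact h (max_eq_left (by linarith))
  have hℓc : ∀ v s, Continuous fun y => ℓ v y s := fun v s =>
    leg_cont hb.le hθ hf (d1 v) (d2 v) (d4 v) (d5 v) s
  set a₀ : ℝ := lam * b with ha₀
  have ha₀0 : 0 < a₀ := mul_pos hlam hb
  have hl2 : 0 < l / 2 := by linarith
  set a : ℝ := a₀ + l / 2 with ha
  have ha0 : 0 < a := by linarith
  set c : Y → ℕ → ℝ → X := fun y i s =>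
    if i % 2 = 0 then exc g a₀ (l / 2) (T (i / 2) y) (T (i / 2 + 1) y) (ℓ (i / 2) y) s
    else exc g a₀ (l / 2) (T (i / 2 + 1) y) (T (i / 2) y) (ℓ (i / 2) y) (a - s) with hc
  have hcc : ∀ i s, Continuous fun y => c y i s := by
    intro i s
    simp only [hc]
    split_ifs
    · unfold exc
      exact hg.cont.comp (((hTc _).add (((hTc _).sub (hTc _)).mul continuous_const)).prodMk
        (hℓc _ _))
    · unfold exc
      exact hg.cont.comp (((hTc _).add (((hTc _).sub (hTc _)).mul continuous_const)).prodMk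
        (hℓc _ _))
  have hor : ∀ j y, T j y = T (j + 1) y ∨ ℓ j y 1 ∈ P := by
    intro j y
    by_cases hz : w j y = 0
    · left
      exact (hTs _ _ hz).symm
    · right
      exact hℓ1 _ _ hz
  have hcl : ∀ y i, i < 2 * (q + 1) → ∀ s s', dist (c y i s) (c y i s') ≤ |s - s'| := by
    intro y i hi s s'
    simp only [hc]
    split_ifs
    · exact exc_lip hg hlam hl hb (hTl _ y (by omega)) (hℓd _ y) (hor _ y) s s'
    · have h1 := hTl (i / 2) y (by omega)
      rw [abs_sub_comm] at h1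
      have h2 := exc_lip hg hlam hl hb h1 (hℓd (i / 2) y)
        ((hor (i / 2) y).imp (fun h => h.symm) id) (a - s) (a - s')
      refine h2.trans (le_of_eq ?_)
      rw [show a - s - (a - s') = -(s - s') by ring, abs_neg]
  have hcon : ∀ y i, c y i a = c y (i + 1) 0 := by
    intro y i
    simp only [hc]
    rcases Nat.mod_two_eq_zero_or_one i with h | h
    · have h2 : (i + 1) % 2 = 1 := by omega
      have h3 : (i + 1) / 2 = i / 2 := by omega
      rw [if_pos h, if_neg (by omega), h3, sub_zero, exc_end ha₀0 hl2 le_rfl,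
        exc_end ha₀0 hl2 le_rfl, add_comm (T (i / 2) y)]
    · have h2 : (i + 1) % 2 = 0 := by omega
      have h3 : (i + 1) / 2 = i / 2 + 1 := by omega
      rw [if_neg (by omega), if_pos h2, h3, sub_self, exc_start ha₀0.le hl2.le le_rfl,
        exc_start ha₀0.le hl2.le le_rfl, hℓ0, hℓ0]
  have hst : ∀ y i s, a ≤ s → c y i s = c y i a := by
    intro y i s hs
    simp only [hc]
    split_ifs
    · rw [exc_end ha₀0 hl2 hs, exc_end ha₀0 hl2 le_rfl]
    · rw [exc_start ha₀0.le hl2.le (by linarith), exc_start ha₀0.le hl2.le (by linarith)]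
  refine ⟨fun y s => cat a (c y) (2 * (q + 1)) s, fun s => cat_cont hcc _ s, fun y s s' =>
    cat_lip ha0 (fun i hi => hcl y i hi) (fun i _ => hcon y i) (fun i _ => hst y i) s s',
    fun y => ?_, fun y s hs => ?_⟩
  · show cat a (c y) (2 * (q + 1)) 0 = f y
    rw [cat_zero ha0.le]
    simp only [hc]
    rw [if_pos (by norm_num), Nat.zero_div, exc_start ha₀0.le hl2.le le_rfl, hT0, hg.zero, hℓ0]
  · show cat a (c y) (2 * (q + 1)) s = σ (f y)
    rw [cat_ge (by omega) ha0 (fun i _ => hcon y i) (fun i _ => hst y i) (by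
      refine le_trans (le_of_eq ?_) hs
      rw [ha, ha₀]
      push_cast
      ring)]
    simp only [hc]
    have e1 : (2 * (q + 1) - 1) % 2 = 1 := by omega
    have e2 : (2 * (q + 1) - 1) / 2 = q := by omega
    rw [if_neg (by omega), e2, sub_self, exc_start ha₀0.le hl2.le le_rfl, hT1, hg.one, hℓ0]

end Pool.Agent.H44.LI
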