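import Pool.Graph.R_seed8.Helper954.Hopf.D1a
import Pool.Graph.R_seed8.Helper954.Hopf.D1b

/-!
# Fine chains on the join, every simplex of which lies in a face; maps which are only almost
continuous
-/

set_option autoImplicit false

namespace Pool.Agent.H44.LI

open Pool.Agent.Helper954.Hopf.Dold Pool.Agent.Helper954.Hopf.Dold.D1a

/-- arbitrarily fine equivariant chains on the join complex, every simplex in a face -/
theorem fine_chains_face (p : ℕ) [Fact p.Prime] (M : ℕ) (δ : ℝ) (hδ : 0 < δ) :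
    ∃ c : ℕ → Chain p (VV p M),
      (∀ k, k < M → ∀ l ∈ (c k).support, l.length = k + 1 ∧ (∀ x ∈ l, x ∈ JK p M) ∧
        ∃ f : Fin M → ZMod p, (∀ x ∈ l, x ∈ face f) ∧ ∀ x ∈ l, ∀ y ∈ l, dist x y < δ) ∧
      (0 < M → bd p (c 0) = Finsupp.single [] 1) ∧
      ∀ k, k + 1 < M → bd p (c (k + 1)) =
        if Even k then act p sh (c k) - c k else ∑ i ∈ Finset.range p, (act p sh)^[i] (c k) := by
  rcases Nat.eq_zero_or_pos M with hM | hM
  · subst hM
    exact ⟨fun _ => 0, fun k hk => absurd hk (by omega), fun hk => absurd hk (by omega),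
      fun k hk => absurd hk (by omega)⟩
  have hq : (M : ℝ) / (M + 1) < 1 := by
    rw [div_lt_one (by positivity)]
    linarith
  obtain ⟨r, hr⟩ := exists_pow_lt_of_lt_one (show 0 < δ / 2 by positivity) hq
  refine ⟨fun k => (sub p (k + 1))^[r] (h p M k), ?_, ?_, ?_⟩
  · intro k hk l hl
    have hmem := sub_iter_good' (k + 1) r 2 (by norm_num) (Set.range (face (p := p) (M := M)))
      (by rintro C ⟨f, rfl⟩; exact face_convex f) _ (h_good k hk)
    have hl' := (Finsupp.mem_supported (ZMod p) _).mp hmem hl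
    obtain ⟨C, ⟨f, rfl⟩, g1, g2, g3⟩ := hl'
    refine ⟨g1, fun x hx => face_sub f (g2 x hx), f, g2, fun x hx y hy => ?_⟩
    rw [dist_eq_norm]
    refine (g3 x hx y hy).trans_lt ?_
    have hle : (((k + 1 : ℕ) : ℝ) / ((k + 1 : ℕ) + 1)) ≤ (M : ℝ) / (M + 1) := by
      rw [div_le_div_iff₀ (by positivity) (by positivity)]
      have : ((k + 1 : ℕ) : ℝ) ≤ M := by exact_mod_cast hk
      nlinarith
    have := pow_le_pow_left₀ (by positivity) hle r
    linarith
  · intro _
    show bd p ((sub p (0 + 1))^[r] (h p M 0)) = _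
    rw [bd_iter, bd_h]
    rw [sub_zero_iter, z]
  · intro k hk
    show bd p ((sub p (k + 1 + 1))^[r] (h p M (k + 1))) = _
    rw [bd_iter, bd_h, z_succ]
    by_cases he : Even k
    · rw [if_pos he, if_pos he, iter_eq_pow, map_sub, ← iter_eq_pow, ← iter_eq_pow]
      rw [← shL_coe, act_iter]
    · rw [if_neg he, if_neg he, iter_eq_pow, nrm_apply, map_sum]
      refine Finset.sum_congr rfl (fun i _ => ?_)
      rw [← iter_eq_pow, ← shL_coe, act_iter_iter]

/-- the shift preserves the join -/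
theorem sh_mem {p M : ℕ} [NeZero p] {x : VV p M} (hx : x ∈ JK p M) : sh x ∈ JK p M := by
  obtain ⟨h1, h2, h3⟩ := hx
  refine ⟨fun i l => h1 i (l - 1), ?_, fun i l l' hl => h3 i (l - 1) (l' - 1) ?_⟩
  · rw [← h2]
    refine Finset.sum_congr rfl fun i _ => ?_
    exact Fintype.sum_equiv (Equiv.subRight 1) _ _ fun l => rfl
  · intro h
    exact hl (sub_left_injective h)

/-- the topological obstruction: labels with `d + 1` levels on `X` exclude equivariant almost
continuous maps from the join of `d + 2` copies of `ZMod p` -/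
theorem no_map (p : ℕ) [Fact p.Prime] {X : Type} [MetricSpace X] (T : X → X) (d : ℕ)
    (ε : ℝ) (lev : X → ℕ) (lab : X → ZMod p) (hlev : ∀ x, lev x < d + 1)
    (hlevT : ∀ x, lev (T x) = lev x) (hlabT : ∀ x, lab (T x) = lab x + 1)
    (hclose : ∀ x y, dist x y < ε → lev x = lev y → lab x = lab y)
    (Θ : VV p (d + 2) → X) (hΘ : ∀ z ∈ JK p (d + 2), Θ (sh z) = T (Θ z)) (δ : ℝ) (hδ : 0 < δ)
    (hc : ∀ (f : Fin (d + 2) → ZMod p), ∀ z ∈ face f, ∀ z' ∈ face f, dist z z' < δ →
      dist (Θ z) (Θ z') < ε) : False := by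
  obtain ⟨c, hc1, hc2, hc3⟩ := fine_chains_face p (d + 2) δ hδ
  refine D1b.no_labels p sh (JK p (d + 2)) (fun x hx => sh_mem hx)
    (fun x y => dist (Θ x) (Θ y) < ε) (fun x => lev (Θ x)) (fun x => lab (Θ x)) (d + 1)
    (fun x _ => hlev _) (fun x hx => by simp only [hΘ x hx, hlevT])
    (fun x hx => by simp only [hΘ x hx, hlabT]) (fun x _ y _ h1 h2 => hclose _ _ h1 h2) c ?_
    (hc2 (by omega)) ?_
  · intro k hk l hl
    obtain ⟨g1, g2, f, g3, g4⟩ := hc1 k (by omega) l hl
    exact ⟨g1, g2, fun x hx y hy => hc f x (g3 x hx) y (g3 y hy) (g4 x hx y hy)⟩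
  · intro k hk
    exact hc3 k (by omega)

end Pool.Agent.H44.LI
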