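import Pool.Agent.H44.LI.Lab
import Pool.Agent.H44.LI.Fine
import Pool.Graph.R_pool_sql_team_seeded_3997aac3.Q186.CA.Main

/-!
# Equivariant families of closed polygons
-/

set_option autoImplicit false

open Set Topology

noncomputable section

namespace Pool.Agent.H44.LI

open Pool.Agent.Y489.GE

/-- the star with `p` legs -/
def Star (p : ℕ) : Set (ZMod p → ℝ) :=
  {x | (∀ l, 0 ≤ x l) ∧ ∀ l l', l ≠ l' → x l = 0 ∨ x l' = 0}

/-- the product of `m` stars -/
def Stars (p m : ℕ) : Set (Fin m → ZMod p → ℝ) := {u | ∀ i, u i ∈ Star p}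

/-- the rotation of the vertices by the element `a` -/
def rot (p M : ℕ) (a : ZMod p) : ZMod (M * p) := ((M * a.val : ℕ) : ZMod (M * p))

theorem rot_add {p M : ℕ} [NeZero p] (a b : ZMod p) : rot p M (a + b) = rot p M a + rot p M b := by
  unfold rot
  rw [← Nat.cast_add, ZMod.natCast_eq_natCast_iff, ← mul_add, ZMod.val_add]
  exact Nat.ModEq.mul_left' M (Nat.mod_modEq _ _)

theorem rot_zero {p M : ℕ} [NeZero p] : rot p M 0 = 0 := by
  simp [rot]

/-- the action on polygons -/
def gA {p M : ℕ} {X : Type} (A : ZMod p → X → X) (a : ZMod p) (y : ZMod (M * p) → X) :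
    ZMod (M * p) → X := fun i => A a (y (i - rot p M a))

section

variable {p M : ℕ} [NeZero p] {X : Type} {A : ZMod p → X → X}

theorem gA_add (h : Act p X A) (a b : ZMod p) (y : ZMod (M * p) → X) :
    gA A (a + b) y = gA A a (gA A b y) := by
  funext i
  simp only [gA]
  rw [h.add, rot_add]
  congr 3
  ring

theorem gA_zero (h : Act p X A) (y : ZMod (M * p) → X) : gA A 0 y = y := by
  funext i
  simp only [gA]
  rw [h.zero, rot_zero, sub_zero]

theorem gA_cont [MetricSpace X] (hc : ∀ a, Continuous (A a)) (a : ZMod p) :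
    Continuous (gA A a : (ZMod (M * p) → X) → ZMod (M * p) → X) :=
  continuous_pi fun i => (hc a).comp (continuous_apply (i - rot p M a))

theorem gA_mem [MetricSpace X] {lam : ℝ} (hL : ∀ a x y, dist (A a x) (A a y) ≤ lam * dist x y)
    (h0 : 0 ≤ lam) (a : ZMod p) {δ : ℝ} {y : ZMod (M * p) → X} (hy : y ∈ Pol X (M * p) δ) :
    gA A a y ∈ Pol X (M * p) (lam * δ) := by
  intro i
  refine (hL _ _ _).trans (mul_le_mul_of_nonneg_left ?_ h0)
  have := hy (i - rot p M a)
  rwa [sub_add_eq_add_sub] at this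

theorem gA_const {a : ZMod p} {y : ZMod (M * p) → X} (hy : ∀ i, y i = y 0) (i : ZMod (M * p)) :
    gA A a y i = gA A a y 0 := by
  simp only [gA]
  rw [hy, hy (0 - rot p M a)]

end

/-- equivariant families of polygons over a product of stars -/
structure Fam {p : ℕ} {X : Type} [MetricSpace X] (A : ZMod p → X → X) (M m : ℕ) (δ : ℝ)
    (Φ : (Fin m → ZMod p → ℝ) → ZMod (M * p) → X) : Prop where
  cont : ContinuousOn Φ (Stars p m)
  mem : ∀ u ∈ Stars p m, Φ u ∈ Pol X (M * p) δ
  equi : ∀ (a : ZMod p), ∀ u ∈ Stars p m, Φ (fun i l => u i (l - a)) = gA A a (Φ u)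
  const : ∀ u ∈ Stars p m, (∃ i l, 1 ≤ u i l) → ∀ i, Φ u i = Φ u 0

/-- a leg of the star which contains `x` -/
def leg {p : ℕ} (x : ZMod p → ℝ) : ZMod p := by
  classical exact if h : ∃ l, x l ≠ 0 then h.choose else 0

theorem leg_spec {p : ℕ} {x : ZMod p → ℝ} (hx : x ∈ Star p) {l : ZMod p} (hl : l ≠ leg x) :
    x l = 0 := by
  unfold leg at hl
  split_ifs at hl with h
  · rcases hx.2 l h.choose hl with h1 | h1
    · exact h1
    · exact absurd h1 h.choose_spec
  · by_contra h1
    exact h ⟨l, h1⟩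

theorem isClosed_star (p : ℕ) : IsClosed (Star p) := by
  have : Star p = (⋂ l, {x | 0 ≤ x l}) ∩ ⋂ l, ⋂ l', ⋂ _ : l ≠ l', {x | x l = 0 ∨ x l' = 0} := by
    ext x
    simp [Star]
  rw [this]
  refine (isClosed_iInter fun l => isClosed_le continuous_const (continuous_apply l)).inter
    (isClosed_iInter fun l => isClosed_iInter fun l' => isClosed_iInter fun _ => ?_)
  have h1 : IsClosed {x : ZMod p → ℝ | x l = 0} :=
    isClosed_eq (continuous_apply l) continuous_const
  have h2 : IsClosed {x : ZMod p → ℝ | x l' = 0} :=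
    isClosed_eq (continuous_apply l') continuous_const
  exact h1.union h2

theorem isClosed_stars (p m : ℕ) : IsClosed (Stars p m) := by
  have : Stars p m = ⋂ i, {u | u i ∈ Star p} := by
    ext x
    simp [Stars]
  rw [this]
  exact isClosed_iInter fun i => (isClosed_star p).preimage (continuous_apply i)

theorem shift_mem {p m : ℕ} {u : Fin m → ZMod p → ℝ} (hu : u ∈ Stars p m) (a : ZMod p) :
    (fun i l => u i (l - a)) ∈ Stars p m := fun i =>
  ⟨fun l => (hu i).1 _, fun l l' h => (hu i).2 _ _ fun h' => h (sub_left_injective h')⟩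

theorem shift_cont {p m : ℕ} (a : ZMod p) :
    Continuous fun (u : Fin m → ZMod p → ℝ) => (fun i l => u i (l - a) : Fin m → ZMod p → ℝ) :=
  continuous_pi fun i => continuous_pi fun l => continuous_apply_apply i (l - a)

section

variable {p M : ℕ} [NeZero p] {X : Type} [MetricSpace X] {A : ZMod p → X → X}

/-- one step: the family is extended over one more star -/
theorem Fam.step (h : Act p X A) (hc : ∀ a, Continuous (A a)) {lam : ℝ} (hlam : 1 ≤ lam)
    (hL : ∀ a x y, dist (A a x) (A a y) ≤ lam * dist x y) {m : ℕ} {δ : ℝ}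
    {Φ : (Fin m → ZMod p → ℝ) → ZMod (M * p) → X} (hΦ : Fam A M m δ Φ)
    (hP : PolC X (M * p) δ) : ∃ Ψ, Fam A M (m + 1) (lam * δ) Ψ := by
  classical
  obtain ⟨cc, H, hH1, hH2, hH3, hH4, hH5⟩ := hP
  let Hx : (ZMod (M * p) → X) → ℝ → ZMod (M * p) → X := fun y s =>
    if hy : y ∈ Pol X (M * p) δ then H ⟨y, hy⟩ s else y
  have hHx : ∀ y (hy : y ∈ Pol X (M * p) δ) s, Hx y s = H ⟨y, hy⟩ s := fun y hy s => dif_pos hy
  -- the part over the leg `a`
  let G : ZMod p → (Fin (m + 1) → ZMod p → ℝ) → ZMod (M * p) → X := fun a u =>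
    gA A a (Hx (Φ (fun i l => u i.succ (l + a))) (u 0 a))
  have htail : ∀ u ∈ Stars p (m + 1), ∀ a : ZMod p,
      (fun (i : Fin m) l => u i.succ (l + a)) ∈ Stars p m := by
    intro u hu a
    have h1 : (fun (i : Fin m) => u i.succ) ∈ Stars p m := fun i => hu i.succ
    have h2 := shift_mem h1 (-a)
    simpa only [sub_neg_eq_add] using h2
  have hGeq : ∀ a u (hu : u ∈ Stars p (m + 1)), G a u = gA A a
      (H ⟨Φ (fun i l => u i.succ (l + a)), hΦ.mem _ (htail u hu a)⟩ (u 0 a)) := by
    intro a u hu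
    show gA A a (Hx _ _) = _
    rw [hHx _ (hΦ.mem _ (htail u hu a))]
  have hG0 : ∀ a, ∀ u ∈ Stars p (m + 1), u 0 = 0 → G a u = Φ (fun i l => u i.succ l) := by
    intro a u hu hu0
    rw [hGeq a u hu, hH3 _ _ (by rw [hu0]; exact le_rfl)]
    have h1 : (fun (i : Fin m) => u i.succ) ∈ Stars p m := fun i => hu i.succ
    have h2 := hΦ.equi (-a) _ h1
    simp only [sub_neg_eq_add] at h2
    simp only [h2]
    rw [← gA_add h, add_neg_cancel, gA_zero h]
  have hcons : ∀ a, ∀ u ∈ Stars p (m + 1), (∀ l, l ≠ a → u 0 l = 0) → G (leg (u 0)) u = G a u := by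
    intro a u hu ha
    by_cases h0 : u 0 = 0
    · rw [hG0 _ u hu h0, hG0 _ u hu h0]
    · have : leg (u 0) = a := by
        by_contra h1
        apply h0
        funext l
        by_cases hl : l = a
        · subst hl
          exact leg_spec (hu 0) fun h2 => h1 h2.symm
        · exact ha l hl
      rw [this]
  refine ⟨fun u => G (leg (u 0)) u, ?_, ?_, ?_, ?_⟩
  · -- continuity
    have hcov : Stars p (m + 1) = ⋃ a : ZMod p, Stars p (m + 1) ∩ {u | ∀ l, l ≠ a → u 0 l = 0} := by
      ext u
      simp only [mem_iUnion, mem_inter_iff, exists_and_left, Set.mem_ofPred_eq]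
      exact ⟨fun hu => ⟨hu, leg (u 0), fun l hl => leg_spec (hu 0) hl⟩, fun hu => hu.1⟩
    rw [hcov]
    refine (locallyFinite_of_finite _).continuousOn_iUnion (fun a => ?_) fun a => ?_
    · refine (isClosed_stars p (m + 1)).inter ?_
      have : {u : Fin (m + 1) → ZMod p → ℝ | ∀ l, l ≠ a → u 0 l = 0} =
          ⋂ l, ⋂ _ : l ≠ a, {u | u 0 l = 0} := by
        ext u
        simp
      rw [this]
      exact isClosed_iInter fun l => isClosed_iInter fun _ =>
        isClosed_eq (continuous_apply_apply 0 l) continuous_const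
    · have h1 : ContinuousOn (G a) (Stars p (m + 1) ∩ {u | ∀ l, l ≠ a → u 0 l = 0}) := by
        refine ContinuousOn.mono ?_ inter_subset_left
        rw [continuousOn_iff_continuous_domRestrict]
        have h2 : Set.domRestrict (Stars p (m + 1)) (G a) = fun u : ↥(Stars p (m + 1)) => gA A a
            (H ⟨Φ (fun i l => u.1 i.succ (l + a)), hΦ.mem _ (htail u.1 u.2 a)⟩ (u.1 0 a)) := by
          funext u
          exact hGeq a u.1 u.2
        rw [h2]
        refine (gA_cont hc a).comp ?_
        have h3 : Continuous fun u : ↥(Stars p (m + 1)) =>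
            (fun (i : Fin m) l => u.1 i.succ (l + a) : Fin m → ZMod p → ℝ) :=
          continuous_pi fun i => continuous_pi fun l =>
            (continuous_apply_apply i.succ (l + a)).comp continuous_subtype_val
        have h4 : Continuous fun u : ↥(Stars p (m + 1)) => Φ (fun i l => u.1 i.succ (l + a)) :=
          hΦ.cont.comp_continuous h3 fun u => htail u.1 u.2 a
        have h5 : Continuous fun u : ↥(Stars p (m + 1)) => u.1 0 a :=
          (continuous_apply_apply 0 a).comp continuous_subtype_val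
        exact hH1.comp ((h4.subtype_mk fun u => hΦ.mem _ (htail u.1 u.2 a)).prodMk h5)
      exact h1.congr fun u hu => hcons a u hu.1 hu.2
  · intro u hu
    show G (leg (u 0)) u ∈ _
    rw [hGeq _ u hu]
    exact gA_mem hL (by linarith) _ (hH2 _ _)
  · intro b u hu
    have hb := shift_mem hu b
    let v : Fin (m + 1) → ZMod p → ℝ := fun i l => u i (l - b)
    show G (leg (v 0)) v = gA A b (G (leg (u 0)) u)
    set a := leg (u 0) with ha
    have h1 : ∀ l, l ≠ b + a → v 0 l = 0 := by
      intro l hl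
      refine leg_spec (hu 0) fun h2 => hl ?_
      rw [← ha] at h2
      rw [← h2]
      ring
    rw [hcons (b + a) v hb h1]
    show gA A (b + a) (Hx (Φ (fun i l => u i.succ (l + (b + a) - b))) (u 0 (b + a - b))) =
      gA A b (gA A a (Hx (Φ (fun i l => u i.succ (l + a))) (u 0 a)))
    rw [gA_add h]
    have h2 : b + a - b = a := by ring
    have h3 : ∀ l : ZMod p, l + (b + a) - b = l + a := fun l => by ring
    simp only [h2, h3]
  · intro u hu hex i
    show G (leg (u 0)) u i = G (leg (u 0)) u 0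
    rw [hGeq _ u hu]
    refine gA_const ?_ i
    obtain ⟨j, l, hjl⟩ := hex
    refine Fin.cases (motive := fun j => 1 ≤ u j l → _) ?_ ?_ j hjl
    · intro h1 i
      have h2 : l = leg (u 0) := by
        by_contra h3
        rw [leg_spec (hu 0) h3] at h1
        linarith
      rw [← h2, hH4 _ _ h1]
    · intro j h1 i
      have h2 := hΦ.const _ (htail u hu (leg (u 0))) ⟨j, l - leg (u 0), by
        simpa only [sub_add_cancel] using h1⟩
      have h3 := hH5 ⟨Φ (fun i l => u i.succ (l + leg (u 0))), hΦ.mem _ (htail u hu _)⟩ h2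
        (u 0 (leg (u 0)))
      rw [h3]
      exact h2 i

end

end Pool.Agent.H44.LI
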