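import Pool.Graph.R_pool_sql_team_seeded_3997aac3.Q186.CA.Main

/-!
# Equivariant families of closed polygons, general finite commutative groups
-/

set_option autoImplicit false

open Set Topology

noncomputable section

namespace Pool.Agent.H44.LI

open Pool.Agent.Y489.GE

/-- an action of an additive group -/
structure ActG (G X : Type) [AddGroup G] (A : G → X → X) : Prop where
  zero : ∀ x, A 0 x = x
  add : ∀ a b x, A (a + b) x = A a (A b x)

/-- the action on polygons, `χ` is the action on the vertices -/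
def gB {G : Type} [AddGroup G] {N : ℕ} {X : Type} (A : G → X → X) (χ : G → ZMod N → ZMod N)
    (a : G) (y : ZMod N → X) : ZMod N → X := fun i => A a (y (χ (-a) i))

/-- the polygons with sides at most `δ` are contracted within the polygons with sides at most
`δ'` -/
def PolCC (X : Type) [MetricSpace X] (N : ℕ) (δ δ' : ℝ) : Prop :=
  ∃ c : ↥(Pol X N δ) → X, Htp (Y := ↥(Pol X N δ)) (W := ZMod N → X) (Pol X N δ')
    {x | ∀ i, x.1 i = x.1 0} (fun x => x.1) (fun x _ => c x)

theorem PolCC.of_retract {X Y : Type} [MetricSpace X] [MetricSpace Y] {N : ℕ} {δ a b : ℝ}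
    {ι : Y → X} {ρ : X → Y} (ha : 0 ≤ a) (hb : 0 ≤ b)
    (hι : ∀ x y, dist (ι x) (ι y) ≤ a * dist x y) (hρ : ∀ x y, dist (ρ x) (ρ y) ≤ b * dist x y)
    (hid : ∀ y, ρ (ι y) = y) (hP : PolC X N (a * δ)) : PolCC Y N δ (b * (a * δ)) := by
  obtain ⟨c, H, h1, h2, h3, h4, h5⟩ := hP
  have hιm : ∀ y : ↥(Pol Y N δ), (fun i => ι (y.1 i)) ∈ Pol X N (a * δ) := fun y i =>
    (hι _ _).trans (mul_le_mul_of_nonneg_left (y.2 i) ha)
  have hιc : Continuous ι :=
    (LipschitzWith.of_dist_le_mul (K := ⟨a, ha⟩) fun x y => hι x y).continuous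
  have hρc : Continuous ρ :=
    (LipschitzWith.of_dist_le_mul (K := ⟨b, hb⟩) fun x y => hρ x y).continuous
  let J : ↥(Pol Y N δ) → ↥(Pol X N (a * δ)) := fun y => ⟨fun i => ι (y.1 i), hιm y⟩
  have hJ : Continuous J := by
    refine Continuous.subtype_mk ?_ _
    exact continuous_pi fun i => hιc.comp ((continuous_apply i).comp continuous_subtype_val)
  refine ⟨fun y => ρ (c (J y)), fun y s i => ρ (H (J y) s i), ?_, ?_, ?_, ?_, ?_⟩
  · have h6 : Continuous fun z : ↥(Pol Y N δ) × ℝ => H (J z.1) z.2 :=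
      h1.comp ((hJ.comp continuous_fst).prodMk continuous_snd)
    exact continuous_pi fun i => hρc.comp ((continuous_apply i).comp h6)
  · intro y s i
    exact (hρ _ _).trans (mul_le_mul_of_nonneg_left (h2 (J y) s i) hb)
  · intro y s hs
    funext i
    show ρ (H (J y) s i) = y.1 i
    rw [h3 _ _ hs]
    exact hid _
  · intro y s hs
    funext i
    show ρ (H (J y) s i) = ρ (c (J y))
    rw [h4 _ _ hs]
  · intro y hy s
    funext i
    show ρ (H (J y) s i) = y.1 i
    rw [h5 (J y) (fun i => by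
      show ι (y.1 i) = ι (y.1 0)
      rw [hy i]) s]
    exact hid _

section

variable {G : Type} [AddCommGroup G] {N : ℕ} {X : Type} {A : G → X → X} {χ : G → ZMod N → ZMod N}

theorem gB_add (h : ActG G X A) (hχ : ∀ a b i, χ (a + b) i = χ a (χ b i)) (a b : G)
    (y : ZMod N → X) : gB A χ (a + b) y = gB A χ a (gB A χ b y) := by
  funext i
  simp only [gB]
  rw [h.add, neg_add_rev, hχ]

theorem gB_zero (h : ActG G X A) (hχ : ∀ i, χ 0 i = i) (y : ZMod N → X) : gB A χ 0 y = y := by
  funext i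
  simp only [gB]
  rw [h.zero, neg_zero, hχ]

theorem gB_cont [MetricSpace X] (hc : ∀ a, Continuous (A a)) (a : G) :
    Continuous (gB A χ a : (ZMod N → X) → ZMod N → X) :=
  continuous_pi fun i => (hc a).comp (continuous_apply (χ (-a) i))

theorem gB_mem [MetricSpace X] {lam : ℝ} (hL : ∀ a x y, dist (A a x) (A a y) ≤ lam * dist x y)
    (h0 : 0 ≤ lam) (hχ : ∀ a i, χ a (i + 1) = χ a i + 1 ∨ χ a i = χ a (i + 1) + 1) (a : G)
    {δ : ℝ} {y : ZMod N → X} (hy : y ∈ Pol X N δ) : gB A χ a y ∈ Pol X N (lam * δ) := by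
  intro i
  refine (hL _ _ _).trans (mul_le_mul_of_nonneg_left ?_ h0)
  rcases hχ (-a) i with h1 | h1
  · rw [h1]
    exact hy _
  · rw [h1, dist_comm]
    exact hy _

theorem gB_const {a : G} {y : ZMod N → X} (hy : ∀ i, y i = y 0) (i : ZMod N) :
    gB A χ a y i = gB A χ a y 0 := by
  simp only [gB]
  rw [hy, hy (χ (-a) 0)]

end

/-- the star with legs indexed by `G` -/
def StarG (G : Type) : Set (G → ℝ) :=
  {x | (∀ l, 0 ≤ x l) ∧ ∀ l l', l ≠ l' → x l = 0 ∨ x l' = 0}

/-- the product of `m` stars -/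
def StarsG (G : Type) (m : ℕ) : Set (Fin m → G → ℝ) := {u | ∀ i, u i ∈ StarG G}

/-- equivariant families of polygons over a product of stars -/
structure FamG {G : Type} [AddCommGroup G] {N : ℕ} {X : Type} [MetricSpace X] (A : G → X → X)
    (χ : G → ZMod N → ZMod N) (m : ℕ) (δ : ℝ) (Φ : (Fin m → G → ℝ) → ZMod N → X) : Prop where
  cont : ContinuousOn Φ (StarsG G m)
  mem : ∀ u ∈ StarsG G m, Φ u ∈ Pol X N δ
  equi : ∀ (a : G), ∀ u ∈ StarsG G m, Φ (fun i l => u i (l - a)) = gB A χ a (Φ u)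
  const : ∀ u ∈ StarsG G m, (∃ i l, 1 ≤ u i l) → ∀ i, Φ u i = Φ u 0

/-- a leg of the star which contains `x` -/
def legG {G : Type} [Zero G] (x : G → ℝ) : G := by
  classical exact if h : ∃ l, x l ≠ 0 then h.choose else 0

theorem legG_spec {G : Type} [Zero G] {x : G → ℝ} (hx : x ∈ StarG G) {l : G} (hl : l ≠ legG x) :
    x l = 0 := by
  unfold legG at hl
  split_ifs at hl with h
  · rcases hx.2 l h.choose hl with h1 | h1
    · exact h1
    · exact absurd h1 h.choose_spec
  · by_contra h1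
    exact h ⟨l, h1⟩

theorem isClosed_starG (G : Type) : IsClosed (StarG G) := by
  have : StarG G = (⋂ l, {x | 0 ≤ x l}) ∩ ⋂ l, ⋂ l', ⋂ _ : l ≠ l', {x | x l = 0 ∨ x l' = 0} := by
    ext x
    simp [StarG]
  rw [this]
  refine (isClosed_iInter fun l => isClosed_le continuous_const (continuous_apply l)).inter
    (isClosed_iInter fun l => isClosed_iInter fun l' => isClosed_iInter fun _ => ?_)
  have h1 : IsClosed {x : G → ℝ | x l = 0} :=
    isClosed_eq (continuous_apply l) continuous_const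
  have h2 : IsClosed {x : G → ℝ | x l' = 0} :=
    isClosed_eq (continuous_apply l') continuous_const
  exact h1.union h2

theorem isClosed_starsG (G : Type) (m : ℕ) : IsClosed (StarsG G m) := by
  have : StarsG G m = ⋂ i, {u | u i ∈ StarG G} := by
    ext x
    simp [StarsG]
  rw [this]
  exact isClosed_iInter fun i => (isClosed_starG G).preimage (continuous_apply i)

theorem shiftG_mem {G : Type} [AddCommGroup G] {m : ℕ} {u : Fin m → G → ℝ}
    (hu : u ∈ StarsG G m) (a : G) : (fun i l => u i (l - a)) ∈ StarsG G m := fun i =>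
  ⟨fun l => (hu i).1 _, fun l l' h => (hu i).2 _ _ fun h' => h (sub_left_injective h')⟩

/-- one step: the family is extended over one more star -/
theorem FamG.step {G : Type} [AddCommGroup G] [Finite G] {N : ℕ} {X : Type} [MetricSpace X]
    {A : G → X → X} {χ : G → ZMod N → ZMod N} (h : ActG G X A) (hχ0 : ∀ i, χ 0 i = i)
    (hχ : ∀ a b i, χ (a + b) i = χ a (χ b i))
    (hχ1 : ∀ a i, χ a (i + 1) = χ a i + 1 ∨ χ a i = χ a (i + 1) + 1)
    (hc : ∀ a, Continuous (A a)) {lam : ℝ} (hlam : 0 ≤ lam)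
    (hL : ∀ a x y, dist (A a x) (A a y) ≤ lam * dist x y) {m : ℕ} {δ δ' : ℝ}
    {Φ : (Fin m → G → ℝ) → ZMod N → X} (hΦ : FamG A χ m δ Φ)
    (hP : PolCC X N δ δ') : ∃ Ψ, FamG A χ (m + 1) (lam * δ') Ψ ∧ Ψ 0 = Φ 0 := by
  classical
  obtain ⟨cc, H, hH1, hH2, hH3, hH4, hH5⟩ := hP
  let Hx : (ZMod N → X) → ℝ → ZMod N → X := fun y s =>
    if hy : y ∈ Pol X N δ then H ⟨y, hy⟩ s else y
  have hHx : ∀ y (hy : y ∈ Pol X N δ) s, Hx y s = H ⟨y, hy⟩ s := fun y hy s => dif_pos hy
  -- the part over the leg `a`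
  let F : G → (Fin (m + 1) → G → ℝ) → ZMod N → X := fun a u =>
    gB A χ a (Hx (Φ (fun i l => u i.succ (l + a))) (u 0 a))
  have htail : ∀ u ∈ StarsG G (m + 1), ∀ a : G,
      (fun (i : Fin m) l => u i.succ (l + a)) ∈ StarsG G m := by
    intro u hu a
    have h1 : (fun (i : Fin m) => u i.succ) ∈ StarsG G m := fun i => hu i.succ
    have h2 := shiftG_mem h1 (-a)
    simpa only [sub_neg_eq_add] using h2
  have hFeq : ∀ a u (hu : u ∈ StarsG G (m + 1)), F a u = gB A χ a
      (H ⟨Φ (fun i l => u i.succ (l + a)), hΦ.mem _ (htail u hu a)⟩ (u 0 a)) := by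
    intro a u hu
    show gB A χ a (Hx _ _) = _
    rw [hHx _ (hΦ.mem _ (htail u hu a))]
  have hF0 : ∀ a, ∀ u ∈ StarsG G (m + 1), u 0 = 0 → F a u = Φ (fun i l => u i.succ l) := by
    intro a u hu hu0
    rw [hFeq a u hu, hH3 _ _ (by rw [hu0]; exact le_rfl)]
    have h1 : (fun (i : Fin m) => u i.succ) ∈ StarsG G m := fun i => hu i.succ
    have h2 := hΦ.equi (-a) _ h1
    simp only [sub_neg_eq_add] at h2
    simp only [h2]
    rw [← gB_add h hχ, add_neg_cancel, gB_zero h hχ0]
  have hcons : ∀ a, ∀ u ∈ StarsG G (m + 1), (∀ l, l ≠ a → u 0 l = 0) →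
      F (legG (u 0)) u = F a u := by
    intro a u hu ha
    by_cases h0 : u 0 = 0
    · rw [hF0 _ u hu h0, hF0 _ u hu h0]
    · have : legG (u 0) = a := by
        by_contra h1
        apply h0
        funext l
        by_cases hl : l = a
        · subst hl
          exact legG_spec (hu 0) fun h2 => h1 h2.symm
        · exact ha l hl
      rw [this]
  refine ⟨fun u => F (legG (u 0)) u, ⟨?_, ?_, ?_, ?_⟩, hF0 _ 0 (fun i => ⟨fun l => le_rfl,
    fun l l' _ => Or.inl rfl⟩) rfl⟩
  · -- continuity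
    have hcov : StarsG G (m + 1) = ⋃ a : G, StarsG G (m + 1) ∩ {u | ∀ l, l ≠ a → u 0 l = 0} := by
      ext u
      simp only [mem_iUnion, mem_inter_iff, exists_and_left, Set.mem_ofPred_eq]
      exact ⟨fun hu => ⟨hu, legG (u 0), fun l hl => legG_spec (hu 0) hl⟩, fun hu => hu.1⟩
    rw [hcov]
    refine (locallyFinite_of_finite _).continuousOn_iUnion (fun a => ?_) fun a => ?_
    · refine (isClosed_starsG G (m + 1)).inter ?_
      have : {u : Fin (m + 1) → G → ℝ | ∀ l, l ≠ a → u 0 l = 0} =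
          ⋂ l, ⋂ _ : l ≠ a, {u | u 0 l = 0} := by
        ext u
        simp
      rw [this]
      exact isClosed_iInter fun l => isClosed_iInter fun _ =>
        isClosed_eq (continuous_apply_apply 0 l) continuous_const
    · have h1 : ContinuousOn (F a) (StarsG G (m + 1) ∩ {u | ∀ l, l ≠ a → u 0 l = 0}) := by
        refine ContinuousOn.mono ?_ inter_subset_left
        rw [continuousOn_iff_continuous_domRestrict]
        have h2 : Set.domRestrict (StarsG G (m + 1)) (F a) = fun u : ↥(StarsG G (m + 1)) =>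
            gB A χ a
            (H ⟨Φ (fun i l => u.1 i.succ (l + a)), hΦ.mem _ (htail u.1 u.2 a)⟩ (u.1 0 a)) := by
          funext u
          exact hFeq a u.1 u.2
        rw [h2]
        refine (gB_cont hc a).comp ?_
        have h3 : Continuous fun u : ↥(StarsG G (m + 1)) =>
            (fun (i : Fin m) l => u.1 i.succ (l + a) : Fin m → G → ℝ) :=
          continuous_pi fun i => continuous_pi fun l =>
            (continuous_apply_apply i.succ (l + a)).comp continuous_subtype_val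
        have h4 : Continuous fun u : ↥(StarsG G (m + 1)) => Φ (fun i l => u.1 i.succ (l + a)) :=
          hΦ.cont.comp_continuous h3 fun u => htail u.1 u.2 a
        have h5 : Continuous fun u : ↥(StarsG G (m + 1)) => u.1 0 a :=
          (continuous_apply_apply 0 a).comp continuous_subtype_val
        exact hH1.comp ((h4.subtype_mk fun u => hΦ.mem _ (htail u.1 u.2 a)).prodMk h5)
      exact h1.congr fun u hu => hcons a u hu.1 hu.2
  · intro u hu
    show F (legG (u 0)) u ∈ _
    rw [hFeq _ u hu]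
    exact gB_mem hL hlam hχ1 _ (hH2 _ _)
  · intro b u hu
    have hb := shiftG_mem hu b
    let v : Fin (m + 1) → G → ℝ := fun i l => u i (l - b)
    show F (legG (v 0)) v = gB A χ b (F (legG (u 0)) u)
    set a := legG (u 0) with ha
    have h1 : ∀ l, l ≠ b + a → v 0 l = 0 := by
      intro l hl
      refine legG_spec (hu 0) fun h2 => hl ?_
      rw [← ha] at h2
      rw [← h2]
      abel
    rw [hcons (b + a) v hb h1]
    show gB A χ (b + a) (Hx (Φ (fun i l => u i.succ (l + (b + a) - b))) (u 0 (b + a - b))) =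
      gB A χ b (gB A χ a (Hx (Φ (fun i l => u i.succ (l + a))) (u 0 a)))
    rw [gB_add h hχ]
    have h2 : b + a - b = a := by abel
    have h3 : ∀ l : G, l + (b + a) - b = l + a := fun l => by abel
    simp only [h2, h3]
  · intro u hu hex i
    show F (legG (u 0)) u i = F (legG (u 0)) u 0
    rw [hFeq _ u hu]
    refine gB_const ?_ i
    obtain ⟨j, l, hjl⟩ := hex
    refine Fin.cases (motive := fun j => 1 ≤ u j l → _) ?_ ?_ j hjl
    · intro h1 i
      have h2 : l = legG (u 0) := by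
        by_contra h3
        rw [legG_spec (hu 0) h3] at h1
        linarith
      rw [← h2, hH4 _ _ h1]
    · intro j h1 i
      have h2 := hΦ.const _ (htail u hu (legG (u 0))) ⟨j, l - legG (u 0), by
        simpa only [sub_add_cancel] using h1⟩
      have h3 := hH5 ⟨Φ (fun i l => u i.succ (l + legG (u 0))), hΦ.mem _ (htail u hu _)⟩ h2
        (u 0 (legG (u 0)))
      rw [h3]
      exact h2 i

/-- all families -/
theorem FamG.exists {G : Type} [AddCommGroup G] [Finite G] {N : ℕ} {X : Type} [MetricSpace X]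
    {A : G → X → X} {χ : G → ZMod N → ZMod N} (h : ActG G X A) (hχ0 : ∀ i, χ 0 i = i)
    (hχ : ∀ a b i, χ (a + b) i = χ a (χ b i))
    (hχ1 : ∀ a i, χ a (i + 1) = χ a i + 1 ∨ χ a i = χ a (i + 1) + 1)
    (hc : ∀ a, Continuous (A a)) {lam : ℝ} (hlam : 0 ≤ lam)
    (hL : ∀ a x y, dist (A a x) (A a y) ≤ lam * dist x y) {δ κ : ℝ} {y : ZMod N → X}
    (hy : y ∈ Pol X N δ) (hya : ∀ a, gB A χ a y = y) (m : ℕ)
    (hP : ∀ k < m, PolCC X N ((lam * κ) ^ k * δ) (κ * ((lam * κ) ^ k * δ))) :
    ∃ Φ, FamG A χ m ((lam * κ) ^ m * δ) Φ ∧ Φ 0 = y := by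
  induction m with
  | zero =>
    refine ⟨fun _ => y, ⟨continuousOn_const, fun _ _ => by rw [pow_zero, one_mul]; exact hy,
      fun a _ _ => (hya a).symm, ?_⟩, rfl⟩
    rintro _ _ ⟨i, _⟩
    exact i.elim0
  | succ m ih =>
    obtain ⟨Φ, hΦ, hΦ0⟩ := ih fun k hk => hP k (by omega)
    obtain ⟨Ψ, hΨ, hΨ0⟩ := hΦ.step h hχ0 hχ hχ1 hc hlam hL (hP m (by omega))
    refine ⟨Ψ, ?_, hΨ0.trans hΦ0⟩
    have : (lam * κ) ^ (m + 1) * δ = lam * (κ * ((lam * κ) ^ m * δ)) := by ring
    rw [this]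
    exact hΨ

end Pool.Agent.H44.LI
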