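import Pool.Agent.H44.LI.Main

/-!
# Statements for self-maps of prime order, finite groups and odd maps
-/

set_option autoImplicit false

open Set Topology

noncomputable section

namespace Pool.Agent.H44.LI

open Pool.Agent.Y489.GE

/-- the action generated by a map of order `p` -/
theorem act_of_iterate {p : ℕ} [Fact p.Prime] {X : Type} {g : X → X} (hg : ∀ x, g^[p] x = x) :
    Act p X (fun a x => g^[a.val] x) := by
  refine ⟨fun x => by simp, fun a b x => ?_⟩
  rw [ZMod.val_add]
  have h1 : Function.IsPeriodicPt g p x := hg x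
  rw [h1.iterate_mod_apply, Function.iterate_add_apply]

theorem act_one {p : ℕ} [Fact p.Prime] {X : Type} (g : X → X) (x : X) :
    g^[(1 : ZMod p).val] x = g x := by
  have : Fact (1 < p) := ⟨(Fact.out : p.Prime).one_lt⟩
  rw [ZMod.val_one, Function.iterate_one]

/-- free maps of prime order -/
theorem closed_of_iterate {p : ℕ} (hp : p.Prime) {X : Type} [MetricSpace X] [CompactSpace X]
    {r : ℝ} (hr : 0 < r) (hX : GeodSpace X) (hU : UniqGeod X r) {d : ℕ} (hdim : CovDim X d)
    {lam : ℝ} {g : X → X} (hg : ∀ x, g^[p] x = x) (hf : ∀ x, g x ≠ x)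
    (hL : ∀ k < p, ∀ x y, dist (g^[k] x) (g^[k] y) ≤ lam * dist x y) (x : X) :
    ClosedGeod X (p * lam ^ d * dist x (g x)) := by
  have : Fact p.Prime := ⟨hp⟩
  have h1 := closed_of_free (act_of_iterate hg) hr hX hU
    (fun a x y => hL a.val (ZMod.val_lt a) x y) hdim ?_ x
  · rw [act_one] at h1
    exact h1
  · intro a ha y hy
    have h2 : Function.IsPeriodicPt g a.val y := hy
    have h3 : Function.IsPeriodicPt g p y := hg y
    have h4 := h2.gcd h3
    have h5 : a.val.gcd p = 1 := by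
      have h6 : 0 < a.val := by
        rcases Nat.eq_zero_or_pos a.val with h0 | h0
        · exact absurd ((ZMod.val_eq_zero a).1 h0) ha
        · exact h0
      rw [Nat.gcd_comm]
      exact (Nat.Prime.coprime_iff_not_dvd hp).2 (Nat.not_dvd_of_pos_of_lt h6 (ZMod.val_lt a))
    rw [h5] at h4
    exact hf y h4

/-- labels from an odd map without zeros -/
theorem labels_of_odd {X : Type} [MetricSpace X] [CompactSpace X] [Nonempty X] {σ : X → X}
    {d : ℕ} {u : X → Fin (d + 1) → ℝ} (hu : Continuous u) (hu0 : ∀ x, u x ≠ 0)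
    (hodd : ∀ x, u (σ x) = -u x) :
    ∃ (ε : ℝ) (lev : X → ℕ) (lab : X → ZMod 2), 0 < ε ∧ (∀ x, lev x < d + 1) ∧
      (∀ x, lev (σ x) = lev x) ∧ (∀ x, lab (σ x) = lab x + 1) ∧
      ∀ x y, dist x y < ε → lev x = lev y → lab x = lab y := by
  classical
  obtain ⟨x0, -, hx0⟩ := isCompact_univ.exists_isMinOn (univ_nonempty (α := X))
    hu.norm.continuousOn
  have hμ : 0 < ‖u x0‖ := norm_pos_iff.2 (hu0 x0)
  set μ := ‖u x0‖ with hμd
  have hex : ∀ x, ∃ n, ∃ h : n < d + 1, μ ≤ |u x ⟨n, h⟩| := by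
    intro x
    by_contra hcon
    push Not at hcon
    have h1 : ‖u x‖ < μ := (pi_norm_lt_iff hμ).2 fun i => by
      rw [Real.norm_eq_abs]
      exact hcon i.1 i.2
    have h2 : μ ≤ ‖u x‖ := hx0 (mem_univ x)
    linarith
  let lev : X → ℕ := fun x => Nat.find (hex x)
  have hlev : ∀ x, ∃ h : lev x < d + 1, μ ≤ |u x ⟨lev x, h⟩| := fun x => Nat.find_spec (hex x)
  have hlt : ∀ x, lev x < d + 1 := fun x => (hlev x).1
  have hbig : ∀ x, μ ≤ |u x ⟨lev x, hlt x⟩| := fun x => (hlev x).2
  have hlevσ : ∀ x, lev (σ x) = lev x := by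
    intro x
    have h1 : ∀ n, (∃ h : n < d + 1, μ ≤ |u (σ x) ⟨n, h⟩|) ↔ ∃ h : n < d + 1, μ ≤ |u x ⟨n, h⟩| := by
      intro n
      rw [hodd]
      simp only [Pi.neg_apply, abs_neg]
    refine le_antisymm (Nat.find_min' _ ?_) (Nat.find_min' _ ?_)
    · exact (h1 _).2 (hlev x)
    · exact (h1 _).1 (hlev (σ x))
  let lab : X → ZMod 2 := fun x => if 0 < u x ⟨lev x, hlt x⟩ then 1 else 0
  obtain ⟨ε, hε, hεu⟩ := Metric.uniformContinuous_iff.1
    (CompactSpace.uniformContinuous_of_continuous hu) μ hμ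
  refine ⟨ε, lev, lab, hε, hlt, hlevσ, ?_, ?_⟩
  · intro x
    have h1 : u (σ x) ⟨lev (σ x), hlt (σ x)⟩ = - u x ⟨lev x, hlt x⟩ := by
      have h2 : (⟨lev (σ x), hlt (σ x)⟩ : Fin (d + 1)) = ⟨lev x, hlt x⟩ := Fin.ext (hlevσ x)
      rw [h2, hodd, Pi.neg_apply]
    have h3 := hbig x
    simp only [lab, h1]
    rcases lt_trichotomy (u x ⟨lev x, hlt x⟩) 0 with h4 | h4 | h4
    · rw [if_pos (by linarith), if_neg (by linarith)]
      rfl
    · rw [h4, abs_zero] at h3
      linarith
    · rw [if_neg (by linarith), if_pos h4]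
      rfl
  · intro x y hxy hl
    have h1 := hεu hxy
    rw [dist_pi_lt_iff hμ] at h1
    have h2 := h1 ⟨lev x, hlt x⟩
    have h3 := hbig x
    have h4 := hbig y
    have h5 : (⟨lev y, hlt y⟩ : Fin (d + 1)) = ⟨lev x, hlt x⟩ := Fin.ext hl.symm
    simp only [lab]
    rw [h5] at h4 ⊢
    rw [Real.dist_eq, abs_lt] at h2
    by_cases h6 : 0 < u x ⟨lev x, hlt x⟩
    · rw [if_pos h6, if_pos]
      rw [abs_of_pos h6] at h3
      linarith
    · rw [if_neg h6, if_neg]
      rw [abs_of_nonpos (not_lt.1 h6)] at h3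
      linarith

/-- involutions with an odd map into `ℝ ^ (d + 1)` without zeros -/
theorem closed_of_odd {X : Type} [MetricSpace X] [CompactSpace X] {r : ℝ} (hr : 0 < r)
    (hX : GeodSpace X) (hU : UniqGeod X r) {lam : ℝ} {σ : X → X} (hσ : ∀ x, σ (σ x) = x)
    (hL : ∀ x y, dist (σ x) (σ y) ≤ lam * dist x y) {d : ℕ} {u : X → Fin (d + 1) → ℝ}
    (hu : Continuous u) (hu0 : ∀ x, u x ≠ 0) (hodd : ∀ x, u (σ x) = -u x) (x : X) :
    ClosedGeod X (2 * lam ^ d * dist x (σ x)) := by
  have : Nonempty X := ⟨x⟩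
  have h2 : Fact (Nat.Prime 2) := ⟨Nat.prime_two⟩
  obtain ⟨ε, lev, lab, hε, h3, h4, h5, h6⟩ := labels_of_odd hu hu0 hodd
  have hne : x ≠ σ x := by
    intro h7
    have h8 := h5 x
    rw [← h7] at h8
    revert h8
    generalize lab x = t
    revert t
    decide
  have hD : 0 < dist x (σ x) := dist_pos.2 hne
  have hlam : 1 ≤ lam := by
    have h7 := hL x (σ x)
    rw [hσ, dist_comm (σ x) x] at h7
    nlinarith
  have hg : ∀ x, σ^[2] x = x := fun x => hσ x
  have h7 := closed_of_labels (act_of_iterate (p := 2) hg) hr hX hU (lam := lam) (d := d) ?_ hε lev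
    lab h3 (fun x => by simp only [act_one, h4]) (fun x => by simp only [act_one, h5]) h6 x
  · rw [act_one] at h7
    exact_mod_cast h7
  · intro a x y
    have ha : a.val = 0 ∨ a.val = 1 := by
      have := ZMod.val_lt a
      omega
    rcases ha with ha | ha
    · simp only [ha, Function.iterate_zero, id]
      nlinarith [dist_nonneg (x := x) (y := y)]
    · simp only [ha, Function.iterate_one]
      exact hL x y

/-- finite groups -/
theorem closed_of_group {X G : Type} [MetricSpace X] [CompactSpace X] [Nonempty X] [Group G]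
    [Finite G] [Nontrivial G] [MulAction G X] {r : ℝ} (hr : 0 < r) (hX : GeodSpace X)
    (hU : UniqGeod X r) {d : ℕ} (hdim : CovDim X d) {lam : ℝ}
    (hf : ∀ g : G, g ≠ 1 → ∀ x : X, g • x ≠ x)
    (hL : ∀ (g : G) (x y : X), dist (g • x) (g • y) ≤ lam * dist x y) :
    ClosedGeod X ((Nat.card G).minFac * lam ^ d * Metric.diam (univ : Set X)) := by
  classical
  have hcard : Nat.card G ≠ 1 := by
    intro h1
    have := (Nat.card_eq_one_iff_unique.1 h1).1
    exact not_subsingleton G this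
  have hp : (Nat.card G).minFac.Prime := Nat.minFac_prime hcard
  have : Fact (Nat.card G).minFac.Prime := ⟨hp⟩
  obtain ⟨a, ha⟩ := exists_prime_orderOf_dvd_card' (Nat.card G).minFac (Nat.minFac_dvd _)
    (G := G)
  have ha1 : a ≠ 1 := by
    intro h1
    rw [h1, orderOf_one] at ha
    exact hp.one_lt.ne ha
  have hit : ∀ (k : ℕ) (x : X), (fun x : X => a • x)^[k] x = a ^ k • x := fun k x => by
    rw [smul_iterate]
  obtain x := Classical.arbitrary X
  have hlam : 0 ≤ lam := by
    by_contra hneg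
    push Not at hneg
    have h1 := hL 1 x (a • x)
    have h2 : 0 < dist x (a • x) := dist_pos.2 (hf a ha1 x).symm
    rw [one_smul, one_smul] at h1
    nlinarith
  have h3 := closed_of_iterate hp hr hX hU hdim (lam := lam) (g := fun x : X => a • x)
    (fun x => by rw [hit, ← ha, pow_orderOf_eq_one, one_smul]) (hf a ha1)
    (fun k _ x y => by rw [hit, hit]; exact hL _ _ _) x
  refine h3.mono ?_
  refine mul_le_mul_of_nonneg_left ?_ (by positivity)
  exact Metric.dist_le_diam_of_mem isCompact_univ.isBounded (mem_univ _) (mem_univ _)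

end Pool.Agent.H44.LI
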