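import Pool.Agent.H44.LI.Lab

/-!
# The equivariant map to a join defined by an equivariant cover
-/

set_option autoImplicit false

open Set Topology

noncomputable section

namespace Pool.Agent.H44.LI

/-- a continuous equivariant map from `X` to the cone over the join of `n` copies of `ZMod p`
which avoids the vertex of the cone -/
def JoinMap {p : ℕ} {X : Type} [TopologicalSpace X] (g : X → X) (n : ℕ)
    (v : X → Fin n → ZMod p → ℝ) : Prop :=
  Continuous v ∧ (∀ x i l, 0 ≤ v x i l) ∧ (∀ x i l l', l ≠ l' → v x i l = 0 ∨ v x i l' = 0) ∧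
    (∀ x, v x ≠ 0) ∧ ∀ x i l, v (g x) i l = v x i (l - 1)

theorem joinMap_of_cover {p : ℕ} [Fact p.Prime] {X : Type} [MetricSpace X]
    [Nonempty X] {A : ZMod p → X → X} (h : Act p X A) (hc : ∀ a, Continuous (A a)) {n κ : ℕ}
    {U : Fin κ → Set X} (hU : EqF A U) (hm : ∀ x, mult A U x ≤ n) :
    ∃ v : X → Fin n → ZMod p → ℝ, JoinMap (A 1) n v := by
  classical
  obtain ⟨hU1, hU2, hU3⟩ := hU
  let Q := Fin κ × ZMod p
  let f : Q → X → ℝ := fun q x => Metric.infDist (A q.2 x) (U q.1)ᶜ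
  have hfc : ∀ q, Continuous (f q) := fun q => (Metric.continuous_infDist_pt _).comp (hc q.2)
  have hne : ∀ i, (U i)ᶜ.Nonempty := by
    intro i
    by_contra hcon
    rw [not_nonempty_iff_eq_empty, compl_empty_iff] at hcon
    let x0 := Classical.arbitrary X
    have := hU3 x0 i 0 1 (by rw [hcon]; trivial) (by rw [hcon]; trivial)
    exact zero_ne_one this
  have hfpos : ∀ q x, 0 < f q x ↔ A q.2 x ∈ U q.1 := by
    intro q x
    rw [← (hU1 q.1).isClosed_compl.notMem_iff_infDist_pos (hne q.1)]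
    simp
  have hf0 : ∀ q x, 0 ≤ f q x := fun q x => Metric.infDist_nonneg
  -- the weight of a set of indices
  let w : Finset Q → X → ℝ := fun S x =>
    (∏ q ∈ S, f q x) * ∏ q ∈ S, ∏ q' ∈ Sᶜ, max 0 (f q x - f q' x)
  have hwc : ∀ S, Continuous (w S) := fun S =>
    (continuous_finsetProd _ fun q _ => hfc q).mul
      (continuous_finsetProd _ fun q _ => continuous_finsetProd _ fun q' _ =>
        continuous_const.max ((hfc q).sub (hfc q')))
  have hw0 : ∀ S x, 0 ≤ w S x := fun S x =>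
    mul_nonneg (Finset.prod_nonneg fun q _ => hf0 q x)
      (Finset.prod_nonneg fun q _ => Finset.prod_nonneg fun q' _ => le_max_left _ _)
  have hwS : ∀ S x, w S x ≠ 0 → (∀ q ∈ S, 0 < f q x) ∧ ∀ q ∈ S, ∀ q', q' ∉ S → f q' x < f q x := by
    intro S x hS
    obtain ⟨h1, h2⟩ := mul_ne_zero_iff.1 hS
    rw [Finset.prod_ne_zero_iff] at h1 h2
    refine ⟨fun q hq => lt_of_le_of_ne (hf0 q x) (h1 q hq).symm, fun q hq q' hq' => ?_⟩
    have h3 := Finset.prod_ne_zero_iff.1 (h2 q hq) q' (Finset.mem_compl.2 hq')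
    by_contra h4
    push Not at h4
    exact h3 (max_eq_left (by linarith))
  have hwS' : ∀ S x, (∀ q ∈ S, 0 < f q x) → (∀ q ∈ S, ∀ q', q' ∉ S → f q' x < f q x) →
      0 < w S x := by
    intro S x h1 h2
    refine mul_pos (Finset.prod_pos h1) (Finset.prod_pos fun q hq => Finset.prod_pos fun q' hq' => ?_)
    have := h2 q hq q' (Finset.mem_compl.1 hq')
    exact lt_max_of_lt_right (by linarith)
  have huniq : ∀ S S' x, w S x ≠ 0 → w S' x ≠ 0 → S.card = S'.card → S = S' := by
    intro S S' x hS hS' hcard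
    by_contra hne'
    have h1 : ¬ S ⊆ S' := fun h1 => hne' (Finset.eq_of_subset_of_card_le h1 hcard.ge)
    have h2 : ¬ S' ⊆ S := fun h2 => hne' (Finset.eq_of_subset_of_card_le h2 hcard.le).symm
    obtain ⟨a, ha, ha'⟩ := Finset.not_subset.1 h1
    obtain ⟨b, hb, hb'⟩ := Finset.not_subset.1 h2
    have h3 := (hwS S x hS).2 a ha b hb'
    have h4 := (hwS S' x hS').2 b hb a ha'
    linarith
  -- labels
  let L : Finset Q → ZMod p → Prop := fun s c => ∃ i a, (i, a) ∈ s ∧
    (∀ j b, (j, b) ∈ s → i ≤ j) ∧ c = -a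
  have hLex : ∀ S : Finset Q, S.Nonempty → ∃ c, L S c := by
    intro S hS
    obtain ⟨q, hq, hmin⟩ := Finset.exists_min_image S (fun q => q.1) hS
    exact ⟨-q.2, q.1, q.2, hq, fun j b hjb => hmin (j, b) hjb, rfl⟩
  have hLun : ∀ S x c c', w S x ≠ 0 → L S c → L S c' → c = c' := by
    rintro S x c c' hS ⟨i, a, h1, h2, rfl⟩ ⟨j, b, h3, h4, rfl⟩
    have hij : i = j := le_antisymm (h2 j b h3) (h4 i a h1)
    subst hij
    rw [hU3 x i a b ((hfpos _ _).1 ((hwS S x hS).1 _ h1)) ((hfpos _ _).1 ((hwS S x hS).1 _ h3))]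
  -- the shift
  let e : Q ≃ Q :=
    { toFun := fun q => (q.1, q.2 + 1)
      invFun := fun q => (q.1, q.2 - 1)
      left_inv := fun q => by simp
      right_inv := fun q => by simp }
  let sg : Finset Q ≃ Finset Q := Equiv.finsetCongr e
  have hsg : ∀ S i a, (i, a) ∈ sg S ↔ (i, a - 1) ∈ S := by
    intro S i a
    exact Finset.mem_map_equiv
  have hfA : ∀ (i : Fin κ) (a : ZMod p) x, f (i, a) (A 1 x) = f (i, a + 1) x := by
    intro i a x
    show Metric.infDist (A a (A 1 x)) _ = Metric.infDist (A (a + 1) x) _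
    rw [h.add]
  have hwA : ∀ S x, w S (A 1 x) ≠ 0 ↔ w (sg S) x ≠ 0 := by
    intro S x
    constructor
    · intro h1
      obtain ⟨h2, h3⟩ := hwS S _ h1
      refine (hwS' (sg S) x ?_ ?_).ne'
      · rintro ⟨i, a⟩ hq
        have := h2 _ ((hsg S i a).1 hq)
        rwa [hfA, sub_add_cancel] at this
      · rintro ⟨i, a⟩ hq ⟨j, b⟩ hq'
        have := h3 _ ((hsg S i a).1 hq) (j, b - 1) (fun h4 => hq' ((hsg S j b).2 h4))
        rwa [hfA, hfA, sub_add_cancel, sub_add_cancel] at this
    · intro h1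
      obtain ⟨h2, h3⟩ := hwS (sg S) _ h1
      refine (hwS' S _ ?_ ?_).ne'
      · rintro ⟨i, a⟩ hq
        rw [hfA]
        exact h2 _ ((hsg S i (a + 1)).2 (by rwa [add_sub_cancel_right]))
      · rintro ⟨i, a⟩ hq ⟨j, b⟩ hq'
        rw [hfA, hfA]
        refine h3 _ ((hsg S i (a + 1)).2 (by rwa [add_sub_cancel_right])) _ fun h4 => hq' ?_
        have := (hsg S j (b + 1)).1 h4
        rwa [add_sub_cancel_right] at this
  have hwA' : ∀ S x, w S (A 1 x) = w (sg S) x := by
    intro S x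
    show (∏ q ∈ S, f q (A 1 x)) * ∏ q ∈ S, ∏ q' ∈ Sᶜ, max 0 (f q (A 1 x) - f q' (A 1 x)) =
      (∏ q ∈ sg S, f q x) * ∏ q ∈ sg S, ∏ q' ∈ (sg S)ᶜ, max 0 (f q x - f q' x)
    have e1 : ∀ q : Q, f q (A 1 x) = f (e q) x := by
      rintro ⟨i, a⟩
      exact hfA i a x
    have e2 : (sg S)ᶜ = (Sᶜ).map e.toEmbedding := by
      ext ⟨i, a⟩
      rw [Finset.mem_compl, hsg, Finset.mem_map_equiv, Finset.mem_compl]
      rfl
    have e3 : sg S = S.map e.toEmbedding := rfl
    rw [e2, e3, Finset.prod_map, Finset.prod_map]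
    congr 1
    · exact Finset.prod_congr rfl fun q _ => e1 q
    · refine Finset.prod_congr rfl fun q _ => ?_
      rw [Finset.prod_map]
      refine Finset.prod_congr rfl fun q' _ => ?_
      rw [e1, e1]
      rfl
  refine ⟨fun x k l => ∑ S : Finset Q, if S.card = (k : ℕ) + 1 ∧ L S l then w S x else 0,
    ?_, ?_, ?_, ?_, ?_⟩
  · refine continuous_pi fun k => continuous_pi fun l => continuous_finsetSum _ fun S _ => ?_
    split_ifs
    · exact hwc S
    · exact continuous_const
  · intro x k l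
    refine Finset.sum_nonneg fun S _ => ?_
    split_ifs
    · exact hw0 S x
    · exact le_rfl
  · intro x k l l' hll
    by_contra hcon
    push Not at hcon
    obtain ⟨h1, h2⟩ := hcon
    obtain ⟨S, -, hS⟩ := Finset.exists_ne_zero_of_sum_ne_zero h1
    obtain ⟨S', -, hS'⟩ := Finset.exists_ne_zero_of_sum_ne_zero h2
    have a1 : (S.card = (k : ℕ) + 1 ∧ L S l) ∧ w S x ≠ 0 := by
      by_cases hh : S.card = (k : ℕ) + 1 ∧ L S l
      · rw [if_pos hh] at hS
        exact ⟨hh, hS⟩
      · rw [if_neg hh] at hS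
        exact absurd rfl hS
    have a2 : (S'.card = (k : ℕ) + 1 ∧ L S' l') ∧ w S' x ≠ 0 := by
      by_cases hh : S'.card = (k : ℕ) + 1 ∧ L S' l'
      · rw [if_pos hh] at hS'
        exact ⟨hh, hS'⟩
      · rw [if_neg hh] at hS'
        exact absurd rfl hS'
    have a3 : S = S' := huniq S S' x a1.2 a2.2 (by rw [a1.1.1, a2.1.1])
    subst a3
    exact hll (hLun S x l l' a1.2 a1.1.2 a2.1.2)
  · intro x hx
    -- the set of the largest values
    obtain ⟨i0, a0, hia⟩ := hU2 x
    obtain ⟨qm, -, hqm⟩ := Finset.exists_max_image (Finset.univ : Finset Q) (fun q => f q x)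
      ⟨(i0, a0), Finset.mem_univ _⟩
    have hpos : 0 < f qm x := lt_of_lt_of_le ((hfpos (i0, a0) x).2 hia) (hqm _ (Finset.mem_univ _))
    let S : Finset Q := Finset.univ.filter fun q => f q x = f qm x
    have hS : ∀ q, q ∈ S ↔ f q x = f qm x := fun q => by simp [S]
    have hwpos : 0 < w S x := by
      refine hwS' S x (fun q hq => by rw [(hS q).1 hq]; exact hpos) fun q hq q' hq' => ?_
      rw [(hS q).1 hq]
      exact lt_of_le_of_ne (hqm q' (Finset.mem_univ _)) fun h1 => hq' ((hS q').2 h1)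
    have hSne : S.Nonempty := ⟨qm, (hS qm).2 rfl⟩
    have hScard : S.card ≤ n := by
      refine le_trans ?_ (hm x)
      have h1 := Nat.card_le_card_of_injective
        (fun q : {q : Q // q ∈ S} => (⟨q.1, (hfpos _ _).1 (by rw [(hS _).1 q.2]; exact hpos)⟩ :
          {q : Q // A q.2 x ∈ U q.1}))
        (by
          rintro ⟨a, ha⟩ ⟨b, hb⟩ hab
          simpa using hab)
      rw [Nat.card_eq_fintype_card, Fintype.card_coe] at h1
      exact h1
    obtain ⟨c, hLc⟩ := hLex S hSne
    have hcard0 := hSne.card_pos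
    have hx' := congrFun (congrFun hx ⟨S.card - 1, by omega⟩) c
    simp only [Pi.zero_apply] at hx'
    rw [Finset.sum_eq_zero_iff_of_nonneg] at hx'
    · have h2 := hx' S (Finset.mem_univ _)
      rw [if_pos ⟨by omega, hLc⟩] at h2
      linarith
    · intro S _
      split_ifs
      · exact hw0 S x
      · exact le_rfl
  · intro x k l
    refine Fintype.sum_equiv sg _ _ fun S => ?_
    have h1 : (S.card = (k : ℕ) + 1 ∧ L S l) ↔ ((sg S).card = (k : ℕ) + 1 ∧ L (sg S) (l - 1)) := by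
      have hcard : (sg S).card = S.card := by
        simp [sg, Equiv.finsetCongr_apply]
      rw [hcard]
      refine and_congr_right fun _ => ?_
      constructor
      · rintro ⟨i, a, h1, h2, h3⟩
        refine ⟨i, a + 1, (hsg S i _).2 (by rwa [add_sub_cancel_right]), ?_, by rw [h3]; ring⟩
        intro j b hjb
        exact h2 j (b - 1) ((hsg S j b).1 hjb)
      · rintro ⟨i, a, h1, h2, h3⟩
        refine ⟨i, a - 1, (hsg S i a).1 h1, ?_, ?_⟩
        · intro j b hjb
          exact h2 j (b + 1) ((hsg S j (b + 1)).2 (by rwa [add_sub_cancel_right]))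
        · have : l = (l - 1) + 1 := by ring
          rw [this, h3]
          ring
    rw [hwA']
    by_cases h2 : S.card = (k : ℕ) + 1 ∧ L S l
    · rw [if_pos h2, if_pos (h1.1 h2)]
    · rw [if_neg h2, if_neg fun h3 => h2 (h1.2 h3)]

end Pool.Agent.H44.LI
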