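import Pool.Graph.R_seed8.Y489.GE.Stm

/-!
# Free actions of `ZMod p` on compact spaces of finite covering dimension: labels
-/

set_option autoImplicit false

open Set Topology

noncomputable section

namespace Pool.Agent.H44.LI

open Pool.Agent.Y489.GE

/-- an action of the additive group `ZMod p` -/
structure Act (p : ℕ) (X : Type) (A : ZMod p → X → X) : Prop where
  zero : ∀ x, A 0 x = x
  add : ∀ a b x, A (a + b) x = A a (A b x)

theorem Act.neg_self {p : ℕ} {X : Type} {A : ZMod p → X → X} (h : Act p X A) (a : ZMod p) (x : X) :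
    A (-a) (A a x) = x := by
  rw [← h.add, neg_add_cancel, h.zero]

theorem Act.self_neg {p : ℕ} {X : Type} {A : ZMod p → X → X} (h : Act p X A) (a : ZMod p) (x : X) :
    A a (A (-a) x) = x := by
  rw [← h.add, add_neg_cancel, h.zero]

/-- open sets with disjoint translates, the translates of which cover the space -/
def EqF {p : ℕ} {X : Type} [TopologicalSpace X] (A : ZMod p → X → X) {κ : ℕ} (U : Fin κ → Set X) :
    Prop :=
  (∀ i, IsOpen (U i)) ∧ (∀ x, ∃ i a, A a x ∈ U i) ∧
    ∀ x i a b, A a x ∈ U i → A b x ∈ U i → a = b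

/-- the multiplicity of the equivariant cover at `x` -/
def mult {p : ℕ} {X : Type} (A : ZMod p → X → X) {κ : ℕ} (U : Fin κ → Set X) (x : X) : ℕ :=
  Nat.card {q : Fin κ × ZMod p // A q.2 x ∈ U q.1}

section

variable {p : ℕ} {X : Type} {A : ZMod p → X → X}

theorem mult_translate (h : Act p X A) {κ : ℕ} (U : Fin κ → Set X) (c : ZMod p) (x : X) :
    mult A U (A c x) = mult A U x := by
  refine Nat.card_congr ?_
  refine Equiv.subtypeEquiv ((Equiv.refl _).prodCongr (Equiv.addRight c)) ?_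
  rintro ⟨i, a⟩
  simp only [Equiv.prodCongr_apply, Prod.map, Equiv.refl_apply, Equiv.coe_addRight]
  rw [h.add]

theorem mult_mono [NeZero p] {κ : ℕ} {U V : Fin κ → Set X} (hUV : ∀ i, U i ⊆ V i) (x : X) :
    mult A U x ≤ mult A V x := by
  refine Nat.card_le_card_of_injective (fun q => ⟨q.1, hUV _ q.2⟩) ?_
  rintro ⟨a, ha⟩ ⟨b, hb⟩ h
  simpa using h

theorem refine_one [NeZero p] [MetricSpace X] [CompactSpace X] [Nonempty X] (h : Act p X A) (hc : ∀ a, Continuous (A a))
    {d : ℕ} (hd : CovDim X d) {κ : ℕ} {U : Fin κ → Set X} (hU : EqF A U) {C : Set X}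
    (hC : IsClosed C) (hC2 : ∀ x a, x ∈ C → A a x ∈ C → a = 0) :
    ∃ V : Fin κ → Set X, EqF A V ∧ (∀ i, V i ⊆ U i) ∧ ∀ x ∈ C, mult A V x ≤ d + 1 := by
  obtain ⟨hU1, hU2, hU3⟩ := hU
  -- the cover by all translates
  have hop : ∀ q : Fin κ × ZMod p, IsOpen {x : X | A q.2 x ∈ U q.1} := fun q =>
    (hU1 q.1).preimage (hc q.2)
  have hcov : (univ : Set X) ⊆ ⋃ q : Fin κ × ZMod p, {x : X | A q.2 x ∈ U q.1} := by
    intro x _
    obtain ⟨i, a, hia⟩ := hU2 x
    exact mem_iUnion.2 ⟨(i, a), hia⟩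
  obtain ⟨δ, hδ, hleb⟩ := lebesgue_number_lemma_of_metric isCompact_univ hop hcov
  obtain ⟨N, W, hW1, hW2, hW3, hW4⟩ := hd (δ / 2) (by positivity)
  have hk : ∀ j : Fin N, ∃ q : Fin κ × ZMod p, W j ⊆ {x : X | A q.2 x ∈ U q.1} := by
    intro j
    rcases (W j).eq_empty_or_nonempty with h0 | ⟨x, hx⟩
    · obtain ⟨i, a, -⟩ := hU2 (Classical.arbitrary X)
      exact ⟨(i, a), by rw [h0]; exact empty_subset _⟩
    · obtain ⟨q, hq⟩ := hleb x (mem_univ x)
      refine ⟨q, fun y hy => hq ?_⟩
      rw [Metric.mem_ball]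
      exact (hW2 j y hy x hx).trans_lt (by linarith)
  choose k hk using hk
  let W' : Fin κ × ZMod p → Set X := fun q => ⋃ j : {j : Fin N // k j = q}, W j.1
  have hW'o : ∀ q, IsOpen (W' q) := fun q => isOpen_iUnion fun j => hW1 j.1
  have hW'c : ∀ x, ∃ q, x ∈ W' q := by
    intro x
    obtain ⟨j, hj⟩ := hW3 x
    exact ⟨k j, mem_iUnion.2 ⟨⟨j, rfl⟩, hj⟩⟩
  have hW'U : ∀ q x, x ∈ W' q → A q.2 x ∈ U q.1 := by
    intro q x hx
    obtain ⟨⟨j, hj⟩, hx⟩ := mem_iUnion.1 hx
    have := hk j hx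
    rw [hj] at this
    exact this
  let V : Fin κ → Set X := fun i => U i ∩ ⋂ a : ZMod p, {x | A (-a) x ∈ Cᶜ ∪ W' (i, a)}
  have hVU : ∀ i, V i ⊆ U i := fun i => inter_subset_left
  refine ⟨V, ⟨?_, ?_, ?_⟩, hVU, ?_⟩
  · intro i
    refine (hU1 i).inter (isOpen_iInter_of_finite fun a => ?_)
    exact (hC.isOpen_compl.union (hW'o _)).preimage (hc (-a))
  · intro x
    by_cases hx : ∃ c, A c x ∈ C
    · obtain ⟨c, hcx⟩ := hx
      obtain ⟨⟨i, a⟩, hq⟩ := hW'c (A c x)
      refine ⟨i, a + c, ?_, ?_⟩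
      · rw [h.add]
        exact hW'U (i, a) _ hq
      · refine mem_iInter.2 fun b => ?_
        show A (-b) (A (a + c) x) ∈ Cᶜ ∪ W' (i, b)
        by_cases hb : A (-b) (A (a + c) x) ∈ C
        · right
          rw [h.add a c, ← h.add (-b) a] at hb ⊢
          have := hC2 _ _ hcx hb
          have hba : b = a := by
            have := neg_add_eq_zero.1 this
            exact this
          subst hba
          rw [neg_add_cancel, h.zero]
          exact hq
        · left
          exact hb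
    · obtain ⟨i, a, hia⟩ := hU2 x
      refine ⟨i, a, hia, mem_iInter.2 fun b => Or.inl ?_⟩
      intro hb
      apply hx
      rw [← h.add] at hb
      exact ⟨_, hb⟩
  · intro x i a b h1 h2
    exact hU3 x i a b (hVU i h1) (hVU i h2)
  · intro x hx
    have key : ∀ q : {q : Fin κ × ZMod p // A q.2 x ∈ V q.1}, ∃ j : {j : Fin N // x ∈ W j},
        k j.1 = q.1 := by
      rintro ⟨⟨i, a⟩, hq⟩
      have h1 := mem_iInter.1 hq.2 a
      simp only [Set.mem_ofPred_eq] at h1
      rw [h.neg_self] at h1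
      rcases h1 with h1 | h1
      · exact absurd hx h1
      · obtain ⟨⟨j, hj⟩, hxj⟩ := mem_iUnion.1 h1
        exact ⟨⟨j, hxj⟩, hj⟩
    choose g hg using key
    refine le_trans (Nat.card_le_card_of_injective g ?_) (hW4 x)
    intro q q' hqq
    apply Subtype.ext
    rw [← hg q, ← hg q', hqq]

theorem exists_cover [NeZero p] [MetricSpace X] [CompactSpace X] [Nonempty X] (h : Act p X A) (hc : ∀ a, Continuous (A a))
    (hf : ∀ a, a ≠ 0 → ∀ x, A a x ≠ x) {d : ℕ} (hd : CovDim X d) :
    ∃ (κ : ℕ) (U : Fin κ → Set X), EqF A U ∧ ∀ x, mult A U x ≤ d + 1 := by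
  classical
  -- the displacement
  obtain ⟨ρ, hρ, hdis⟩ : ∃ ρ : ℝ, 0 < ρ ∧ ∀ a, a ≠ 0 → ∀ x, 2 * ρ < dist x (A a x) := by
    have h1 : ∀ a, ∃ ρ : ℝ, 0 < ρ ∧ (a ≠ 0 → ∀ x, 2 * ρ < dist x (A a x)) := by
      intro a
      by_cases ha : a = 0
      · exact ⟨1, one_pos, fun h => absurd ha h⟩
      · have hcont : Continuous fun x => dist x (A a x) := continuous_id.dist (hc a)
        obtain ⟨x0, -, hx0⟩ := isCompact_univ.exists_isMinOn (univ_nonempty (α := X))
          hcont.continuousOn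
        have hpos : 0 < dist x0 (A a x0) := dist_pos.2 (hf a ha x0).symm
        refine ⟨dist x0 (A a x0) / 4, by positivity, fun _ x => ?_⟩
        have : dist x0 (A a x0) ≤ dist x (A a x) := hx0 (mem_univ x)
        linarith
    choose ρ h1 h2 using h1
    obtain ⟨a0, -, ha0⟩ := Finset.exists_min_image (Finset.univ : Finset (ZMod p)) ρ
      ⟨0, Finset.mem_univ _⟩
    refine ⟨ρ a0, h1 a0, fun a ha x => lt_of_le_of_lt ?_ (h2 a ha x)⟩
    have := ha0 a (Finset.mem_univ a)
    linarith
  obtain ⟨t, -, ht, hcov⟩ := (isCompact_univ (X := X)).finite_cover_balls hρ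
  obtain ⟨κ, x, hx⟩ : ∃ (κ : ℕ) (x : Fin κ → X), ∀ y, ∃ i, dist y (x i) < ρ := by
    have := ht.fintype
    refine ⟨Fintype.card t, fun i => ((Fintype.equivFin t).symm i).1, fun y => ?_⟩
    obtain ⟨z, hz, hy⟩ := mem_iUnion₂.1 (hcov (mem_univ y))
    exact ⟨Fintype.equivFin t ⟨z, hz⟩, by simpa using hy⟩
  have hstep : ∀ s : Finset (Fin κ), ∃ U : Fin κ → Set X, EqF A U ∧
      ∀ j ∈ s, ∀ y ∈ Metric.closedBall (x j) ρ, mult A U y ≤ d + 1 := by
    intro s
    induction s using Finset.induction_on with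
    | empty =>
      refine ⟨fun i => Metric.ball (x i) ρ, ⟨fun i => Metric.isOpen_ball, fun y => ?_, ?_⟩,
        fun j hj => absurd hj (Finset.notMem_empty j)⟩
      · obtain ⟨i, hi⟩ := hx y
        exact ⟨i, 0, by rw [h.zero]; exact hi⟩
      · intro y i a b ha hb
        by_contra hab
        have h1 := hdis (b - a) (fun h0 => hab (sub_eq_zero.1 h0).symm) (A a y)
        rw [← h.add, sub_add_cancel] at h1
        rw [Metric.mem_ball] at ha hb
        have := dist_triangle_right (A a y) (A b y) (x i)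
        linarith
    | insert j s hj ih =>
      obtain ⟨U, hU, hU2⟩ := ih
      obtain ⟨V, hV1, hV2, hV3⟩ := refine_one h hc hd hU (C := Metric.closedBall (x j) ρ)
        Metric.isClosed_closedBall (fun y a h1 h2 => by
          by_contra ha
          have h3 := hdis a ha y
          rw [Metric.mem_closedBall] at h1 h2
          have := dist_triangle_right y (A a y) (x j)
          linarith)
      refine ⟨V, hV1, fun i hi y hy => ?_⟩
      rcases Finset.mem_insert.1 hi with rfl | hi
      · exact hV3 y hy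
      · exact (mult_mono hV2 y).trans (hU2 i hi y hy)
  obtain ⟨U, hU, hU2⟩ := hstep Finset.univ
  refine ⟨κ, U, hU, fun y => ?_⟩
  obtain ⟨i, hi⟩ := hx y
  exact hU2 i (Finset.mem_univ i) y (Metric.mem_closedBall.2 hi.le)

end

/-- labels from an equivariant cover of multiplicity at most `d + 1` -/
theorem labels_of_cover {p : ℕ} [Fact p.Prime] {X : Type} [MetricSpace X] [CompactSpace X]
    [Nonempty X] {A : ZMod p → X → X} (h : Act p X A) (hc : ∀ a, Continuous (A a)) {d κ : ℕ}
    {U : Fin κ → Set X} (hU : EqF A U) (hm : ∀ x, mult A U x ≤ d + 1) :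
    ∃ (ε : ℝ) (lev : X → ℕ) (lab : X → ZMod p), 0 < ε ∧ (∀ x, lev x < d + 1) ∧
      (∀ x, lev (A 1 x) = lev x) ∧ (∀ x, lab (A 1 x) = lab x + 1) ∧
      ∀ x y, dist x y < ε → lev x = lev y → lab x = lab y := by
  classical
  obtain ⟨hU1, hU2, hU3⟩ := hU
  let Q := Fin κ × ZMod p
  let f : Q → X → ℝ := fun q x => Metric.infDist (A q.2 x) (U q.1)ᶜ
  have hfc : ∀ q, Continuous (f q) := fun q => (Metric.continuous_infDist_pt _).comp (hc q.2)
  have hne : ∀ i, (U i)ᶜ.Nonempty := by
    intro i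
    by_contra hcon
    rw [not_nonempty_iff_eq_empty, compl_empty_iff] at hcon
    let x0 := Classical.arbitrary X
    have := hU3 x0 i 0 1 (by rw [hcon]; trivial) (by rw [hcon]; trivial)
    exact zero_ne_one this
  have hfpos : ∀ q x, 0 < f q x ↔ A q.2 x ∈ U q.1 := by
    intro q x
    rw [← (hU1 q.1).isClosed_compl.notMem_iff_infDist_pos (hne q.1)]
    simp
  have hf0 : ∀ q x, 0 ≤ f q x := fun q x => Metric.infDist_nonneg
  -- the largest value
  obtain ⟨μ, hμ, hmax⟩ : ∃ μ : ℝ, 0 < μ ∧ ∀ x, ∃ q, μ ≤ f q x := by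
    have hsc : Continuous fun x => ∑ q, f q x := continuous_finsetSum _ fun q _ => hfc q
    obtain ⟨x0, -, hx0⟩ := isCompact_univ.exists_isMinOn (univ_nonempty (α := X)) hsc.continuousOn
    have hpos : 0 < ∑ q, f q x0 := by
      obtain ⟨i, a, hia⟩ := hU2 x0
      exact Finset.sum_pos' (fun q _ => hf0 q x0) ⟨(i, a), Finset.mem_univ _, (hfpos _ _).2 hia⟩
    set m0 := ∑ q, f q x0 with hm0
    refine ⟨m0 / (Fintype.card Q + 1), by positivity, fun x => ?_⟩
    by_contra hcon
    push Not at hcon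
    have h1 : m0 ≤ ∑ q, f q x := hx0 (mem_univ x)
    have h2 : ∑ q, f q x ≤ ∑ _q : Q, m0 / (Fintype.card Q + 1) :=
      Finset.sum_le_sum fun q _ => (hcon q).le
    rw [Finset.sum_const, Finset.card_univ, nsmul_eq_mul] at h2
    have h3 : (Fintype.card Q : ℝ) * (m0 / (Fintype.card Q + 1)) < m0 := by
      rw [mul_div_assoc', div_lt_iff₀ (by positivity)]
      nlinarith
    linarith
  set τ : ℝ := μ / (d + 1) with hτ
  have hτ0 : 0 < τ := by positivity
  have hμτ : μ = (d + 1) * τ := by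
    rw [hτ]
    field_simp
  let P : X → ℕ → Prop := fun x k => ∀ q, f q x ≤ k * τ ∨ ((k : ℝ) + 1) * τ ≤ f q x
  have hP : ∀ x, ∃ k, k ≤ d ∧ P x k := by
    intro x
    by_contra hcon
    push Not at hcon
    have h1 : ∀ k : Fin (d + 1), ∃ q, (k : ℝ) * τ < f q x ∧ f q x < ((k : ℝ) + 1) * τ := by
      intro k
      have := hcon k (by omega)
      simp only [P, not_forall, not_or, not_le] at this
      obtain ⟨q, hq⟩ := this
      exact ⟨q, hq⟩
    choose qk hqk1 hqk2 using h1
    obtain ⟨q0, hq0⟩ := hmax x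
    have hk0 : ∀ k : Fin (d + 1), (0 : ℝ) ≤ (k : ℝ) * τ := fun k => by positivity
    let g : Option (Fin (d + 1)) → {q : Q // A q.2 x ∈ U q.1} := fun o =>
      match o with
      | none => ⟨q0, (hfpos _ _).1 (hμ.trans_le hq0)⟩
      | some k => ⟨qk k, (hfpos _ _).1 ((hk0 k).trans_lt (hqk1 k))⟩
    have hval : ∀ k : Fin (d + 1), f (qk k) x < μ := by
      intro k
      refine (hqk2 k).trans_le ?_
      rw [hμτ]
      have : ((k : ℕ) : ℝ) ≤ d := by exact_mod_cast (by omega : (k : ℕ) ≤ d)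
      nlinarith
    have hinj : Function.Injective g := by
      intro o o' hoo
      have hoo' := congrArg (fun z : {q : Q // A q.2 x ∈ U q.1} => z.1) hoo
      rcases o with _ | k <;> rcases o' with _ | k'
      · rfl
      · exfalso
        have e : q0 = qk k' := hoo'
        have := hval k'
        rw [← e] at this
        linarith
      · exfalso
        have e : qk k = q0 := hoo'
        have := hval k
        rw [e] at this
        linarith
      · have e : qk k = qk k' := hoo'
        have a1 := hqk1 k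
        have a2 := hqk2 k
        have b1 := hqk1 k'
        have b2 := hqk2 k'
        rw [e] at a1 a2
        have c1 : ((k : ℕ) : ℝ) < (k' : ℕ) + 1 := by
          by_contra hcc
          push Not at hcc
          nlinarith
        have c2 : ((k' : ℕ) : ℝ) < (k : ℕ) + 1 := by
          by_contra hcc
          push Not at hcc
          nlinarith
        have d1 : (k : ℕ) < (k' : ℕ) + 1 := by exact_mod_cast c1
        have d2 : (k' : ℕ) < (k : ℕ) + 1 := by exact_mod_cast c2
        congr 1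
        apply Fin.ext
        omega
    have h2 := Nat.card_le_card_of_injective g hinj
    rw [Nat.card_eq_fintype_card, Fintype.card_option, Fintype.card_fin] at h2
    have h3 : Nat.card {q : Q // A q.2 x ∈ U q.1} ≤ d + 1 := hm x
    omega
  have hP' : ∀ x, ∃ k, P x k := fun x => let ⟨k, _, h⟩ := hP x; ⟨k, h⟩
  let kk : X → ℕ := fun x => Nat.find (hP' x)
  have hkP : ∀ x, P x (kk x) := fun x => Nat.find_spec (hP' x)
  have hkd : ∀ x, kk x ≤ d := by
    intro x
    obtain ⟨k, h1, h2⟩ := hP x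
    exact (Nat.find_min' (hP' x) h2).trans h1
  let S : X → Finset Q := fun x => Finset.univ.filter fun q => (kk x : ℝ) * τ < f q x
  have hS : ∀ x q, q ∈ S x ↔ (kk x : ℝ) * τ < f q x := by
    intro x q
    simp [S]
  have hS' : ∀ x q, q ∈ S x → ((kk x : ℝ) + 1) * τ ≤ f q x := by
    intro x q hq
    rcases hkP x q with h1 | h1
    · exact absurd ((hS x q).1 hq) (not_lt.2 h1)
    · exact h1
  have hSU : ∀ x q, q ∈ S x → A q.2 x ∈ U q.1 := by
    intro x q hq
    refine (hfpos q x).1 (lt_of_le_of_lt ?_ ((hS x q).1 hq))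
    positivity
  have hSne : ∀ x, (S x).Nonempty := by
    intro x
    obtain ⟨q, hq⟩ := hmax x
    refine ⟨q, (hS x q).2 (lt_of_lt_of_le ?_ hq)⟩
    rw [hμτ]
    have : (kk x : ℝ) ≤ d := by exact_mod_cast hkd x
    nlinarith
  have hScard : ∀ x, (S x).card ≤ d + 1 := by
    intro x
    refine le_trans ?_ (hm x)
    have h1 := Nat.card_le_card_of_injective
      (fun q : {q : Q // q ∈ S x} => (⟨q.1, hSU x q.1 q.2⟩ : {q : Q // A q.2 x ∈ U q.1}))
      (by
        rintro ⟨a, ha⟩ ⟨b, hb⟩ hab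
        simpa using hab)
    rw [Nat.card_eq_fintype_card, Fintype.card_coe] at h1
    exact h1
  -- equivariance
  have hfA : ∀ (i : Fin κ) (a : ZMod p) x, f (i, a) (A 1 x) = f (i, a + 1) x := by
    intro i a x
    show Metric.infDist (A a (A 1 x)) _ = Metric.infDist (A (a + 1) x) _
    rw [h.add]
  have hPA : ∀ x k, P (A 1 x) k ↔ P x k := by
    intro x k
    constructor
    · rintro h1 ⟨i, a⟩
      have := h1 (i, a - 1)
      rw [hfA, sub_add_cancel] at this
      exact this
    · rintro h1 ⟨i, a⟩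
      rw [hfA]
      exact h1 (i, a + 1)
  have hkA : ∀ x, kk (A 1 x) = kk x := by
    intro x
    refine le_antisymm (Nat.find_min' _ ?_) (Nat.find_min' _ ?_)
    · exact (hPA x _).2 (hkP x)
    · exact (hPA x _).1 (hkP (A 1 x))
  have hSA : ∀ x (i : Fin κ) (a : ZMod p), (i, a) ∈ S (A 1 x) ↔ (i, a + 1) ∈ S x := by
    intro x i a
    rw [hS, hS, hfA, hkA]
  have hcardA : ∀ x, (S (A 1 x)).card = (S x).card := by
    intro x
    refine Finset.card_bij (fun q _ => (q.1, q.2 + 1)) ?_ ?_ ?_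
    · rintro ⟨i, a⟩ hq
      exact (hSA x i a).1 hq
    · rintro ⟨i, a⟩ _ ⟨j, b⟩ _ hab
      have h1 := congrArg Prod.fst hab
      have h2 := congrArg Prod.snd hab
      simp only [add_left_inj] at h1 h2
      rw [h1, h2]
    · rintro ⟨i, a⟩ hq
      refine ⟨(i, a - 1), (hSA x i (a - 1)).2 (by rw [sub_add_cancel]; exact hq), ?_⟩
      simp
  -- labels
  let L : Finset Q → ZMod p → Prop := fun s c => ∃ i a, (i, a) ∈ s ∧
    (∀ j b, (j, b) ∈ s → i ≤ j) ∧ c = -a
  have hLex : ∀ x, ∃ c, L (S x) c := by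
    intro x
    obtain ⟨q, hq, hmin⟩ := Finset.exists_min_image (S x) (fun q => q.1) (hSne x)
    exact ⟨-q.2, q.1, q.2, hq, fun j b hjb => hmin (j, b) hjb, rfl⟩
  have hLun : ∀ x c c', L (S x) c → L (S x) c' → c = c' := by
    rintro x c c' ⟨i, a, h1, h2, rfl⟩ ⟨j, b, h3, h4, rfl⟩
    have hij : i = j := le_antisymm (h2 j b h3) (h4 i a h1)
    subst hij
    rw [hU3 x i a b (hSU x _ h1) (hSU x _ h3)]
  choose lab hlab using hLex
  -- continuity
  have hFu : UniformContinuous fun x => (fun q => f q x : Q → ℝ) :=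
    CompactSpace.uniformContinuous_of_continuous (continuous_pi fun q => hfc q)
  obtain ⟨ε, hε, hεF⟩ := Metric.uniformContinuous_iff.1 hFu (τ / 2) (by positivity)
  refine ⟨ε, fun x => (S x).card - 1, lab, hε, ?_, ?_, ?_, ?_⟩
  · intro x
    have h1 := hScard x
    have h2 := (hSne x).card_pos
    simp only
    omega
  · intro x
    simp only [hcardA]
  · intro x
    refine hLun (A 1 x) _ _ (hlab _) ?_
    obtain ⟨i, a, h1, h2, h3⟩ := hlab x
    refine ⟨i, a - 1, (hSA x i _).2 (by rw [sub_add_cancel]; exact h1), ?_, ?_⟩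
    · intro j b hjb
      exact h2 j (b + 1) ((hSA x j b).1 hjb)
    · rw [h3]
      ring
  · intro x y hxy hlev
    have hcard : (S x).card = (S y).card := by
      have h1 := (hSne x).card_pos
      have h2 := (hSne y).card_pos
      simp only at hlev
      omega
    have hd' : ∀ q, |f q x - f q y| < τ / 2 := by
      intro q
      have h1 := hεF hxy
      rw [dist_pi_lt_iff (by positivity)] at h1
      have h2 := h1 q
      rwa [Real.dist_eq] at h2
    have hSx : ∀ q, q ∈ S x ↔ ((kk x : ℝ) + 1 / 2) * τ < f q y := by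
      intro q
      have h1 := abs_lt.1 (hd' q)
      constructor
      · intro hq
        have := hS' x q hq
        nlinarith [h1.1, h1.2]
      · intro hq
        rcases hkP x q with h2 | h2
        · exfalso
          nlinarith [h1.1, h1.2]
        · refine (hS x q).2 (lt_of_lt_of_le ?_ h2)
          nlinarith
    have hSS : S x = S y := by
      rcases le_total (((kk x : ℝ) + 1 / 2) * τ) ((kk y : ℝ) * τ) with h1 | h1
      · refine (Finset.eq_of_subset_of_card_le ?_ hcard.le).symm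
        intro q hq
        exact (hSx q).2 (h1.trans_lt ((hS y q).1 hq))
      · refine Finset.eq_of_subset_of_card_le ?_ hcard.ge
        intro q hq
        exact (hS y q).2 (h1.trans_lt ((hSx q).1 hq))
    refine hLun y _ _ ?_ (hlab y)
    rw [← hSS]
    exact hlab x

/-- labels for free actions of `ZMod p` on spaces of dimension at most `d` -/
theorem exists_labels {p : ℕ} [Fact p.Prime] {X : Type} [MetricSpace X] [CompactSpace X]
    [Nonempty X] {A : ZMod p → X → X} (h : Act p X A) (hc : ∀ a, Continuous (A a))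
    (hf : ∀ a, a ≠ 0 → ∀ x, A a x ≠ x) {d : ℕ} (hd : CovDim X d) :
    ∃ (ε : ℝ) (lev : X → ℕ) (lab : X → ZMod p), 0 < ε ∧ (∀ x, lev x < d + 1) ∧
      (∀ x, lev (A 1 x) = lev x) ∧ (∀ x, lab (A 1 x) = lab x + 1) ∧
      ∀ x y, dist x y < ε → lev x = lev y → lab x = lab y := by
  obtain ⟨κ, U, hU, hm⟩ := exists_cover h hc hf hd
  exact labels_of_cover h hc hU hm

end Pool.Agent.H44.LI
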