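import Pool.Agent.H44.LI.Theta

/-!
# Free Lipschitz actions of `ZMod p` and short closed geodesics
-/

set_option autoImplicit false

open Set Topology

noncomputable section

namespace Pool.Agent.H44.LI

open Pool.Agent.Y489.GE Pool.Agent.Helper954.Hopf.Dold Pool.Agent.Helper954.Hopf.Dold.D1a

/-- Labels with `d + 1` levels on a space with a `lam`-Lipschitz action of `ZMod p`: there is a
periodic geodesic of length at most `p * lam ^ d * dist x (A 1 x)`. -/
theorem closed_of_labels {p : ℕ} [Fact p.Prime] {X : Type} [MetricSpace X] [CompactSpace X]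
    {A : ZMod p → X → X} (h : Act p X A) {r : ℝ} (hr : 0 < r) (hX : GeodSpace X)
    (hU : UniqGeod X r) {lam : ℝ} (hL : ∀ a x y, dist (A a x) (A a y) ≤ lam * dist x y)
    {d : ℕ} {ε : ℝ} (hε : 0 < ε) (lev : X → ℕ) (lab : X → ZMod p)
    (hlev : ∀ x, lev x < d + 1) (hlevT : ∀ x, lev (A 1 x) = lev x)
    (hlabT : ∀ x, lab (A 1 x) = lab x + 1)
    (hclose : ∀ x y, dist x y < ε → lev x = lev y → lab x = lab y) (x : X) :
    ClosedGeod X (p * lam ^ d * dist x (A 1 x)) := by
  by_contra hno
  obtain ⟨m, hm⟩ := Pool.Agent.Y467.GE.t_MG X r hr hX hU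
  -- the point is moved
  have hne : x ≠ A 1 x := by
    intro h1
    have h2 := hlabT x
    rw [← h1] at h2
    have h3 : (1 : ZMod p) = 0 := by
      have := congrArg (fun t => t - lab x) h2
      simpa using this.symm
    exact one_ne_zero h3
  have hD : 0 < dist x (A 1 x) := dist_pos.2 hne
  set D := dist x (A 1 x) with hDdef
  have hlam : 1 ≤ lam := by
    have := hL 0 x (A 1 x)
    rw [h.zero, h.zero, ← hDdef] at this
    nlinarith
  have hcA : ∀ a, Continuous (A a) := fun a =>
    (LipschitzWith.of_dist_le_mul (K := ⟨lam, by linarith⟩) fun x y => hL a x y).continuous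
  obtain ⟨c, hc0, hc1, hcd⟩ := hX x (A 1 x)
  rw [← hDdef] at hcd
  have hc : c 1 = A 1 (c 0) := by rw [hc0, hc1]
  -- the number of vertices
  have hmin : 0 < min (r / 2) ε := lt_min (by linarith) hε
  obtain ⟨M, hM⟩ := exists_nat_gt (lam ^ d * (lam * D) / min (r / 2) ε)
  have hlp : 0 < lam := by linarith
  have hM0 : (0 : ℝ) < M := lt_trans (by positivity) hM
  have hM1 : 0 < M := by exact_mod_cast hM0
  have hsmall : lam ^ d * (lam * (D / M)) < min (r / 2) ε := by
    rw [div_lt_iff₀ hmin] at hM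
    have : lam ^ d * (lam * (D / M)) = lam ^ d * (lam * D) / M := by ring
    rw [this, div_lt_iff₀ hM0]
    linarith
  have hp0 : 0 < p := (Fact.out : p.Prime).pos
  have : NeZero (M * p) := ⟨(Nat.mul_pos hM1 hp0).ne'⟩
  have hPol : ∀ k < d, PolC X (M * p) (lam ^ k * (lam * (D / M))) := by
    intro k hk
    have hkd : lam ^ k ≤ lam ^ d := pow_le_pow_right₀ hlam hk.le
    have hkd' : lam ^ (k + 1) ≤ lam ^ d := pow_le_pow_right₀ hlam hk
    refine Pool.Agent.Q186.CA.polC_of_no hm hno (M * p) (by positivity) ?_ ?_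
    · refine le_trans ?_ (hsmall.le.trans (min_le_left _ _))
      exact mul_le_mul_of_nonneg_right hkd (by positivity)
    · have e1 : ((M * p : ℕ) : ℝ) * (lam ^ k * (lam * (D / M))) = p * lam ^ (k + 1) * D := by
        push_cast
        field_simp
        ring
      rw [e1]
      refine mul_le_mul_of_nonneg_right (mul_le_mul_of_nonneg_left hkd' (by positivity)) hD.le
  obtain ⟨Φ, hΦ⟩ := Fam.exists h hcA hlam hL hc hcd hM1 d hPol
  obtain ⟨η, hη, hnear⟩ := Theta_near hΦ (by positivity) (hsmall.trans_le (min_le_right _ _))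
  exact no_map p (A 1) d ε lev lab hlev hlevT hlabT hclose (Theta Φ)
    (fun z hz => Theta_sh hΦ hz) η hη hnear

/-- Free `lam`-Lipschitz actions of `ZMod p` on spaces of dimension at most `d`. -/
theorem closed_of_free {p : ℕ} [Fact p.Prime] {X : Type} [MetricSpace X] [CompactSpace X]
    {A : ZMod p → X → X} (h : Act p X A) {r : ℝ} (hr : 0 < r) (hX : GeodSpace X)
    (hU : UniqGeod X r) {lam : ℝ} (hL : ∀ a x y, dist (A a x) (A a y) ≤ lam * dist x y)
    {d : ℕ} (hdim : CovDim X d) (hf : ∀ a, a ≠ 0 → ∀ x, A a x ≠ x) (x : X) :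
    ClosedGeod X (p * lam ^ d * dist x (A 1 x)) := by
  have : Nonempty X := ⟨x⟩
  have hlam : 0 ≤ lam := by
    by_contra hneg
    push Not at hneg
    have h1 := hL 0 x (A 1 x)
    have h2 : 0 < dist x (A 1 x) := dist_pos.2 (hf 1 one_ne_zero x).symm
    rw [h.zero, h.zero] at h1
    nlinarith
  have hcA : ∀ a, Continuous (A a) := fun a =>
    (LipschitzWith.of_dist_le_mul (K := ⟨lam, hlam⟩) fun x y => hL a x y).continuous
  obtain ⟨ε, lev, lab, hε, h1, h2, h3, h4⟩ := exists_labels h hcA hf hdim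
  exact closed_of_labels h hr hX hU hL hε lev lab h1 h2 h3 h4 x

end Pool.Agent.H44.LI
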