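import Pool.Agent.H44.LI.Inv
import Pool.Graph.R_pool_sql_team_39128cda.Lib.helper9_.BorsukUlam

/-!
# Marks on a space with an involution whose fixed point set is not connected
-/

set_option autoImplicit false

open Set Topology

noncomputable section

namespace Pool.Agent.H44.LI

open Pool.Agent.Y489.GE
open Pool.Agent.Lib.helper9.BorsukUlam (nu)

theorem exists_cover_small {p : ℕ} [NeZero p] {X : Type} [MetricSpace X] {A : ZMod p → X → X}
    [CompactSpace X] [Nonempty X] (h : Act p X A)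
    (hc : ∀ a, Continuous (A a)) (hf : ∀ a, a ≠ 0 → ∀ x, A a x ≠ x) {d : ℕ} (hd : CovDim X d)
    {ε₀ : ℝ} (hε₀ : 0 < ε₀) :
    ∃ (κ : ℕ) (U : Fin κ → Set X), EqF A U ∧ (∀ x, mult A U x ≤ d + 1) ∧
      ∀ i, ∀ x ∈ U i, ∀ y ∈ U i, dist x y < ε₀ := by
  classical
  -- the displacement
  obtain ⟨ρ, hρ, hdis, hρε⟩ : ∃ ρ : ℝ, 0 < ρ ∧ (∀ a, a ≠ 0 → ∀ x, 2 * ρ < dist x (A a x)) ∧
      2 * ρ ≤ ε₀ := by
    have h1 : ∀ a, ∃ ρ : ℝ, 0 < ρ ∧ (a ≠ 0 → ∀ x, 2 * ρ < dist x (A a x)) := by
      intro a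
      by_cases ha : a = 0
      · exact ⟨1, one_pos, fun h => absurd ha h⟩
      · have hcont : Continuous fun x => dist x (A a x) := continuous_id.dist (hc a)
        obtain ⟨x0, -, hx0⟩ := isCompact_univ.exists_isMinOn (univ_nonempty (α := X))
          hcont.continuousOn
        have hpos : 0 < dist x0 (A a x0) := dist_pos.2 (hf a ha x0).symm
        refine ⟨dist x0 (A a x0) / 4, by positivity, fun _ x => ?_⟩
        have : dist x0 (A a x0) ≤ dist x (A a x) := hx0 (mem_univ x)
        linarith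
    choose ρ h1 h2 using h1
    obtain ⟨a0, -, ha0⟩ := Finset.exists_min_image (Finset.univ : Finset (ZMod p)) ρ
      ⟨0, Finset.mem_univ _⟩
    refine ⟨min (ρ a0) (ε₀ / 2), lt_min (h1 a0) (by linarith),
      fun a ha x => lt_of_le_of_lt ?_ (h2 a ha x), ?_⟩
    · have := ha0 a (Finset.mem_univ a)
      have := min_le_left (ρ a0) (ε₀ / 2)
      linarith
    · have := min_le_right (ρ a0) (ε₀ / 2)
      linarith
  obtain ⟨t, -, ht, hcov⟩ := (isCompact_univ (X := X)).finite_cover_balls hρ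
  obtain ⟨κ, x, hx⟩ : ∃ (κ : ℕ) (x : Fin κ → X), ∀ y, ∃ i, dist y (x i) < ρ := by
    have := ht.fintype
    refine ⟨Fintype.card t, fun i => ((Fintype.equivFin t).symm i).1, fun y => ?_⟩
    obtain ⟨z, hz, hy⟩ := mem_iUnion₂.1 (hcov (mem_univ y))
    exact ⟨Fintype.equivFin t ⟨z, hz⟩, by simpa using hy⟩
  have hstep : ∀ s : Finset (Fin κ), ∃ U : Fin κ → Set X, EqF A U ∧
      (∀ i, U i ⊆ Metric.ball (x i) ρ) ∧
      ∀ j ∈ s, ∀ y ∈ Metric.closedBall (x j) ρ, mult A U y ≤ d + 1 := by
    intro s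
    induction s using Finset.induction_on with
    | empty =>
      refine ⟨fun i => Metric.ball (x i) ρ, ⟨fun i => Metric.isOpen_ball, fun y => ?_, ?_⟩,
        fun i => subset_rfl, fun j hj => absurd hj (Finset.notMem_empty j)⟩
      · obtain ⟨i, hi⟩ := hx y
        exact ⟨i, 0, by rw [h.zero]; exact hi⟩
      · intro y i a b ha hb
        by_contra hab
        have h1 := hdis (b - a) (fun h0 => hab (sub_eq_zero.1 h0).symm) (A a y)
        rw [← h.add, sub_add_cancel] at h1
        rw [Metric.mem_ball] at ha hb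
        have := dist_triangle_right (A a y) (A b y) (x i)
        linarith
    | insert j s hj ih =>
      obtain ⟨U, hU, hUs, hU2⟩ := ih
      obtain ⟨V, hV1, hV2, hV3⟩ := refine_one h hc hd hU (C := Metric.closedBall (x j) ρ)
        Metric.isClosed_closedBall (fun y a h1 h2 => by
          by_contra ha
          have h3 := hdis a ha y
          rw [Metric.mem_closedBall] at h1 h2
          have := dist_triangle_right y (A a y) (x j)
          linarith)
      refine ⟨V, hV1, fun i => (hV2 i).trans (hUs i), fun i hi y hy => ?_⟩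
      rcases Finset.mem_insert.1 hi with rfl | hi
      · exact hV3 y hy
      · exact (mult_mono hV2 y).trans (hU2 i hi y hy)
  obtain ⟨U, hU, hUs, hU2⟩ := hstep Finset.univ
  refine ⟨κ, U, hU, fun y => ?_, fun i y hy z hz => ?_⟩
  · obtain ⟨i, hi⟩ := hx y
    exact hU2 i (Finset.mem_univ i) y (Metric.mem_closedBall.2 hi.le)
  · have h1 := Metric.mem_ball.1 (hUs i hy)
    have h2 := Metric.mem_ball.1 (hUs i hz)
    have := dist_triangle_right y z (x i)
    linarith

theorem val_flip : ∀ t : ZMod 2, (t + 1).val = 1 - t.val := by decide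

theorem nu_two_mul (k b : ℕ) (hb : b < 2) : nu (2 * k + b) = 2 * k + (1 - b) := by
  unfold nu
  split_ifs <;> omega

/-- marks on the free part, the sets of the cover being of two types -/
theorem marks_free {Y : Type} [MetricSpace Y] [CompactSpace Y] [Nonempty Y]
    {A : ZMod 2 → Y → Y} (h : Act 2 Y A) (hc : ∀ a, Continuous (A a)) {n κ : ℕ} (hn : 1 ≤ n)
    {U : Fin κ → Set Y} (hU : EqF A U) (hm : ∀ x, mult A U x ≤ n + 1) (Bt : Fin κ → Prop) :
    ∃ (ε : ℝ) (cA cB : Y → Prop) (lb : Y → ℕ), 0 < ε ∧ (∀ x, cA (A 1 x) ↔ cA x) ∧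
      (∀ x, cB (A 1 x) ↔ cB x) ∧
      (∀ x, cA x → cB x → lb x < 2 * n ∧ lb (A 1 x) = nu (lb x)) ∧
      (∀ x y, dist x y < ε → cA x → cB x → cA y → cB y → lb x ≠ nu (lb y)) ∧
      (∀ x, cA x → ∃ i a, ¬ Bt i ∧ A a x ∈ U i) ∧ (∀ x, cB x → ∃ i a, Bt i ∧ A a x ∈ U i) ∧
      ∀ x y, dist x y < ε → ¬ cA x → cB y := by
  classical
  have h2F : Fact (Nat.Prime 2) := ⟨Nat.prime_two⟩
  obtain ⟨hU1, hU2, hU3⟩ := hU
  let Q := Fin κ × ZMod 2
  let f : Q → Y → ℝ := fun q x => Metric.infDist (A q.2 x) (U q.1)ᶜ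
  have hfc : ∀ q, Continuous (f q) := fun q => (Metric.continuous_infDist_pt _).comp (hc q.2)
  have hne : ∀ i, (U i)ᶜ.Nonempty := by
    intro i
    by_contra hcon
    rw [not_nonempty_iff_eq_empty, compl_empty_iff] at hcon
    let x0 := Classical.arbitrary Y
    have := hU3 x0 i 0 1 (by rw [hcon]; trivial) (by rw [hcon]; trivial)
    exact zero_ne_one this
  have hfpos : ∀ q x, 0 < f q x ↔ A q.2 x ∈ U q.1 := by
    intro q x
    rw [← (hU1 q.1).isClosed_compl.notMem_iff_infDist_pos (hne q.1)]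
    simp
  have hf0 : ∀ q x, 0 ≤ f q x := fun q x => Metric.infDist_nonneg
  -- the largest value
  obtain ⟨μ, hμ, hmax⟩ : ∃ μ : ℝ, 0 < μ ∧ ∀ x, ∃ q, μ ≤ f q x := by
    have hsc : Continuous fun x => ∑ q, f q x := continuous_finsetSum _ fun q _ => hfc q
    obtain ⟨x0, -, hx0⟩ := isCompact_univ.exists_isMinOn (univ_nonempty (α := Y)) hsc.continuousOn
    have hpos : 0 < ∑ q, f q x0 := by
      obtain ⟨i, a, hia⟩ := hU2 x0
      exact Finset.sum_pos' (fun q _ => hf0 q x0) ⟨(i, a), Finset.mem_univ _, (hfpos _ _).2 hia⟩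
    set m0 := ∑ q, f q x0 with hm0
    refine ⟨m0 / (Fintype.card Q + 1), by positivity, fun x => ?_⟩
    by_contra hcon
    push Not at hcon
    have h1 : m0 ≤ ∑ q, f q x := hx0 (mem_univ x)
    have h2 : ∑ q, f q x ≤ ∑ _q : Q, m0 / (Fintype.card Q + 1) :=
      Finset.sum_le_sum fun q _ => (hcon q).le
    rw [Finset.sum_const, Finset.card_univ, nsmul_eq_mul] at h2
    have h3 : (Fintype.card Q : ℝ) * (m0 / (Fintype.card Q + 1)) < m0 := by
      rw [mul_div_assoc', div_lt_iff₀ (by positivity)]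
      nlinarith
    linarith
  set θ : ℝ := μ / 2 with hθ
  have hθ0 : 0 < θ := by positivity
  have hn0 : (0 : ℝ) < n := by exact_mod_cast hn
  set τ : ℝ := θ / n with hτ
  have hτ0 : 0 < τ := by positivity
  have hθτ : θ = n * τ := by
    rw [hτ]
    field_simp
  let cA : Y → Prop := fun x => ∃ q : Q, ¬ Bt q.1 ∧ θ ≤ f q x
  let cB : Y → Prop := fun x => ∃ q : Q, Bt q.1 ∧ θ ≤ f q x
  let P : Y → ℕ → Prop := fun x k => ∀ q, f q x ≤ k * τ ∨ ((k : ℝ) + 1) * τ ≤ f q x
  have hP : ∀ x, cA x → cB x → ∃ k, k < n ∧ P x k := by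
    intro x hA hB
    by_contra hcon
    push Not at hcon
    have h1 : ∀ k : Fin n, ∃ q, (k : ℝ) * τ < f q x ∧ f q x < ((k : ℝ) + 1) * τ := by
      intro k
      have := hcon k k.2
      simp only [P, not_forall, not_or, not_le] at this
      obtain ⟨q, hq⟩ := this
      exact ⟨q, hq⟩
    choose qk hqk1 hqk2 using h1
    obtain ⟨qA, hqA1, hqA2⟩ := hA
    obtain ⟨qB, hqB1, hqB2⟩ := hB
    have hk0 : ∀ k : Fin n, (0 : ℝ) ≤ (k : ℝ) * τ := fun k => by positivity
    let g : Option (Option (Fin n)) → {q : Q // A q.2 x ∈ U q.1} := fun o =>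
      match o with
      | none => ⟨qA, (hfpos _ _).1 (hθ0.trans_le hqA2)⟩
      | some none => ⟨qB, (hfpos _ _).1 (hθ0.trans_le hqB2)⟩
      | some (some k) => ⟨qk k, (hfpos _ _).1 ((hk0 k).trans_lt (hqk1 k))⟩
    have hval : ∀ k : Fin n, f (qk k) x < θ := by
      intro k
      refine (hqk2 k).trans_le ?_
      rw [hθτ]
      have : ((k : ℕ) : ℝ) + 1 ≤ n := by exact_mod_cast k.2
      nlinarith
    have hAB : qA ≠ qB := fun e => hqA1 (by rw [e]; exact hqB1)
    have hinj : Function.Injective g := by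
      intro o o' hoo
      have hoo' := congrArg (fun z : {q : Q // A q.2 x ∈ U q.1} => z.1) hoo
      rcases o with _ | _ | k <;> rcases o' with _ | _ | k'
      · rfl
      · exact absurd hoo' hAB
      · exfalso
        have e : qA = qk k' := hoo'
        have := hval k'
        rw [← e] at this
        linarith
      · exact absurd hoo'.symm hAB
      · rfl
      · exfalso
        have e : qB = qk k' := hoo'
        have := hval k'
        rw [← e] at this
        linarith
      · exfalso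
        have e : qk k = qA := hoo'
        have := hval k
        rw [e] at this
        linarith
      · exfalso
        have e : qk k = qB := hoo'
        have := hval k
        rw [e] at this
        linarith
      · have e : qk k = qk k' := hoo'
        have a1 := hqk1 k
        have a2 := hqk2 k
        have b1 := hqk1 k'
        have b2 := hqk2 k'
        rw [e] at a1 a2
        have c1 : ((k : ℕ) : ℝ) < (k' : ℕ) + 1 := by
          by_contra hcc
          push Not at hcc
          nlinarith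
        have c2 : ((k' : ℕ) : ℝ) < (k : ℕ) + 1 := by
          by_contra hcc
          push Not at hcc
          nlinarith
        have d1 : (k : ℕ) < (k' : ℕ) + 1 := by exact_mod_cast c1
        have d2 : (k' : ℕ) < (k : ℕ) + 1 := by exact_mod_cast c2
        congr 2
        apply Fin.ext
        omega
    have h2 := Nat.card_le_card_of_injective g hinj
    rw [Nat.card_eq_fintype_card, Fintype.card_option, Fintype.card_option, Fintype.card_fin] at h2
    have h3 : Nat.card {q : Q // A q.2 x ∈ U q.1} ≤ n + 1 := hm x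
    omega
  let kk : Y → ℕ := fun x => sInf {k | P x k}
  have hkP : ∀ x, cA x → cB x → P x (kk x) := fun x hA hB => by
    obtain ⟨k, -, hk⟩ := hP x hA hB
    exact Nat.sInf_mem (s := {k | P x k}) ⟨k, hk⟩
  have hkn : ∀ x, cA x → cB x → kk x < n := fun x hA hB => by
    obtain ⟨k, h1, h2⟩ := hP x hA hB
    exact lt_of_le_of_lt (Nat.sInf_le (s := {k | P x k}) h2) h1
  let S : Y → Finset Q := fun x => Finset.univ.filter fun q => (kk x : ℝ) * τ < f q x
  have hS : ∀ x q, q ∈ S x ↔ (kk x : ℝ) * τ < f q x := by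
    intro x q
    simp [S]
  have hS' : ∀ x, cA x → cB x → ∀ q, q ∈ S x → ((kk x : ℝ) + 1) * τ ≤ f q x := by
    intro x hA hB q hq
    rcases hkP x hA hB q with h1 | h1
    · exact absurd ((hS x q).1 hq) (not_lt.2 h1)
    · exact h1
  have hSU : ∀ x q, q ∈ S x → A q.2 x ∈ U q.1 := by
    intro x q hq
    refine (hfpos q x).1 (lt_of_le_of_lt ?_ ((hS x q).1 hq))
    positivity
  have hSbig : ∀ x, cA x → cB x → ∀ q, θ ≤ f q x → q ∈ S x := by
    intro x hA hB q hq
    refine (hS x q).2 (lt_of_lt_of_le ?_ hq)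
    rw [hθτ]
    have : (kk x : ℝ) + 1 ≤ n := by exact_mod_cast hkn x hA hB
    nlinarith
  have hS2 : ∀ x, cA x → cB x → 2 ≤ (S x).card := by
    intro x hA hB
    obtain ⟨qA, hqA1, hqA2⟩ := id hA
    obtain ⟨qB, hqB1, hqB2⟩ := id hB
    have h1 : ({qA, qB} : Finset Q) ⊆ S x := by
      intro q hq
      rcases Finset.mem_insert.1 hq with rfl | hq
      · exact hSbig x hA hB _ hqA2
      · rw [Finset.mem_singleton] at hq
        subst hq
        exact hSbig x hA hB _ hqB2
    have h2 : ({qA, qB} : Finset Q).card = 2 :=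
      Finset.card_pair fun e => hqA1 (by rw [e]; exact hqB1)
    rw [← h2]
    exact Finset.card_le_card h1
  have hScard : ∀ x, (S x).card ≤ n + 1 := by
    intro x
    refine le_trans ?_ (hm x)
    have h1 := Nat.card_le_card_of_injective
      (fun q : {q : Q // q ∈ S x} => (⟨q.1, hSU x q.1 q.2⟩ : {q : Q // A q.2 x ∈ U q.1}))
      (by
        rintro ⟨a, ha⟩ ⟨b, hb⟩ hab
        simpa using hab)
    rw [Nat.card_eq_fintype_card, Fintype.card_coe] at h1
    exact h1
  -- equivariance
  have hfA : ∀ (i : Fin κ) (a : ZMod 2) x, f (i, a) (A 1 x) = f (i, a + 1) x := by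
    intro i a x
    show Metric.infDist (A a (A 1 x)) _ = Metric.infDist (A (a + 1) x) _
    rw [h.add]
  have hPA : ∀ x k, P (A 1 x) k ↔ P x k := by
    intro x k
    constructor
    · rintro h1 ⟨i, a⟩
      have := h1 (i, a - 1)
      rw [hfA, sub_add_cancel] at this
      exact this
    · rintro h1 ⟨i, a⟩
      rw [hfA]
      exact h1 (i, a + 1)
  have hcAA : ∀ x, cA (A 1 x) ↔ cA x := by
    intro x
    constructor
    · rintro ⟨⟨i, a⟩, h1, h2⟩
      rw [hfA] at h2
      exact ⟨(i, a + 1), h1, h2⟩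
    · rintro ⟨⟨i, a⟩, h1, h2⟩
      refine ⟨(i, a - 1), h1, ?_⟩
      rw [hfA, sub_add_cancel]
      exact h2
  have hcBA : ∀ x, cB (A 1 x) ↔ cB x := by
    intro x
    constructor
    · rintro ⟨⟨i, a⟩, h1, h2⟩
      rw [hfA] at h2
      exact ⟨(i, a + 1), h1, h2⟩
    · rintro ⟨⟨i, a⟩, h1, h2⟩
      refine ⟨(i, a - 1), h1, ?_⟩
      rw [hfA, sub_add_cancel]
      exact h2
  have hkA : ∀ x, kk (A 1 x) = kk x := by
    intro x
    show sInf {k | P (A 1 x) k} = sInf {k | P x k}
    congr 1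
    ext k
    exact hPA x k
  have hSA : ∀ x (i : Fin κ) (a : ZMod 2), (i, a) ∈ S (A 1 x) ↔ (i, a + 1) ∈ S x := by
    intro x i a
    rw [hS, hS, hfA, hkA]
  have hcardA : ∀ x, (S (A 1 x)).card = (S x).card := by
    intro x
    refine Finset.card_bij (fun q _ => (q.1, q.2 + 1)) ?_ ?_ ?_
    · rintro ⟨i, a⟩ hq
      exact (hSA x i a).1 hq
    · rintro ⟨i, a⟩ _ ⟨j, b⟩ _ hab
      have h1 := congrArg Prod.fst hab
      have h2 := congrArg Prod.snd hab
      simp only [add_left_inj] at h1 h2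
      rw [h1, h2]
    · rintro ⟨i, a⟩ hq
      refine ⟨(i, a - 1), (hSA x i (a - 1)).2 (by rw [sub_add_cancel]; exact hq), ?_⟩
      simp
  -- labels
  let L : Finset Q → ZMod 2 → Prop := fun s c => ∃ i a, (i, a) ∈ s ∧
    (∀ j b, (j, b) ∈ s → i ≤ j) ∧ c = -a
  have hLex : ∀ x, ∃ c, (S x).Nonempty → L (S x) c := by
    intro x
    by_cases hx : (S x).Nonempty
    · obtain ⟨q, hq, hmin⟩ := Finset.exists_min_image (S x) (fun q => q.1) hx
      exact ⟨-q.2, fun _ => ⟨q.1, q.2, hq, fun j b hjb => hmin (j, b) hjb, rfl⟩⟩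
    · exact ⟨0, fun h1 => absurd h1 hx⟩
  have hLun : ∀ x c c', L (S x) c → L (S x) c' → c = c' := by
    rintro x c c' ⟨i, a, h1, h2, rfl⟩ ⟨j, b, h3, h4, rfl⟩
    have hij : i = j := le_antisymm (h2 j b h3) (h4 i a h1)
    subst hij
    rw [hU3 x i a b (hSU x _ h1) (hSU x _ h3)]
  choose lab hlab using hLex
  have hSne : ∀ x, cA x → cB x → (S x).Nonempty := fun x hA hB =>
    Finset.card_pos.1 (by have := hS2 x hA hB; omega)
  have hlabA : ∀ x, cA x → cB x → lab (A 1 x) = lab x + 1 := by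
    intro x hA hB
    refine hLun (A 1 x) _ _ (hlab _ (hSne _ ((hcAA x).2 hA) ((hcBA x).2 hB))) ?_
    obtain ⟨i, a, h1, h2, h3⟩ := hlab x (hSne x hA hB)
    refine ⟨i, a - 1, (hSA x i _).2 (by rw [sub_add_cancel]; exact h1), ?_, ?_⟩
    · intro j b hjb
      exact h2 j (b + 1) ((hSA x j b).1 hjb)
    · rw [h3]
      ring
  -- continuity
  have hFu : UniformContinuous fun x => (fun q => f q x : Q → ℝ) :=
    CompactSpace.uniformContinuous_of_continuous (continuous_pi fun q => hfc q)
  obtain ⟨ε, hε, hεF⟩ := Metric.uniformContinuous_iff.1 hFu (min (τ / 2) (μ / 2)) (by positivity)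
  have hd' : ∀ x y, dist x y < ε → ∀ q, |f q x - f q y| < min (τ / 2) (μ / 2) := by
    intro x y hxy q
    have h1 := hεF hxy
    rw [dist_pi_lt_iff (by positivity)] at h1
    have h2 := h1 q
    rwa [Real.dist_eq] at h2
  let lb : Y → ℕ := fun x => 2 * ((S x).card - 2) + (lab x).val
  have hv : ∀ t : ZMod 2, t.val < 2 := fun t => ZMod.val_lt t
  refine ⟨ε, cA, cB, lb, hε, hcAA, hcBA, ?_, ?_, ?_, ?_, ?_⟩
  · intro x hA hB
    have h1 := hS2 x hA hB
    have h2 := hScard x
    have h3 := hv (lab x)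
    refine ⟨by simp only [lb]; omega, ?_⟩
    show 2 * ((S (A 1 x)).card - 2) + (lab (A 1 x)).val = nu (2 * ((S x).card - 2) + (lab x).val)
    rw [nu_two_mul _ _ h3, hcardA, hlabA x hA hB]
    congr 1
    exact val_flip _
  · intro x y hxy hA hB hA' hB' he
    have h3 := hv (lab x)
    have h4 := hv (lab y)
    have he' : 2 * ((S x).card - 2) + (lab x).val = nu (2 * ((S y).card - 2) + (lab y).val) := he
    rw [nu_two_mul _ _ h4] at he'
    have h5 := hS2 x hA hB
    have h6 := hS2 y hA' hB'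
    have hcard : (S x).card = (S y).card := by omega
    have hd1 : ∀ q, |f q x - f q y| < τ / 2 := fun q =>
      (hd' x y hxy q).trans_le (min_le_left _ _)
    have hSx : ∀ q, q ∈ S x ↔ ((kk x : ℝ) + 1 / 2) * τ < f q y := by
      intro q
      have h1 := abs_lt.1 (hd1 q)
      constructor
      · intro hq
        have := hS' x hA hB q hq
        nlinarith [h1.1, h1.2]
      · intro hq
        rcases hkP x hA hB q with h2 | h2
        · exfalso
          nlinarith [h1.1, h1.2]
        · refine (hS x q).2 (lt_of_lt_of_le ?_ h2)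
          nlinarith
    have hSS : S x = S y := by
      rcases le_total (((kk x : ℝ) + 1 / 2) * τ) ((kk y : ℝ) * τ) with h1 | h1
      · refine (Finset.eq_of_subset_of_card_le ?_ hcard.le).symm
        intro q hq
        exact (hSx q).2 (h1.trans_lt ((hS y q).1 hq))
      · refine Finset.eq_of_subset_of_card_le ?_ hcard.ge
        intro q hq
        exact (hS y q).2 (h1.trans_lt ((hSx q).1 hq))
    have hll : lab x = lab y := by
      refine hLun y _ _ ?_ (hlab y (hSne y hA' hB'))
      rw [← hSS]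
      exact hlab x (hSne x hA hB)
    rw [hll] at he'
    omega
  · rintro x ⟨⟨i, a⟩, h1, h2⟩
    exact ⟨i, a, h1, (hfpos _ _).1 (hθ0.trans_le h2)⟩
  · rintro x ⟨⟨i, a⟩, h1, h2⟩
    exact ⟨i, a, h1, (hfpos _ _).1 (hθ0.trans_le h2)⟩
  · intro x y hxy hA
    obtain ⟨q, hq⟩ := hmax x
    refine ⟨q, ?_, ?_⟩
    · by_contra h1
      exact hA ⟨q, h1, by linarith⟩
    · have h1 := abs_lt.1 ((hd' x y hxy q).trans_le (min_le_right _ _))
      linarith [h1.2]

theorem zmod2_cases : ∀ a : ZMod 2, a = 0 ∨ a = 1 := by decide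

theorem covDim_subtype {X : Type} [MetricSpace X] {d : ℕ} (h : CovDim X d) (M : Set X) :
    CovDim ↥M d := by
  intro ε hε
  obtain ⟨N, U, h1, h2, h3, h4⟩ := h ε hε
  refine ⟨N, fun i => Subtype.val ⁻¹' U i, fun i => (h1 i).preimage continuous_subtype_val,
    fun i x hx y hy => h2 i x.1 hx y.1 hy, fun x => h3 x.1, fun x => h4 x.1⟩

/-- The marks: `none` near to `B`, numbers elsewhere. -/
theorem exists_marks {X : Type} [MetricSpace X] [CompactSpace X] {σ : X → X}
    (hσc : Continuous σ) (hσ : ∀ x, σ (σ x) = x) {A B : Set X} (hA : IsClosed A)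
    (hB : IsClosed B) (hAB : Disjoint A B) (hF : A ∪ B = {x | σ x = x}) (hAn : A.Nonempty)
    (hBn : B.Nonempty) {n : ℕ} (hn : 1 ≤ n) (hdim : CovDim X n) :
    ∃ (ε : ℝ) (L : X → Option ℕ), 0 < ε ∧ (∀ x, L (σ x) = none ↔ L x = none) ∧
      (∀ x z a, dist x z < ε → L z = none → L x = some a → a < 2 * n ∧ L (σ x) = some (nu a)) ∧
      (∀ x y z a b, dist x y < ε → dist x z < ε → dist y z < ε → L z = none → L x = some a →
        L y = some b → a ≠ nu b) ∧ (∀ x ∈ A, L x ≠ none) ∧ ∀ x ∈ B, L x = none := by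
  classical
  have h2F : Fact (Nat.Prime 2) := ⟨Nat.prime_two⟩
  have hσA : ∀ x ∈ A, σ x = x := fun x hx => (hF ▸ mem_union_left B hx : x ∈ {x | σ x = x})
  have hσB : ∀ x ∈ B, σ x = x := fun x hx => (hF ▸ mem_union_right A hx : x ∈ {x | σ x = x})
  let dA : X → ℝ := fun x => Metric.infDist x A + Metric.infDist (σ x) A
  let dB : X → ℝ := fun x => Metric.infDist x B + Metric.infDist (σ x) B
  have hdAc : Continuous dA := (Metric.continuous_infDist_pt A).add
    ((Metric.continuous_infDist_pt A).comp hσc)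
  have hdBc : Continuous dB := (Metric.continuous_infDist_pt B).add
    ((Metric.continuous_infDist_pt B).comp hσc)
  have hdAσ : ∀ x, dA (σ x) = dA x := fun x => by
    show Metric.infDist (σ x) A + Metric.infDist (σ (σ x)) A = _
    rw [hσ, add_comm]
  have hdBσ : ∀ x, dB (σ x) = dB x := fun x => by
    show Metric.infDist (σ x) B + Metric.infDist (σ (σ x)) B = _
    rw [hσ, add_comm]
  have hdA0 : ∀ x, 0 ≤ dA x := fun x => add_nonneg Metric.infDist_nonneg Metric.infDist_nonneg
  have hdB0 : ∀ x, 0 ≤ dB x := fun x => add_nonneg Metric.infDist_nonneg Metric.infDist_nonneg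
  have hdAA : ∀ x ∈ A, dA x = 0 := fun x hx => by
    show Metric.infDist x A + Metric.infDist (σ x) A = 0
    rw [hσA x hx, Metric.infDist_zero_of_mem hx, add_zero]
  have hdBB : ∀ x ∈ B, dB x = 0 := fun x hx => by
    show Metric.infDist x B + Metric.infDist (σ x) B = 0
    rw [hσB x hx, Metric.infDist_zero_of_mem hx, add_zero]
  have hdA1 : ∀ x, dA x = 0 → x ∈ A := fun x hx => by
    have h1 : Metric.infDist x A = 0 := by
      have h2 : Metric.infDist x A + Metric.infDist (σ x) A = 0 := hx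
      have h3 : 0 ≤ Metric.infDist x A := Metric.infDist_nonneg
      have h4 : 0 ≤ Metric.infDist (σ x) A := Metric.infDist_nonneg
      linarith
    exact (hA.mem_iff_infDist_zero hAn).2 h1
  have hdB1 : ∀ x, dB x = 0 → x ∈ B := fun x hx => by
    have h1 : Metric.infDist x B = 0 := by
      have h2 : Metric.infDist x B + Metric.infDist (σ x) B = 0 := hx
      have h3 : 0 ≤ Metric.infDist x B := Metric.infDist_nonneg
      have h4 : 0 ≤ Metric.infDist (σ x) B := Metric.infDist_nonneg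
      linarith
    exact (hB.mem_iff_infDist_zero hBn).2 h1
  -- the scale
  obtain ⟨ρ, hρ, hsum⟩ : ∃ ρ : ℝ, 0 < ρ ∧ ∀ x, 8 * ρ ≤ dA x + dB x := by
    obtain ⟨a, ha⟩ := hAn
    obtain ⟨x0, -, hx0⟩ := isCompact_univ.exists_isMinOn ⟨a, mem_univ a⟩
      (hdAc.add hdBc).continuousOn
    have hpos : 0 < dA x0 + dB x0 := by
      rcases (add_nonneg (hdA0 x0) (hdB0 x0)).eq_or_lt with h1 | h1
      · exfalso
        have h2 : dA x0 = 0 := by linarith [hdA0 x0, hdB0 x0]
        have h3 : dB x0 = 0 := by linarith [hdA0 x0, hdB0 x0]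
        exact disjoint_left.1 hAB (hdA1 x0 h2) (hdB1 x0 h3)
      · exact h1
    refine ⟨(dA x0 + dB x0) / 8, by positivity, fun x => ?_⟩
    have : dA x0 + dB x0 ≤ dA x + dB x := hx0 (mem_univ x)
    linarith
  obtain ⟨εd, hεd, hdu⟩ : ∃ εd : ℝ, 0 < εd ∧ ∀ x y, dist x y < εd →
      |dA x - dA y| < ρ ∧ |dB x - dB y| < ρ := by
    obtain ⟨e1, he1, h1⟩ := Metric.uniformContinuous_iff.1
      (CompactSpace.uniformContinuous_of_continuous hdAc) ρ hρ
    obtain ⟨e2, he2, h2⟩ := Metric.uniformContinuous_iff.1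
      (CompactSpace.uniformContinuous_of_continuous hdBc) ρ hρ
    refine ⟨min e1 e2, lt_min he1 he2, fun x y hxy => ⟨?_, ?_⟩⟩
    · have := h1 (hxy.trans_le (min_le_left _ _))
      rwa [Real.dist_eq] at this
    · have := h2 (hxy.trans_le (min_le_right _ _))
      rwa [Real.dist_eq] at this
  -- the free part
  let M : Set X := {x | ρ ≤ dA x ∧ ρ ≤ dB x}
  have hMc : IsClosed M := (isClosed_le continuous_const hdAc).inter
    (isClosed_le continuous_const hdBc)
  have hMσ : ∀ x, σ x ∈ M ↔ x ∈ M := fun x => by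
    show (ρ ≤ dA (σ x) ∧ ρ ≤ dB (σ x)) ↔ _
    rw [hdAσ, hdBσ]
    rfl
  have hMcomp : CompactSpace ↥M := isCompact_iff_compactSpace.1 hMc.isCompact
  have hout : ∀ x, x ∉ M → dA x < ρ ∨ dB x < ρ := fun x hx => by
    by_contra hcon
    push Not at hcon
    exact hx hcon
  rcases isEmpty_or_nonempty ↥M with hemp | hne
  · -- no free part
    have hall : ∀ x, dA x < ρ ∨ dB x < ρ := fun x => hout x fun hx => hemp.false ⟨x, hx⟩
    let L : X → Option ℕ := fun x => if dB x < ρ then none else some 0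
    have hL : ∀ x, L x = none ↔ dB x < ρ := fun x => by
      simp only [L]
      split_ifs with h1 <;> simp [h1]
    have key : ∀ x z, dist x z < εd → L z = none → L x = none := by
      intro x z hxz hz
      rw [hL] at hz ⊢
      have h1 := (hdu x z hxz).2
      have h2 := hsum x
      rw [abs_lt] at h1
      rcases hall x with h3 | h3
      · linarith
      · exact h3
    refine ⟨εd, L, hεd, fun x => ?_, fun x z a hxz hz hx => ?_, fun x y z a b _ hxz _ hz hx => ?_,
      fun x hx => ?_, fun x hx => ?_⟩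
    · rw [hL, hL, hdBσ]
    · rw [key x z hxz hz] at hx
      exact absurd hx (by simp)
    · rw [key x z hxz hz] at hx
      exact absurd hx (by simp)
    · rw [ne_eq, hL]
      have h1 := hsum x
      rw [hdAA x hx] at h1
      linarith
    · rw [hL, hdBB x hx]
      exact hρ
  · -- the action on the free part
    let A2 : ZMod 2 → X → X := fun a x => σ^[a.val] x
    have hA2 : Act 2 X A2 := act_of_iterate (fun x => hσ x)
    have hA21 : ∀ x, A2 1 x = σ x := fun x => act_one σ x
    have hcase : ∀ a : ZMod 2, a = 0 ∨ a = 1 := zmod2_cases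
    have hA2M : ∀ a x, x ∈ M → A2 a x ∈ M := by
      intro a x hx
      rcases hcase a with rfl | rfl
      · rw [hA2.zero]
        exact hx
      · rw [hA21]
        exact (hMσ x).2 hx
    have hA2c : ∀ a, Continuous (A2 a) := fun a => hσc.iterate a.val
    let AM : ZMod 2 → ↥M → ↥M := fun a x => ⟨A2 a x.1, hA2M a x.1 x.2⟩
    have hAM : Act 2 ↥M AM := ⟨fun x => Subtype.ext (hA2.zero x.1),
      fun a b x => Subtype.ext (hA2.add a b x.1)⟩
    have hAMc : ∀ a, Continuous (AM a) := fun a =>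
      ((hA2c a).comp continuous_subtype_val).subtype_mk _
    have hfree : ∀ a, a ≠ 0 → ∀ x : ↥M, AM a x ≠ x := by
      intro a ha x hx
      rcases hcase a with rfl | rfl
      · exact ha rfl
      · have h1 : σ x.1 = x.1 := by
          rw [← hA21]
          exact congrArg Subtype.val hx
        have h2 : x.1 ∈ A ∪ B := by
          rw [hF]
          exact h1
        rcases h2 with h2 | h2
        · have h3 := x.2.1
          rw [hdAA _ h2] at h3
          linarith
        · have h3 := x.2.2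
          rw [hdBB _ h2] at h3
          linarith
    obtain ⟨κ, U, hU, hm, hsmall⟩ := exists_cover_small hAM hAMc hfree (covDim_subtype hdim M) hεd
    let Bt : Fin κ → Prop := fun i => ∃ x ∈ U i, dB x.1 < 2 * ρ
    obtain ⟨ε, cA, cB, lb, hε, h1, h2, h3, h4, h5, h6, h7⟩ := marks_free hAM hAMc hn hU hm Bt
    have hdBA2 : ∀ (a : ZMod 2) x, dB (A2 a x) = dB x := fun a x => by
      rcases hcase a with rfl | rfl
      · rw [hA2.zero]
      · rw [hA21, hdBσ]
    have hdAA2 : ∀ (a : ZMod 2) x, dA (A2 a x) = dA x := fun a x => by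
      rcases hcase a with rfl | rfl
      · rw [hA2.zero]
      · rw [hA21, hdAσ]
    -- the position of the sets
    have hposB : ∀ i, Bt i → ∀ (a : ZMod 2) (x : ↥M), AM a x ∈ U i → 2 * ρ < dA x.1 := by
      rintro i ⟨y, hy, hy'⟩ a x hx
      have e1 := (hdu _ _ (hsmall i _ hx y hy)).2
      have e2 : dB (AM a x).1 = dB x.1 := hdBA2 a x.1
      rw [e2, abs_lt] at e1
      have e3 := hsum x.1
      linarith
    have hposA : ∀ i, ¬ Bt i → ∀ (a : ZMod 2) (x : ↥M), AM a x ∈ U i → 2 * ρ ≤ dB x.1 := by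
      intro i hi a x hx
      by_contra hcon
      push Not at hcon
      refine hi ⟨AM a x, hx, ?_⟩
      have e2 : dB (AM a x).1 = dB x.1 := hdBA2 a x.1
      rw [e2]
      exact hcon
    let L : X → Option ℕ := fun x =>
      if hx : x ∈ M then
        (if cA ⟨x, hx⟩ then (if cB ⟨x, hx⟩ then some (lb ⟨x, hx⟩) else some 0) else none)
      else (if dB x < ρ then none else some 0)
    have hLM : ∀ x (hx : x ∈ M), L x = if cA ⟨x, hx⟩ then
        (if cB ⟨x, hx⟩ then some (lb ⟨x, hx⟩) else some 0) else none := fun x hx => dif_pos hx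
    have hLO : ∀ x, x ∉ M → L x = if dB x < ρ then none else some 0 := fun x hx => dif_neg hx
    have hLMn : ∀ x (hx : x ∈ M), L x = none ↔ ¬ cA ⟨x, hx⟩ := by
      intro x hx
      rw [hLM x hx]
      split_ifs with e1 e2 <;> simp [e1]
    have hLOn : ∀ x, x ∉ M → (L x = none ↔ dB x < ρ) := by
      intro x hx
      rw [hLO x hx]
      split_ifs with e1 <;> simp [e1]
    -- points near to a point marked `none`
    have hnear : ∀ x z, dist x z < min ε εd → L z = none → L x ≠ none →
        ∃ hx : x ∈ M, cA ⟨x, hx⟩ ∧ cB ⟨x, hx⟩ := by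
      intro x z hxz hz hx
      have hxz1 : dist x z < ε := hxz.trans_le (min_le_left _ _)
      have hd := hdu x z (hxz.trans_le (min_le_right _ _))
      have hdA' := abs_lt.1 hd.1
      have hdB' := abs_lt.1 hd.2
      have hsx := hsum x
      by_cases hzM : z ∈ M
      · have hz1 := (hLMn z hzM).1 hz
        have hz2 : cB ⟨z, hzM⟩ := h7 ⟨z, hzM⟩ ⟨z, hzM⟩ (by rw [dist_self]; exact hε) hz1
        obtain ⟨i, a, hi, hia⟩ := h6 _ hz2
        have hz3 := hposB i hi a _ hia
        by_cases hxM : x ∈ M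
        · refine ⟨hxM, ?_, ?_⟩
          · by_contra hcon
            exact hx ((hLMn x hxM).2 hcon)
          · refine h7 ⟨z, hzM⟩ ⟨x, hxM⟩ ?_ hz1
            rw [dist_comm]
            exact hxz1
        · exfalso
          rcases hout x hxM with e1 | e1
          · simp only at hz3
            linarith
          · exact hx ((hLOn x hxM).2 e1)
      · have hz1 := (hLOn z hzM).1 hz
        by_cases hxM : x ∈ M
        · exfalso
          have hx1 : cA ⟨x, hxM⟩ := by
            by_contra hcon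
            exact hx ((hLMn x hxM).2 hcon)
          obtain ⟨i, a, hi, hia⟩ := h5 _ hx1
          have hx3 := hposA i hi a _ hia
          simp only at hx3
          linarith
        · exfalso
          rcases hout x hxM with e1 | e1
          · linarith
          · exact hx ((hLOn x hxM).2 e1)
    have hcAσ : ∀ x (hx : x ∈ M) (hx' : σ x ∈ M), cA ⟨σ x, hx'⟩ ↔ cA ⟨x, hx⟩ := by
      intro x hx hx'
      rw [← h1 ⟨x, hx⟩]
      have : AM 1 ⟨x, hx⟩ = ⟨σ x, hx'⟩ := Subtype.ext (hA21 x)
      rw [this]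
    have hcBσ : ∀ x (hx : x ∈ M) (hx' : σ x ∈ M), cB ⟨σ x, hx'⟩ ↔ cB ⟨x, hx⟩ := by
      intro x hx hx'
      rw [← h2 ⟨x, hx⟩]
      have : AM 1 ⟨x, hx⟩ = ⟨σ x, hx'⟩ := Subtype.ext (hA21 x)
      rw [this]
    refine ⟨min ε εd, L, lt_min hε hεd, ?_, ?_, ?_, ?_, ?_⟩
    · intro x
      by_cases hx : x ∈ M
      · rw [hLMn x hx, hLMn _ ((hMσ x).2 hx), hcAσ]
      · rw [hLOn x hx, hLOn _ (fun h => hx ((hMσ x).1 h)), hdBσ]
    · intro x z a hxz hz hx
      obtain ⟨hxM, hxA, hxB⟩ := hnear x z hxz hz (by rw [hx]; simp)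
      have hxM' := (hMσ x).2 hxM
      rw [hLM x hxM, if_pos hxA, if_pos hxB] at hx
      have ha : lb ⟨x, hxM⟩ = a := Option.some_injective _ hx
      obtain ⟨e1, e2⟩ := h3 ⟨x, hxM⟩ hxA hxB
      refine ⟨by rw [← ha]; exact e1, ?_⟩
      rw [hLM _ hxM', if_pos ((hcAσ x hxM hxM').2 hxA), if_pos ((hcBσ x hxM hxM').2 hxB)]
      have : AM 1 ⟨x, hxM⟩ = ⟨σ x, hxM'⟩ := Subtype.ext (hA21 x)
      rw [this] at e2
      rw [e2, ha]
    · intro x y z a b hxy hxz hyz hz hx hy
      obtain ⟨hxM, hxA, hxB⟩ := hnear x z hxz hz (by rw [hx]; simp)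
      obtain ⟨hyM, hyA, hyB⟩ := hnear y z hyz hz (by rw [hy]; simp)
      rw [hLM x hxM, if_pos hxA, if_pos hxB] at hx
      rw [hLM y hyM, if_pos hyA, if_pos hyB] at hy
      have ha : lb ⟨x, hxM⟩ = a := Option.some_injective _ hx
      have hb : lb ⟨y, hyM⟩ = b := Option.some_injective _ hy
      have := h4 ⟨x, hxM⟩ ⟨y, hyM⟩ (hxy.trans_le (min_le_left _ _)) hxA hxB hyA hyB
      rwa [ha, hb] at this
    · intro x hx
      have hxM : x ∉ M := fun h => by
        have := h.1
        rw [hdAA x hx] at this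
        linarith
      rw [ne_eq, hLOn x hxM]
      have e1 := hsum x
      rw [hdAA x hx] at e1
      linarith
    · intro x hx
      have hxM : x ∉ M := fun h => by
        have := h.2
        rw [hdBB x hx] at this
        linarith
      rw [hLOn x hxM, hdBB x hx]
      exact hρ

end Pool.Agent.H44.LI
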