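import Pool.Agent.H44.LI.Fine
import Pool.Graph.R_pool_sql_team_39128cda.Lib.helper9_.BorsukUlam

/-!
# Borsuk-Ulam for suspensions
-/

set_option autoImplicit false

namespace Pool.Agent.H44.LI

open Pool.Agent.Helper954.Hopf.Dold Pool.Agent.Helper954.Hopf.Dold.D1a
open Pool.Agent.Lib.helper9.BorsukUlam (d d_add d_map two d_perm d_congr A nu srt srt_perm srt_pw
  srt_eq d_srt srt_nu A_nu A_len)

/-! ### chains as functionals -/

/-- the value of a cochain on a chain -/
noncomputable def lc {P : Type} (φ : List P → ZMod 2) : Chain 2 P →ₗ[ZMod 2] ZMod 2 :=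
  Finsupp.linearCombination (ZMod 2) φ

theorem lc_single {P : Type} (φ : List P → ZMod 2) (l : List P) (a : ZMod 2) :
    lc φ (Finsupp.single l a) = a * φ l := by
  simp [lc]

theorem lc_add {P : Type} (φ ψ : List P → ZMod 2) (c : Chain 2 P) :
    lc (fun l => φ l + ψ l) c = lc φ c + lc ψ c := by
  simp only [lc, Finsupp.linearCombination_apply, Finsupp.sum, smul_add, Finset.sum_add_distrib]

theorem lc_congr {P : Type} {φ ψ : List P → ZMod 2} {c : Chain 2 P}
    (h : ∀ l ∈ c.support, φ l = ψ l) : lc φ c = lc ψ c := by
  simp only [lc, Finsupp.linearCombination_apply, Finsupp.sum]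
  exact Finset.sum_congr rfl fun l hl => by rw [h l hl]

theorem lc_zero {P : Type} {φ : List P → ZMod 2} {c : Chain 2 P}
    (h : ∀ l ∈ c.support, φ l = 0) : lc φ c = 0 := by
  simp only [lc, Finsupp.linearCombination_apply, Finsupp.sum]
  exact Finset.sum_eq_zero fun l hl => by rw [h l hl, smul_zero]

theorem lc_mapDomain {P Q : Type} (φ : List Q → ZMod 2) (f : List P → List Q) (c : Chain 2 P) :
    lc φ (Finsupp.mapDomain f c) = lc (fun l => φ (f l)) c := by
  simp only [lc]
  rw [Finsupp.linearCombination_mapDomain]
  rfl

theorem lc_act {P : Type} (φ : List P → ZMod 2) (g : P → P) (c : Chain 2 P) :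
    lc φ (act 2 g c) = lc (fun l => φ (l.map g)) c := lc_mapDomain φ (List.map g) c

theorem lc_bdL {P : Type} (l : List P) : ∀ φ : List P → ZMod 2, lc φ (bdL 2 l) = d φ l := by
  induction l with
  | nil => intro φ; simp [bdL, d]
  | cons a l ih =>
    intro φ
    simp only [bdL, d]
    rw [map_sub, lc_single, one_mul, lc_mapDomain, ih]
    exact CharTwo.sub_eq_add _ _

theorem lc_bd {P : Type} (φ : List P → ZMod 2) (c : Chain 2 P) :
    lc φ (bd 2 c) = lc (d φ) c := by
  induction c using Finsupp.induction_linear with
  | zero => simp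
  | add f g hf hg => rw [map_add, map_add, map_add, hf, hg]
  | single l a =>
    rw [lc_single]
    simp only [bd, Finsupp.linearCombination_single, map_smul, lc_bdL, smul_eq_mul]

/-! ### prisms -/

/-- prism operator on cochains for maps to another set -/
def prQ {P Q : Type} (f g : P → Q) : (List Q → ZMod 2) → List P → ZMod 2
  | _, [] => 0
  | φ, a :: l => φ (f a :: g a :: l.map g) + prQ f g (fun m => φ (f a :: m)) l

theorem prQ_add {P Q : Type} (f g : P → Q) (l : List P) : ∀ φ ψ : List Q → ZMod 2,
    prQ f g (fun m => φ m + ψ m) l = prQ f g φ l + prQ f g ψ l := by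
  induction l with
  | nil => intro φ ψ; simp [prQ]
  | cons a l ih => intro φ ψ; simp only [prQ]; rw [ih]; ring

theorem prismQ {P Q : Type} (f g : P → Q) (l : List P) : ∀ φ : List Q → ZMod 2,
    prQ f g (d φ) l = d (prQ f g φ) l + φ (l.map f) + φ (l.map g) := by
  induction l with
  | nil => intro φ; simp [d, prQ, two]
  | cons a l ih =>
    intro φ
    simp only [d, prQ, List.map_cons]
    rw [prQ_add f g l φ (d fun m => φ (f a :: m)), ih,
      d_add l (fun m => φ (f a :: g a :: m.map g)) (prQ f g fun m => φ (f a :: m)),
      d_map g l (fun m => φ (f a :: g a :: m))]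
    have := two (φ (f a :: l.map g))
    linear_combination this

theorem prQ_zero {P Q : Type} (f g : P → Q) (l : List P) : ∀ φ : List Q → ZMod 2,
    (∀ m : List Q, m.length = l.length + 1 → (∀ x ∈ m, ∃ y ∈ l, x = f y ∨ x = g y) → φ m = 0) →
      prQ f g φ l = 0 := by
  induction l with
  | nil => intro φ _; rfl
  | cons a l ih =>
    intro φ h
    simp only [prQ]
    rw [h, ih, add_zero]
    · intro m hm hx
      apply h _ (by simp [hm])
      intro x hx'
      rcases List.mem_cons.1 hx' with rfl | hx'
      · exact ⟨a, by simp, Or.inl rfl⟩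
      · obtain ⟨y, hy, e⟩ := hx x hx'
        exact ⟨y, by simp [hy], e⟩
    · simp
    · intro x hx'
      simp only [List.mem_cons, List.mem_map] at hx'
      rcases hx' with rfl | rfl | ⟨y, hy, rfl⟩
      · exact ⟨a, by simp, Or.inl rfl⟩
      · exact ⟨a, by simp, Or.inr rfl⟩
      · exact ⟨y, by simp [hy], Or.inr rfl⟩

theorem prQ_map {P Q : Type} (f g : P → Q) (s : P → P) (σ : Q → Q) (l : List P)
    (hf : ∀ x ∈ l, f (s x) = σ (f x)) (hg : ∀ x ∈ l, g (s x) = σ (g x)) :
    ∀ φ : List Q → ZMod 2, prQ f g φ (l.map s) = prQ f g (fun m => φ (m.map σ)) l := by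
  induction l with
  | nil => intro φ; rfl
  | cons a l ih =>
    intro φ
    simp only [prQ, List.map_cons]
    rw [ih (fun x hx => hf x (by simp [hx])) (fun x hx => hg x (by simp [hx])),
      hf a (by simp), hg a (by simp)]
    congr 2
    simp only [List.map_map, List.cons.injEq, true_and]
    exact List.map_congr_left fun x hx => hg x (by simp [hx])

/-! ### the cochain -/

/-- the cochain which counts the simplices with one vertex marked `none` and the other vertices
alternating -/
def bt (l : List (Option ℕ)) : ZMod 2 :=
  if l.count none = 1 then A 0 (srt l.reduceOption) else 0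

theorem srt_congr {l l' : List ℕ} (h : l.Perm l') : srt l = srt l' :=
  srt_eq ((srt_perm l').trans h.symm) (srt_pw l')

theorem bt_perm (l l' : List (Option ℕ)) (h : l.Perm l') : bt l = bt l' := by
  have h2 : l.reduceOption.Perm l'.reduceOption := h.filterMap id
  unfold bt
  rw [h.count_eq, srt_congr h2]

theorem count_map_some (m : List ℕ) : (m.map some).count (none : Option ℕ) = 0 := by
  rw [List.count_eq_zero]
  simp

theorem reduce_map_some (m : List ℕ) : (m.map some).reduceOption = m := by
  induction m with
  | nil => rfl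
  | cons a m ih => simp [List.reduceOption_cons_of_some, ih]

theorem perm_normal (l : List (Option ℕ)) :
    l.Perm (List.replicate (l.count none) none ++ l.reduceOption.map some) := by
  induction l with
  | nil => simp
  | cons a l ih =>
    cases a with
    | none =>
      rw [List.count_cons_self, List.replicate_succ, List.reduceOption_cons_of_none]
      exact ih.cons none
    | some a =>
      rw [List.count_cons_of_ne (by simp), List.reduceOption_cons_of_some, List.map_cons]
      exact (ih.cons (some a)).trans List.perm_middle.symm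

theorem d_zero {P : Type} (l : List P) {φ : List P → ZMod 2} (h : ∀ m, φ m = 0) : d φ l = 0 := by
  have h1 : φ = fun _ => 0 := funext h
  rw [h1]
  clear h h1
  induction l with
  | nil => rfl
  | cons a l ih => simp only [d, ih, add_zero]

theorem d_bt (l : List (Option ℕ)) : d bt l =
    if l.count none = 1 then A 0 (srt l.reduceOption) + A 1 (srt l.reduceOption) else 0 := by
  rw [d_perm (perm_normal l) bt bt_perm]
  generalize l.reduceOption = r
  generalize l.count none = k
  match k with
  | 0 =>
    rw [if_neg (by norm_num), List.replicate_zero, List.nil_append, ← d_map some r bt]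
    exact d_zero r fun m => by
      unfold bt
      rw [count_map_some, if_neg (by norm_num)]
  | 1 =>
    rw [if_pos rfl, List.replicate_one, List.singleton_append]
    simp only [d]
    have h1 : bt (r.map some) = 0 := by
      unfold bt
      rw [count_map_some, if_neg (by norm_num)]
    rw [h1, zero_add, ← d_map some r (fun m => bt (none :: m)), ← d_srt]
    congr 1
    funext m
    unfold bt
    rw [List.count_cons_self, count_map_some, List.reduceOption_cons_of_none, reduce_map_some,
      if_pos rfl]
  | 2 =>
    rw [if_neg (by norm_num)]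
    simp only [List.replicate_succ, List.replicate_zero, List.cons_append, List.nil_append, d]
    have h1 : d (fun m => bt (none :: none :: m)) (r.map some) = 0 := by
      refine d_zero _ fun m => ?_
      unfold bt
      rw [List.count_cons_self, List.count_cons_self, if_neg (by omega)]
    rw [h1, add_zero]
    exact two _
  | k + 3 =>
    rw [if_neg (by omega)]
    have hb : ∀ m : List (Option ℕ), bt (none :: none :: m) = 0 := by
      intro m
      unfold bt
      rw [List.count_cons_self, List.count_cons_self, if_neg (by omega)]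
    simp only [List.replicate_succ, List.cons_append, d, hb]
    rw [d_zero _ (φ := fun _ => 0) fun m => rfl]
    ring

/-- the label of the image -/
theorem bt_neg {l l' : List (Option ℕ)} (h1 : l'.count none = l.count none)
    (h2 : l'.reduceOption = l.reduceOption.map nu)
    (h3 : ∀ a ∈ l.reduceOption, ∀ b ∈ l.reduceOption, a ≠ nu b) (hc : l.count none = 1) :
    bt l + bt l' = d bt l := by
  rw [d_bt, if_pos hc]
  unfold bt
  rw [h1, if_pos hc, h2, srt_nu _ h3, A_nu, if_pos hc, zero_add]

/-- Borsuk-Ulam for suspensions. -/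
theorem no_susp (n N : ℕ) {X : Type} [MetricSpace X] (σ : X → X) (ε : ℝ) (L : X → Option ℕ)
    (hL1 : ∀ x, L (σ x) = none ↔ L x = none)
    (hL2 : ∀ x z a, dist x z < ε → L z = none → L x = some a →
      a < 2 * n ∧ L (σ x) = some (nu a))
    (hL3 : ∀ x y z a b, dist x y < ε → dist x z < ε → dist y z < ε → L z = none →
      L x = some a → L y = some b → a ≠ nu b)
    (H : ℕ → VV 2 (n + 1) → X) (hH0 : ∀ z ∈ JK 2 (n + 1), L (H 0 z) ≠ none)
    (hHN : ∀ z ∈ JK 2 (n + 1), L (H N z) = none)
    (hHσ : ∀ j ≤ N, ∀ z ∈ JK 2 (n + 1), H j (sh z) = σ (H j z)) (δ : ℝ) (hδ : 0 < δ)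
    (hc : ∀ (f : Fin (n + 1) → ZMod 2), ∀ z ∈ face f, ∀ z' ∈ face f, dist z z' < δ →
      ∀ j < N, dist (H j z) (H j z') < ε ∧ dist (H j z) (H (j + 1) z') < ε ∧
        dist (H (j + 1) z) (H (j + 1) z') < ε) : False := by
  classical
  have : Fact (Nat.Prime 2) := ⟨Nat.prime_two⟩
  obtain ⟨c, hc1, hc2, hc3⟩ := fine_chains_face 2 (n + 1) δ hδ
  let T : ℕ → (List (VV 2 (n + 1)) → ZMod 2) → ZMod 2 := fun k φ => lc φ (c k)
  have hTadd : ∀ k φ ψ, T k (fun l => φ l + ψ l) = T k φ + T k ψ := fun k φ ψ => lc_add φ ψ _
  have hTd : ∀ k, k + 1 < n + 1 → ∀ ψ, T (k + 1) (d ψ) = T k ψ + T k (fun l => ψ (l.map sh)) := by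
    intro k hk ψ
    show lc (d ψ) (c (k + 1)) = lc ψ (c k) + lc (fun l => ψ (l.map sh)) (c k)
    rw [← lc_bd, hc3 k hk, ← lc_act]
    split_ifs
    · rw [map_sub, CharTwo.sub_eq_add]
      ring
    · rw [Finset.sum_range_succ, Finset.sum_range_one, map_add]
      rfl
  have hT0 : ∀ ψ, T 0 (d ψ) = ψ [] := by
    intro ψ
    show lc (d ψ) (c 0) = _
    rw [← lc_bd, hc2 (by omega), lc_single, one_mul]
  let β : List X → ZMod 2 := fun l => bt (l.map L)
  have hdβ : ∀ l, d β l = d bt (l.map L) := fun l => d_map L l bt
  let U : ℕ → (List X → ZMod 2) → ZMod 2 := fun k φ =>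
    ∑ j ∈ Finset.range N, T k (prQ (H j) (H (j + 1)) φ)
  -- the fine lists in `X`
  have hfine : ∀ k < n + 1, ∀ l ∈ (c k).support, ∀ j < N, ∀ m : List X,
      (∀ x ∈ m, ∃ y ∈ l, x = H j y ∨ x = H (j + 1) y) → ∀ x ∈ m, ∀ y ∈ m, dist x y < ε := by
    intro k hk l hl j hj m hm x hx y hy
    obtain ⟨-, -, f, g3, g4⟩ := hc1 k hk l hl
    obtain ⟨x', hx', ex⟩ := hm x hx
    obtain ⟨y', hy', ey⟩ := hm y hy
    have h1 := hc f x' (g3 x' hx') y' (g3 y' hy') (g4 x' hx' y' hy') j hj
    have h2 := hc f y' (g3 y' hy') x' (g3 x' hx') (g4 y' hy' x' hx') j hj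
    rcases ex with rfl | rfl <;> rcases ey with rfl | rfl
    · exact h1.1
    · exact h1.2.1
    · rw [dist_comm]
      exact h2.2.1
    · exact h1.2.2
  -- the labels in a fine list with a marked vertex
  have hlabels : ∀ m : List X, (∀ x ∈ m, ∀ y ∈ m, dist x y < ε) → (m.map L).count none = 1 →
      ((m.map σ).map L).count none = 1 ∧
      ((m.map σ).map L).reduceOption = (m.map L).reduceOption.map nu ∧
      (∀ a ∈ (m.map L).reduceOption, a < 2 * n) ∧
      ∀ a ∈ (m.map L).reduceOption, ∀ b ∈ (m.map L).reduceOption, a ≠ nu b := by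
    intro m hm hcnt
    have hex : ∃ z ∈ m, L z = none := by
      have h1 : (none : Option ℕ) ∈ m.map L := List.count_pos_iff.1 (by omega)
      exact List.mem_map.1 h1
    obtain ⟨z, hz, hzn⟩ := hex
    have hmem : ∀ a ∈ (m.map L).reduceOption, ∃ x ∈ m, L x = some a := by
      intro a ha
      rw [List.reduceOption_mem_iff] at ha
      exact List.mem_map.1 ha
    refine ⟨?_, ?_, ?_, ?_⟩
    · rw [← hcnt]
      clear hm hz hmem hcnt
      induction m with
      | nil => rfl
      | cons a m ih =>
        simp only [List.map_cons, List.count_cons, ih]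
        congr 1
        by_cases h1 : L a = none
        · simp [h1, (hL1 a).2 h1]
        · have h2 : L (σ a) ≠ none := fun h3 => h1 ((hL1 a).1 h3)
          simp [h1, h2]
    · have key : ∀ m' : List X, (∀ x ∈ m', x ∈ m) →
          ((m'.map σ).map L).reduceOption = (m'.map L).reduceOption.map nu := by
        intro m'
        induction m' with
        | nil => intro _; rfl
        | cons a m' ih =>
          intro hsub
          have ih' := ih fun x hx => hsub x (by simp [hx])
          simp only [List.map_cons]
          rcases hLa : L a with _ | b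
          · rw [(hL1 a).2 hLa, List.reduceOption_cons_of_none, List.reduceOption_cons_of_none, ih']
          · rw [(hL2 a z b (hm a (hsub a (by simp)) z hz) hzn hLa).2,
              List.reduceOption_cons_of_some, List.reduceOption_cons_of_some, ih', List.map_cons]
      exact key m fun x hx => hx
    · intro a ha
      obtain ⟨x, hx, hxa⟩ := hmem a ha
      exact (hL2 x z a (hm x hx z hz) hzn hxa).1
    · intro a ha b hb
      obtain ⟨x, hx, hxa⟩ := hmem a ha
      obtain ⟨y, hy, hyb⟩ := hmem b hb
      exact hL3 x y z a b (hm x hx y hy) (hm x hx z hz) (hm y hy z hz) hzn hxa hyb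
  -- the coboundary on fine lists
  have hcob : ∀ m : List X, (∀ x ∈ m, ∀ y ∈ m, dist x y < ε) →
      β m + β (m.map σ) + d β m = 0 := by
    intro m hm
    rw [hdβ]
    by_cases hcnt : (m.map L).count none = 1
    · obtain ⟨h1, h2, -, h4⟩ := hlabels m hm hcnt
      have h5 : β m + β (m.map σ) = d bt (m.map L) :=
        bt_neg (by rw [h1, hcnt]) h2 h4 hcnt
      rw [h5]
      exact two _
    · have h1 : ((m.map σ).map L).count none = (m.map L).count none := by
        clear hm hcnt
        induction m with
        | nil => rfl
        | cons a m ih =>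
          simp only [List.map_cons, List.count_cons, ih]
          congr 1
          by_cases h1 : L a = none
          · simp [h1, (hL1 a).2 h1]
          · have h2 : L (σ a) ≠ none := fun h3 => h1 ((hL1 a).1 h3)
            simp [h1, h2]
      have h2 : β m = 0 := if_neg hcnt
      have h3 : β (m.map σ) = 0 := if_neg (by rw [h1]; exact hcnt)
      rw [h2, h3, d_bt, if_neg hcnt]
      ring
  -- the ends
  have hend : ∀ k < n + 1, T k (fun l => β (l.map (H 0))) = 0 := by
    intro k hk
    refine lc_zero fun l hl => ?_
    obtain ⟨-, g2, -⟩ := hc1 k hk l hl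
    refine if_neg ?_
    have : ((l.map (H 0)).map L).count none = 0 := by
      rw [List.count_eq_zero]
      intro h1
      simp only [List.map_map, List.mem_map, Function.comp] at h1
      obtain ⟨z, hz, hz'⟩ := h1
      exact hH0 z (g2 z hz) hz'
    omega
  have hcntN : ∀ k < n + 1, ∀ l ∈ (c k).support, ((l.map (H N)).map L).count none = k + 1 := by
    intro k hk l hl
    obtain ⟨g1, g2, -⟩ := hc1 k hk l hl
    rw [← g1]
    have : (l.map (H N)).map L = List.replicate l.length none := by
      rw [List.eq_replicate_iff]
      refine ⟨by simp, fun b hb => ?_⟩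
      simp only [List.map_map, List.mem_map, Function.comp] at hb
      obtain ⟨z, hz, hz'⟩ := hb
      rw [← hz', hHN z (g2 z hz)]
    rw [this, List.count_replicate_self]
  -- telescoping
  have htel : ∀ k < n + 1, U k (d β) = ∑ j ∈ Finset.range N, T k (d (prQ (H j) (H (j + 1)) β)) +
      T k (fun l => β (l.map (H N))) := by
    intro k hk
    have e1 : ∀ j, T k (prQ (H j) (H (j + 1)) (d β)) = T k (d (prQ (H j) (H (j + 1)) β)) +
        (T k (fun l => β (l.map (H j))) + T k (fun l => β (l.map (H (j + 1))))) := by
      intro j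
      have : prQ (H j) (H (j + 1)) (d β) = fun l => d (prQ (H j) (H (j + 1)) β) l +
          (β (l.map (H j)) + β (l.map (H (j + 1)))) := funext fun l => by
        rw [prismQ]
        ring
      rw [this, hTadd, hTadd]
    have e2 : ∀ (a : ℕ → ZMod 2) (K : ℕ), ∑ j ∈ Finset.range K, (a j + a (j + 1)) = a 0 + a K := by
      intro a K
      induction K with
      | zero => simp [two]
      | succ K ih =>
        rw [Finset.sum_range_succ, ih]
        have := two (a K)
        linear_combination this
    show ∑ j ∈ Finset.range N, T k (prQ (H j) (H (j + 1)) (d β)) = _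
    simp only [e1, Finset.sum_add_distrib]
    rw [← Finset.sum_add_distrib, ← Finset.sum_add_distrib]
    rw [Finset.sum_add_distrib, e2 (fun j => T k (fun l => β (l.map (H j)))), hend k hk, zero_add]
  -- the induction
  have key : ∀ k < n + 1, U k (d β) = 1 := by
    intro k
    induction k with
    | zero =>
      intro hk
      rw [htel 0 hk]
      have h1 : ∀ j ∈ Finset.range N, T 0 (d (prQ (H j) (H (j + 1)) β)) = 0 := fun j _ => hT0 _
      rw [Finset.sum_eq_zero h1, zero_add]
      have h2 : T 0 (fun l => β (l.map (H N))) = T 0 (d fun _ => 1) := by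
        refine lc_congr fun l hl => ?_
        obtain ⟨g1, -⟩ := hc1 0 hk l hl
        have h3 := hcntN 0 hk l hl
        obtain ⟨x, rfl⟩ := List.length_eq_one_iff.1 g1
        show bt (([x].map (H N)).map L) = d (fun _ => 1) [x]
        have h4 : d (fun _ => (1 : ZMod 2)) [x] = 1 := by simp [d]
        have h5 : (([x].map (H N)).map L).reduceOption = [] := by
          have h6 : L (H N x) = none := by
            by_contra h7
            simp only [List.map_cons, List.map_nil, List.count_cons, List.count_nil] at h3
            simp [h7] at h3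
          simp [h6, List.reduceOption_cons_of_none]
        unfold bt
        rw [h3, if_pos rfl, h5, h4]
        simp [srt, A]
      rw [h2, hT0]
    | succ k ih =>
      intro hk
      rw [htel (k + 1) hk]
      have h1 : T (k + 1) (fun l => β (l.map (H N))) = 0 := by
        refine lc_zero fun l hl => if_neg ?_
        rw [hcntN (k + 1) hk l hl]
        omega
      rw [h1, add_zero, ← ih (by omega)]
      refine Finset.sum_congr rfl fun j hj => ?_
      have hjN : j < N := Finset.mem_range.1 hj
      rw [hTd k (by omega)]
      have h2 : T k (fun l => prQ (H j) (H (j + 1)) β (l.map sh)) =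
          T k (prQ (H j) (H (j + 1)) fun m => β (m.map σ)) := by
        refine lc_congr fun l hl => ?_
        obtain ⟨-, g2, -⟩ := hc1 k (by omega) l hl
        exact prQ_map (H j) (H (j + 1)) sh σ l (fun x hx => hHσ j (by omega) x (g2 x hx))
          (fun x hx => hHσ (j + 1) (by omega) x (g2 x hx)) β
      rw [h2, ← hTadd]
      refine lc_congr fun l hl => ?_
      have h3 := prQ_zero (H j) (H (j + 1)) l (fun m => (β m + β (m.map σ)) + d β m)
        fun m _ hm2 => hcob m (hfine k (by omega) l hl j hjN m hm2)
      rw [prQ_add, prQ_add] at h3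
      have h4 := two (prQ (H j) (H (j + 1)) (d β) l)
      linear_combination h3 - h4
  -- the contradiction
  have hlast := key n (by omega)
  have hz : U n (d β) = 0 := by
    refine Finset.sum_eq_zero fun j hj => ?_
    have hjN : j < N := Finset.mem_range.1 hj
    refine lc_zero fun l hl => ?_
    obtain ⟨g1, -⟩ := hc1 n (by omega) l hl
    refine prQ_zero (H j) (H (j + 1)) l _ fun m hm1 hm2 => ?_
    rw [hdβ, d_bt]
    split_ifs with hcnt
    · obtain ⟨-, -, h3, h4⟩ := hlabels m (hfine n (by omega) l hl j hjN m hm2) hcnt
      have hlen : ((m.map L).reduceOption).length + 1 = m.length := by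
        have h5 := (perm_normal (m.map L)).length_eq
        rw [List.length_append, List.length_replicate, List.length_map, List.length_map, hcnt] at h5
        omega
      have hA : ∀ t, A t (srt (m.map L).reduceOption) = 0 := by
        intro t
        by_contra h
        have p := srt_perm (m.map L).reduceOption
        have := A_len n _ t 0 (by omega) (srt_pw _)
          (fun a ha b hb => h4 a (p.subset ha) b (p.subset hb))
          (fun a ha => ⟨h3 a (p.subset ha), by omega⟩) h
        rw [p.length_eq] at this
        omega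
      rw [hA, hA, add_zero]
    · rfl
  rw [hz] at hlast
  exact zero_ne_one hlast

end Pool.Agent.H44.LI
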