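import Pool.Agent.H44.LI.Fam

/-!
# The equivariant map from the join
-/

set_option autoImplicit false

open Set Topology

noncomputable section

namespace Pool.Agent.H44.LI

open Pool.Agent.Y489.GE Pool.Agent.Helper954.Hopf.Dold Pool.Agent.Helper954.Hopf.Dold.D1a

/-! ### the first family: one invariant polygon -/

/-- the points of the invariant polygon -/
def ptP {p : ℕ} {X : Type} (A : ZMod p → X → X) (c : ℝ → X) (M n : ℕ) : X :=
  A ((n / M : ℕ) : ZMod p) (c (((n % M : ℕ) : ℝ) / M))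

section

variable {p M : ℕ} {X : Type} {A : ZMod p → X → X} {c : ℝ → X}

theorem ptP_add (h : Act p X A) (hM : 0 < M) (n k : ℕ) :
    ptP A c M (n + M * k) = A (k : ZMod p) (ptP A c M n) := by
  unfold ptP
  rw [Nat.add_mul_div_left _ _ hM, Nat.add_mul_mod_self_left, Nat.cast_add, add_comm, h.add]

theorem ptP_mod (h : Act p X A) (hM : 0 < M) (n : ℕ) :
    ptP A c M (n % (M * p)) = ptP A c M n := by
  conv_rhs => rw [← Nat.mod_add_div n (M * p), mul_assoc, ptP_add h hM]
  rw [Nat.cast_mul, ZMod.natCast_self, zero_mul, h.zero]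

theorem ptP_succ (h : Act p X A) (hM : 0 < M) (hc : c 1 = A 1 (c 0)) (n : ℕ) :
    ptP A c M (n + 1) = A ((n / M : ℕ) : ZMod p) (c ((((n % M : ℕ) : ℝ) + 1) / M)) := by
  have hj : n % M < M := Nat.mod_lt n hM
  have hn : n + 1 = (n % M + 1) + M * (n / M) := by
    have := Nat.mod_add_div n M
    omega
  rw [hn, ptP_add h hM]
  have e1 : ((n % M + 1 + M * (n / M)) - 1) = n := by
    have := Nat.mod_add_div n M
    omega
  rcases Nat.lt_or_ge (n % M + 1) M with h1 | h1
  · unfold ptP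
    rw [Nat.div_eq_of_lt h1, Nat.mod_eq_of_lt h1, Nat.cast_zero, h.zero]
    push_cast
    rfl
  · have h2 : n % M + 1 = M := by omega
    have h3 : ((n % M : ℕ) : ℝ) + 1 = M := by exact_mod_cast h2
    have hM0 : (M : ℝ) ≠ 0 := by positivity
    rw [h3, div_self hM0, hc]
    unfold ptP
    rw [h2, Nat.div_self hM, Nat.mod_self, Nat.cast_zero, zero_div, Nat.cast_one]

end

section

variable {p M : ℕ} [NeZero p] {X : Type} [MetricSpace X] {A : ZMod p → X → X}

theorem Fam.base (h : Act p X A) {lam : ℝ} (h0 : 0 ≤ lam)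
    (hL : ∀ a x y, dist (A a x) (A a y) ≤ lam * dist x y) {c : ℝ → X} {D : ℝ}
    (hc : c 1 = A 1 (c 0))
    (hcd : ∀ s ∈ Icc (0 : ℝ) 1, ∀ t ∈ Icc (0 : ℝ) 1, dist (c s) (c t) = |s - t| * D)
    (hM : 0 < M) : ∃ Φ, Fam A M 0 (lam * (D / M)) Φ := by
  have hMp : NeZero (M * p) := ⟨(Nat.mul_pos hM (Nat.pos_of_ne_zero (NeZero.ne p))).ne'⟩
  have hM0 : (0 : ℝ) < M := by exact_mod_cast hM
  let y : ZMod (M * p) → X := fun i => ptP A c M i.val
  have hy : ∀ n : ℕ, y (n : ZMod (M * p)) = ptP A c M n := by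
    intro n
    show ptP A c M (n : ZMod (M * p)).val = _
    rw [ZMod.val_natCast, ptP_mod h hM]
  have hside : ∀ n : ℕ, dist (ptP A c M n) (ptP A c M (n + 1)) ≤ lam * (D / M) := by
    intro n
    rw [ptP_succ h hM hc]
    unfold ptP
    refine (hL _ _ _).trans (mul_le_mul_of_nonneg_left ?_ h0)
    have hj : (((n % M : ℕ) : ℝ) + 1) ≤ M := by
      have := Nat.mod_lt n hM
      exact_mod_cast this
    have hj0 : (0 : ℝ) ≤ ((n % M : ℕ) : ℝ) := by positivity
    rw [hcd _ ⟨by positivity, by rw [div_le_one hM0]; linarith⟩ _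
      ⟨by positivity, by rw [div_le_one hM0]; exact hj⟩]
    have : ((n % M : ℕ) : ℝ) / M - (((n % M : ℕ) : ℝ) + 1) / M = -(1 / M) := by ring
    rw [this, abs_neg, abs_of_pos (by positivity)]
    apply le_of_eq
    ring
  refine ⟨fun _ => y, continuousOn_const, ?_, ?_, ?_⟩
  · intro _ _ i
    have h1 := hside i.val
    have h2 : y (i + 1) = ptP A c M (i.val + 1) := by
      rw [← hy]
      congr 1
      push_cast
      rw [ZMod.natCast_zmod_val]
    rw [h2]
    exact h1
  · intro a _ _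
    funext i
    show y i = A a (y (i - rot p M a))
    set n := (i - rot p M a).val with hn
    have h1 : y i = ptP A c M (n + M * a.val) := by
      rw [← hy]
      congr 1
      rw [Nat.cast_add, hn, ZMod.natCast_zmod_val]
      show i = i - rot p M a + rot p M a
      ring
    rw [h1, ptP_add h hM, ZMod.natCast_zmod_val]
  · rintro _ _ ⟨i, _⟩
    exact i.elim0

/-- all families -/
theorem Fam.exists (h : Act p X A) (hcA : ∀ a, Continuous (A a)) {lam : ℝ} (hlam : 1 ≤ lam)
    (hL : ∀ a x y, dist (A a x) (A a y) ≤ lam * dist x y) {c : ℝ → X} {D : ℝ}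
    (hc : c 1 = A 1 (c 0))
    (hcd : ∀ s ∈ Icc (0 : ℝ) 1, ∀ t ∈ Icc (0 : ℝ) 1, dist (c s) (c t) = |s - t| * D)
    (hM : 0 < M) (m : ℕ) (hP : ∀ k < m, PolC X (M * p) (lam ^ k * (lam * (D / M)))) :
    ∃ Φ, Fam A M m (lam ^ m * (lam * (D / M))) Φ := by
  induction m with
  | zero =>
    rw [pow_zero, one_mul]
    exact Fam.base h (by linarith) hL hc hcd hM
  | succ m ih =>
    obtain ⟨Φ, hΦ⟩ := ih fun k hk => hP k (by omega)
    obtain ⟨Ψ, hΨ⟩ := hΦ.step h hcA hlam hL (hP m (by omega))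
    refine ⟨Ψ, ?_⟩
    rw [pow_succ', mul_assoc]
    exact hΨ

end

/-! ### the map from the join -/

section

variable {p M d : ℕ} [NeZero p] {X : Type} [MetricSpace X] {A : ZMod p → X → X}

/-- the last `d` coordinates, rescaled -/
def rest (z : VV p (d + 2)) : Fin d → ZMod p → ℝ := fun i l => (2 * (d + 1) : ℝ) * z i.succ.succ l

/-- the weight of the first two coordinates, cut off -/
def den (z : VV p (d + 2)) : ℝ := max (∑ l, z 0 l + ∑ l, z 1 l) (1 / 2)

/-- the position on the polygon -/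
def pos (M : ℕ) (f : Fin (d + 2) → ZMod p) (z : VV p (d + 2)) : ℝ :=
  (M : ℝ) * (f 1 - f 0).val * (z 1 (f 1) / den z)

/-- the map over the face `f` -/
def Th (Φ : (Fin d → ZMod p → ℝ) → ZMod (M * p) → X) (f : Fin (d + 2) → ZMod p)
    (z : VV p (d + 2)) : X :=
  Φ (rest z) (rot p M (f 0) + ((⌊pos M f z⌋₊ : ℕ) : ZMod (M * p)))

theorem rest_mem {z : VV p (d + 2)} (hz : z ∈ JK p (d + 2)) : rest z ∈ Stars p d := by
  intro i
  refine ⟨fun l => mul_nonneg (by positivity) (hz.1 _ l), fun l l' hl => ?_⟩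
  rcases hz.2.2 i.succ.succ l l' hl with h1 | h1
  · left
    simp [rest, h1]
  · right
    simp [rest, h1]

theorem den_pos (z : VV p (d + 2)) : 0 < den z := lt_of_lt_of_le (by norm_num) (le_max_right _ _)

theorem face_sum {f : Fin (d + 2) → ZMod p} {z : VV p (d + 2)} (hz : z ∈ face f)
    (i : Fin (d + 2)) : ∑ l, z i l = z i (f i) :=
  Finset.sum_eq_single _ (fun l _ hl => hz.2.2 i l hl) fun h => absurd (Finset.mem_univ _) h

theorem total {f : Fin (d + 2) → ZMod p} {z : VV p (d + 2)} (hz : z ∈ face f) :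
    z 0 (f 0) + z 1 (f 1) + ∑ i : Fin d, z i.succ.succ (f i.succ.succ) = 1 := by
  rw [← hz.2.1]
  simp only [face_sum hz]
  rw [Fin.sum_univ_succ, Fin.sum_univ_succ, add_assoc]
  rfl

theorem rest_big {f : Fin (d + 2) → ZMod p} {z : VV p (d + 2)} (hz : z ∈ face f)
    (h : z 0 (f 0) + z 1 (f 1) < 1 / 2) : ∃ i l, 1 ≤ rest z i l := by
  by_contra hcon
  push Not at hcon
  have h1 := total hz
  have h2 : ∑ i : Fin d, z i.succ.succ (f i.succ.succ) ≤ ∑ _i : Fin d, 1 / (2 * (d + 1) : ℝ) := by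
    refine Finset.sum_le_sum fun i _ => ?_
    have h3 := hcon i (f i.succ.succ)
    unfold rest at h3
    rw [le_div_iff₀ (by positivity)]
    linarith
  rw [Finset.sum_const, Finset.card_univ, Fintype.card_fin, nsmul_eq_mul] at h2
  have h3 : (d : ℝ) * (1 / (2 * (d + 1))) ≤ 1 / 2 := by
    rw [mul_one_div, div_le_div_iff₀ (by positivity) (by norm_num)]
    nlinarith
  linarith

theorem den_face {f : Fin (d + 2) → ZMod p} {z : VV p (d + 2)} (hz : z ∈ face f)
    (h : 1 / 2 ≤ z 0 (f 0) + z 1 (f 1)) : den z = z 0 (f 0) + z 1 (f 1) := by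
  unfold den
  rw [face_sum hz, face_sum hz, max_eq_left h]

theorem face_uniq {f f' : Fin (d + 2) → ZMod p} {z : VV p (d + 2)} (hz : z ∈ face f)
    (hz' : z ∈ face f') {i : Fin (d + 2)} (hi : z i (f i) ≠ 0) : f i = f' i := by
  by_contra h
  exact hi (hz'.2.2 i (f i) h)

theorem floor_full (M n : ℕ) : ⌊(M : ℝ) * (n : ℝ)⌋₊ = M * n := by
  have : (M : ℝ) * (n : ℝ) = ((M * n : ℕ) : ℝ) := by push_cast; ring
  rw [this, Nat.floor_natCast]

/-- the map does not depend on the face -/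
theorem Th_cons {δ : ℝ} {Φ : (Fin d → ZMod p → ℝ) → ZMod (M * p) → X} (hΦ : Fam A M d δ Φ)
    {f f' : Fin (d + 2) → ZMod p} {z : VV p (d + 2)} (hz : z ∈ face f) (hz' : z ∈ face f') :
    Th Φ f z = Th Φ f' z := by
  have hJ := face_sub f hz
  have hn0 := hJ.1 0 (f 0)
  have hn1 := hJ.1 1 (f 1)
  have hs0 : z 0 (f 0) = z 0 (f' 0) := by rw [← face_sum hz, ← face_sum hz']
  have hs1 : z 1 (f 1) = z 1 (f' 1) := by rw [← face_sum hz, ← face_sum hz']
  unfold Th
  rcases lt_or_ge (z 0 (f 0) + z 1 (f 1)) (1 / 2) with h | h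
  · have h1 := hΦ.const _ (rest_mem hJ) (rest_big hz h)
    rw [h1, ← h1 (rot p M (f' 0) + _)]
  · congr 1
    have hden := den_face hz h
    by_cases h0 : z 0 (f 0) = 0
    · have h1 : z 1 (f 1) ≠ 0 := by
        intro h1
        rw [h0, h1] at h
        norm_num at h
      have e1 : f 1 = f' 1 := face_uniq hz hz' h1
      have e2 : z 1 (f 1) / den z = 1 := by
        rw [hden, h0, zero_add, div_self h1]
      have e3 : z 1 (f' 1) / den z = 1 := by rw [← hs1, e2]
      have key : ∀ g : Fin (d + 2) → ZMod p, z 1 (g 1) / den z = 1 →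
          rot p M (g 0) + ((⌊pos M g z⌋₊ : ℕ) : ZMod (M * p)) = rot p M (g 1) := by
        intro g hg
        unfold pos
        rw [hg, mul_one, floor_full]
        show rot p M (g 0) + rot p M (g 1 - g 0) = _
        rw [← rot_add]
        congr 1
        ring
      rw [key f e2, key f' e3, e1]
    · have e0 : f 0 = f' 0 := face_uniq hz hz' h0
      rw [e0]
      congr 3
      unfold pos
      by_cases h1 : z 1 (f 1) = 0
      · rw [← hs1, h1]
        simp
      · rw [← face_uniq hz hz' h1, e0]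

/-- the map from the join -/
def Theta (Φ : (Fin d → ZMod p → ℝ) → ZMod (M * p) → X) (z : VV p (d + 2)) : X :=
  Th Φ (fun i => leg (z i)) z

theorem mem_face_leg {z : VV p (d + 2)} (hz : z ∈ JK p (d + 2)) :
    z ∈ face (fun i => leg (z i)) := by
  refine ⟨hz.1, hz.2.1, fun i l hl => ?_⟩
  exact leg_spec (x := z i) ⟨hz.1 i, fun l l' h => hz.2.2 i l l' h⟩ hl

theorem Theta_eq {δ : ℝ} {Φ : (Fin d → ZMod p → ℝ) → ZMod (M * p) → X} (hΦ : Fam A M d δ Φ)
    {f : Fin (d + 2) → ZMod p} {z : VV p (d + 2)} (hz : z ∈ face f) : Theta Φ z = Th Φ f z :=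
  Th_cons hΦ (mem_face_leg (face_sub f hz)) hz

theorem Theta_sh {δ : ℝ} {Φ : (Fin d → ZMod p → ℝ) → ZMod (M * p) → X}
    (hΦ : Fam A M d δ Φ) {z : VV p (d + 2)} (hz : z ∈ JK p (d + 2)) :
    Theta Φ (sh z) = A 1 (Theta Φ z) := by
  set f : Fin (d + 2) → ZMod p := fun i => leg (z i) with hf
  have hzf : z ∈ face f := mem_face_leg hz
  have hsum : ∀ i, ∑ l, sh z i l = ∑ l, z i l := fun i =>
    Fintype.sum_equiv (Equiv.subRight 1) _ _ fun l => rfl
  have hshf : sh z ∈ face (fun i => f i + 1) := by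
    refine ⟨fun i l => hz.1 i (l - 1), ?_, fun i l hl => ?_⟩
    · rw [← hz.2.1]
      exact Finset.sum_congr rfl fun i _ => hsum i
    · refine hzf.2.2 i (l - 1) fun h => hl ?_
      show l = f i + 1
      rw [← h, sub_add_cancel]
  rw [Theta_eq hΦ hshf, Theta_eq hΦ hzf]
  unfold Th
  have h1 : rest (sh z) = fun i l => rest z i (l - 1) := rfl
  have hden : den (sh z) = den z := by
    unfold den
    rw [hsum, hsum]
  have h2 : pos M (fun i => f i + 1) (sh z) = pos M f z := by
    unfold pos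
    rw [hden]
    have e1 : f 1 + 1 - (f 0 + 1) = f 1 - f 0 := by ring
    have e2 : sh z 1 (f 1 + 1) = z 1 (f 1) := by
      show z 1 (f 1 + 1 - 1) = _
      rw [add_sub_cancel_right]
    simp only [e1, e2]
  rw [h1, h2, hΦ.equi 1 _ (rest_mem hz)]
  show A 1 (Φ (rest z) (rot p M (f 0 + 1) + _ - rot p M 1)) = _
  congr 2
  rw [rot_add]
  ring

theorem dist_adj {δ : ℝ} {y : ZMod (M * p) → X} (hy : y ∈ Pol X (M * p) δ) (i : ZMod (M * p))
    {j j' : ℕ} (h1 : j ≤ j' + 1) (h2 : j' ≤ j + 1) (hδ : 0 ≤ δ) :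
    dist (y (i + (j : ZMod (M * p)))) (y (i + (j' : ZMod (M * p)))) ≤ δ := by
  rcases lt_trichotomy j j' with h | h | h
  · have : j' = j + 1 := by omega
    subst this
    have := hy (i + (j : ZMod (M * p)))
    push_cast
    rwa [add_assoc] at this
  · subst h
    rw [dist_self]
    exact hδ
  · have : j = j' + 1 := by omega
    subst this
    have := hy (i + (j' : ZMod (M * p)))
    push_cast
    rw [dist_comm]
    rwa [add_assoc] at this

theorem isClosed_face (f : Fin (d + 2) → ZMod p) : IsCompact (face f : Set (VV p (d + 2))) := by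
  have hcl : IsClosed (face f : Set (VV p (d + 2))) := by
    have : (face f : Set (VV p (d + 2))) = (⋂ i, ⋂ l, {x | 0 ≤ x i l}) ∩
        ({x | ∑ i, ∑ l, x i l = 1} ∩ ⋂ i, ⋂ l, ⋂ _ : l ≠ f i, {x | x i l = 0}) := by
      ext x
      simp [face]
    rw [this]
    refine IsClosed.inter (isClosed_iInter fun i => isClosed_iInter fun l =>
      isClosed_le continuous_const (continuous_apply_apply i l)) (IsClosed.inter ?_ ?_)
    · exact isClosed_eq (continuous_finsetSum _ fun i _ => continuous_finsetSum _ fun l _ =>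
        continuous_apply_apply i l) continuous_const
    · exact isClosed_iInter fun i => isClosed_iInter fun l => isClosed_iInter fun _ =>
        isClosed_eq (continuous_apply_apply i l) continuous_const
  refine Metric.isCompact_of_isClosed_isBounded hcl ?_
  refine (Metric.isBounded_closedBall (x := (0 : VV p (d + 2))) (r := 1)).subset fun x hx => ?_
  rw [mem_closedBall_zero_iff]
  exact JK_norm_le (face_sub f hx)

theorem Theta_near {δ : ℝ} {Φ : (Fin d → ZMod p → ℝ) → ZMod (M * p) → X}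
    (hΦ : Fam A M d δ Φ) (hδ0 : 0 ≤ δ) [NeZero (M * p)] {ε : ℝ} (hε : δ < ε) :
    ∃ η : ℝ, 0 < η ∧ ∀ (f : Fin (d + 2) → ZMod p), ∀ z ∈ face f, ∀ z' ∈ face f, dist z z' < η →
      dist (Theta Φ z) (Theta Φ z') < ε := by
  have key : ∀ f : Fin (d + 2) → ZMod p, ∃ η : ℝ, 0 < η ∧ ∀ z ∈ face f, ∀ z' ∈ face f,
      dist z z' < η → dist (Theta Φ z) (Theta Φ z') < ε := by
    intro f
    have hrc : Continuous (rest : VV p (d + 2) → _) :=
      continuous_pi fun i => continuous_pi fun l =>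
        continuous_const.mul (continuous_apply_apply i.succ.succ l)
    have h1 : ContinuousOn (fun z : VV p (d + 2) => Φ (rest z)) (face f) :=
      hΦ.cont.comp hrc.continuousOn fun z hz => rest_mem (face_sub f hz)
    have hdc : Continuous (den : VV p (d + 2) → ℝ) := by
      unfold den
      refine Continuous.max (Continuous.add ?_ ?_) continuous_const
      · exact continuous_finsetSum _ fun l _ => continuous_apply_apply 0 l
      · exact continuous_finsetSum _ fun l _ => continuous_apply_apply 1 l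
    have h2 : Continuous (fun z : VV p (d + 2) => pos M f z) := by
      unfold pos
      exact continuous_const.mul ((continuous_apply_apply 1 (f 1)).div hdc fun z => (den_pos z).ne')
    have u1 := (isClosed_face f).uniformContinuousOn_of_continuous h1
    have u2 := (isClosed_face f).uniformContinuousOn_of_continuous h2.continuousOn
    obtain ⟨η1, hη1, e1⟩ := Metric.uniformContinuousOn_iff.1 u1 (ε - δ) (by linarith)
    obtain ⟨η2, hη2, e2⟩ := Metric.uniformContinuousOn_iff.1 u2 1 one_pos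
    refine ⟨min η1 η2, lt_min hη1 hη2, fun z hz z' hz' hzz => ?_⟩
    have g1 := e1 z hz z' hz' (hzz.trans_le (min_le_left _ _))
    have g2 := e2 z hz z' hz' (hzz.trans_le (min_le_right _ _))
    rw [Real.dist_eq, abs_lt] at g2
    rw [Theta_eq hΦ hz, Theta_eq hΦ hz']
    unfold Th
    have hj0 : ∀ z ∈ face f, 0 ≤ pos M f z := by
      intro z hz
      have a1 := (face_sub f hz).1 1 (f 1)
      have a2 := den_pos z
      unfold pos
      positivity
    have hj1 : ⌊pos M f z⌋₊ ≤ ⌊pos M f z'⌋₊ + 1 := by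
      have b1 := Nat.floor_le (hj0 z hz)
      have b2 := Nat.lt_floor_add_one (pos M f z')
      have b3 : ((⌊pos M f z⌋₊ : ℕ) : ℝ) < ((⌊pos M f z'⌋₊ + 1 + 1 : ℕ) : ℝ) := by
        push_cast
        linarith
      have : ⌊pos M f z⌋₊ < ⌊pos M f z'⌋₊ + 1 + 1 := by exact_mod_cast b3
      omega
    have hj2 : ⌊pos M f z'⌋₊ ≤ ⌊pos M f z⌋₊ + 1 := by
      have b1 := Nat.floor_le (hj0 z' hz')
      have b2 := Nat.lt_floor_add_one (pos M f z)
      have b3 : ((⌊pos M f z'⌋₊ : ℕ) : ℝ) < ((⌊pos M f z⌋₊ + 1 + 1 : ℕ) : ℝ) := by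
        push_cast
        linarith
      have : ⌊pos M f z'⌋₊ < ⌊pos M f z⌋₊ + 1 + 1 := by exact_mod_cast b3
      omega
    have h3 := dist_adj (hΦ.mem _ (rest_mem (face_sub f hz))) (rot p M (f 0)) hj1 hj2 hδ0
    have h4 : dist (Φ (rest z) (rot p M (f 0) + ((⌊pos M f z'⌋₊ : ℕ) : ZMod (M * p))))
        (Φ (rest z') (rot p M (f 0) + ((⌊pos M f z'⌋₊ : ℕ) : ZMod (M * p)))) < ε - δ :=
      lt_of_le_of_lt (dist_le_pi_dist _ _ _) g1
    have h5 := dist_triangle (Φ (rest z) (rot p M (f 0) + ((⌊pos M f z⌋₊ : ℕ) : ZMod (M * p))))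
      (Φ (rest z) (rot p M (f 0) + ((⌊pos M f z'⌋₊ : ℕ) : ZMod (M * p))))
      (Φ (rest z') (rot p M (f 0) + ((⌊pos M f z'⌋₊ : ℕ) : ZMod (M * p))))
    linarith
  choose η hη1 hη2 using key
  obtain ⟨f0, -, hf0⟩ := Finset.exists_min_image (Finset.univ : Finset (Fin (d + 2) → ZMod p)) η
    ⟨fun _ => 0, Finset.mem_univ _⟩
  exact ⟨η f0, hη1 f0, fun f z hz z' hz' h => hη2 f z hz z' hz'
    (h.trans_le (hf0 f (Finset.mem_univ f)))⟩

end

end Pool.Agent.H44.LI
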