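import Pool.Agent.H44.LI.FamG
import Pool.Agent.H44.LI.Susp
import Pool.Agent.H44.LI.Marks
import Pool.Agent.H44.LI.Theta

/-!
# Lipschitz involutions whose fixed point set is not connected
-/

set_option autoImplicit false

open Set Topology

noncomputable section

namespace Pool.Agent.H44.LI

open Pool.Agent.Y489.GE Pool.Agent.Helper954.Hopf.Dold Pool.Agent.Helper954.Hopf.Dold.D1a

/-- the reflection of the vertices -/
def rfl2 (N : ℕ) (a : ZMod 2) (i : ZMod N) : ZMod N := if a = 0 then i else -i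

theorem rfl2_zero (N : ℕ) (i : ZMod N) : rfl2 N 0 i = i := if_pos rfl

theorem zmod2_neg_one : (-1 : ZMod 2) = 1 := by decide

theorem rfl2_one (N : ℕ) (i : ZMod N) : rfl2 N 1 i = -i := if_neg (by decide)

theorem rfl2_add (N : ℕ) (a b : ZMod 2) (i : ZMod N) :
    rfl2 N (a + b) i = rfl2 N a (rfl2 N b i) := by
  rcases zmod2_cases a with rfl | rfl <;> rcases zmod2_cases b with rfl | rfl
  · rw [add_zero, rfl2_zero, rfl2_zero]
  · rw [zero_add, rfl2_zero]
  · rw [add_zero, rfl2_zero]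
  · have : (1 : ZMod 2) + 1 = 0 := by decide
    rw [this, rfl2_zero, rfl2_one, rfl2_one, neg_neg]

theorem rfl2_adj (N : ℕ) (a : ZMod 2) (i : ZMod N) :
    rfl2 N a (i + 1) = rfl2 N a i + 1 ∨ rfl2 N a i = rfl2 N a (i + 1) + 1 := by
  rcases zmod2_cases a with rfl | rfl
  · left
    rw [rfl2_zero, rfl2_zero]
  · right
    rw [rfl2_one, rfl2_one]
    ring

/-- the points of the symmetric polygon -/
def ptR {X : Type} (σ : X → X) (c : ℝ → X) (M n : ℕ) : X :=
  if n ≤ M then c ((n : ℝ) / M) else σ (c (((2 * M - n : ℕ) : ℝ) / M))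

theorem ptR_ge {X : Type} {σ : X → X} {c : ℝ → X} {M n : ℕ} (hM : 0 < M)
    (h1 : σ (c 1) = c 1) (hn : M ≤ n) : ptR σ c M n = σ (c (((2 * M - n : ℕ) : ℝ) / M)) := by
  unfold ptR
  split_ifs with h
  · have : n = M := by omega
    subst this
    have h2 : 2 * n - n = n := by omega
    have h3 : (n : ℝ) ≠ 0 := by positivity
    rw [h2, div_self h3, h1]
  · rfl

theorem exists_polygon {X : Type} [MetricSpace X] {σ : X → X} (hσ : ∀ x, σ (σ x) = x)
    {lam : ℝ} (hlam : 1 ≤ lam) (hL : ∀ x y, dist (σ x) (σ y) ≤ lam * dist x y) {c : ℝ → X} {D : ℝ}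
    (hD : 0 ≤ D)
    (hcd : ∀ s ∈ Icc (0 : ℝ) 1, ∀ t ∈ Icc (0 : ℝ) 1, dist (c s) (c t) ≤ |s - t| * D)
    (h0 : σ (c 0) = c 0) (h1 : σ (c 1) = c 1) {M : ℕ} (hM : 0 < M) :
    ∃ y : ZMod (2 * M) → X, y ∈ Pol X (2 * M) (lam * (D / M)) ∧ (∀ i, σ (y (-i)) = y i) ∧
      y 0 = c 0 ∧ y (M : ZMod (2 * M)) = c 1 := by
  have hN : NeZero (2 * M) := ⟨by omega⟩
  have hM0 : (0 : ℝ) < M := by exact_mod_cast hM
  have hside : ∀ n < 2 * M, dist (ptR σ c M n) (ptR σ c M (n + 1)) ≤ lam * (D / M) := by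
    intro n hn
    rcases Nat.lt_or_ge n M with h | h
    · unfold ptR
      rw [if_pos h.le, if_pos (by omega)]
      have e1 : (n : ℝ) + 1 ≤ M := by exact_mod_cast h
      have e2 : (0 : ℝ) ≤ n := by positivity
      refine (hcd _ ⟨by positivity, by rw [div_le_one hM0]; linarith⟩ _
        ⟨by positivity, by rw [div_le_one hM0]; push_cast; exact e1⟩).trans ?_
      have e3 : (n : ℝ) / M - ((n + 1 : ℕ) : ℝ) / M = -(1 / M) := by push_cast; ring
      rw [e3, abs_neg, abs_of_pos (by positivity)]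
      have e4 : 1 / (M : ℝ) * D = D / M := by ring
      rw [e4]
      have e5 : 0 ≤ D / M := by positivity
      nlinarith
    · rw [ptR_ge hM h1 h, ptR_ge hM h1 (by omega)]
      refine (hL _ _).trans (mul_le_mul_of_nonneg_left ?_ (by linarith))
      have e0 : 2 * M - n = (2 * M - (n + 1)) + 1 := by omega
      rw [e0]
      set k := 2 * M - (n + 1) with hk
      have e1 : (k : ℝ) + 1 ≤ M := by
        have : k + 1 ≤ M := by omega
        exact_mod_cast this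
      have e2 : (0 : ℝ) ≤ k := by positivity
      refine (hcd _ ⟨by positivity, by rw [div_le_one hM0]; push_cast; exact e1⟩ _
        ⟨by positivity, by rw [div_le_one hM0]; linarith⟩).trans ?_
      have e3 : ((k + 1 : ℕ) : ℝ) / M - (k : ℝ) / M = 1 / M := by push_cast; ring
      rw [e3, abs_of_pos (by positivity)]
      apply le_of_eq
      ring
  have hend : ptR σ c M (2 * M) = c 0 := by
    rw [ptR_ge hM h1 (by omega), Nat.sub_self, Nat.cast_zero, zero_div, h0]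
  have hst : ptR σ c M 0 = c 0 := by
    unfold ptR
    rw [if_pos (Nat.zero_le _), Nat.cast_zero, zero_div]
  refine ⟨fun i => ptR σ c M i.val, ?_, ?_, ?_, ?_⟩
  · intro i
    have hi := ZMod.val_lt i
    have h2 : ptR σ c M (i + 1).val = ptR σ c M (i.val + 1) := by
      rcases Nat.lt_or_ge (i.val + 1) (2 * M) with h3 | h3
      · congr 1
        have h4 : (i + 1 : ZMod (2 * M)) = ((i.val + 1 : ℕ) : ZMod (2 * M)) := by
          push_cast
          rw [ZMod.natCast_zmod_val]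
        rw [h4, ZMod.val_natCast, Nat.mod_eq_of_lt h3]
      · have h5 : i.val + 1 = 2 * M := by omega
        have h4 : (i + 1 : ZMod (2 * M)) = ((i.val + 1 : ℕ) : ZMod (2 * M)) := by
          push_cast
          rw [ZMod.natCast_zmod_val]
        rw [h4, ZMod.val_natCast, h5, Nat.mod_self, hend, hst]
    show dist (ptR σ c M i.val) (ptR σ c M (i + 1).val) ≤ _
    rw [h2]
    exact hside _ hi
  · intro i
    show σ (ptR σ c M (-i).val) = ptR σ c M i.val
    by_cases hi : i = 0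
    · subst hi
      rw [neg_zero, ZMod.val_zero, hst, h0]
    · have hne : NeZero i := ⟨hi⟩
      have h2 : (-i).val = 2 * M - i.val := ZMod.val_neg_of_ne_zero i
      have h3 := ZMod.val_lt i
      have h4 : 0 < i.val := ZMod.val_pos.2 hi
      rw [h2]
      rcases Nat.lt_or_ge M i.val with h5 | h5
      · have h6 : ptR σ c M (2 * M - i.val) = c (((2 * M - i.val : ℕ) : ℝ) / M) := by
          unfold ptR
          rw [if_pos (by omega)]
        rw [h6, ptR_ge hM h1 h5.le]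
      · rw [ptR_ge hM h1 (by omega), hσ]
        have h6 : 2 * M - (2 * M - i.val) = i.val := by omega
        rw [h6]
        unfold ptR
        rw [if_pos h5]
  · show ptR σ c M (0 : ZMod (2 * M)).val = c 0
    rw [ZMod.val_zero, hst]
  · show ptR σ c M (M : ZMod (2 * M)).val = c 1
    rw [ZMod.val_natCast, Nat.mod_eq_of_lt (by omega)]
    unfold ptR
    rw [if_pos le_rfl, div_self hM0.ne']

/-! ### the map from the suspension -/

section

variable {n M : ℕ} {X : Type} [MetricSpace X] {A : ZMod 2 → X → X}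

/-- the factor of the coordinates of the star -/
def hgt (n : ℕ) (s : ℝ) : ℝ := 4 * n * min s (1 - s)

/-- the position on the half circle -/
def psi (M : ℕ) (s : ℝ) : ℝ := M * max 0 (min 1 (2 * s - 1 / 2))

/-- the parameter of the family -/
def par (z : VV 2 (n + 1)) (s : ℝ) : Fin n → ZMod 2 → ℝ := fun i l => hgt n s * z i.succ l

/-- the map over a face -/
def WW (Φ : (Fin n → ZMod 2 → ℝ) → ZMod (2 * M) → X) (f : Fin (n + 1) → ZMod 2)
    (z : VV 2 (n + 1)) (s : ℝ) : X :=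
  Φ (par z s) (rfl2 (2 * M) (f 0) ((⌊psi M s⌋₊ : ℕ) : ZMod (2 * M)))

theorem hgt_nonneg {s : ℝ} (hs : s ∈ Icc (0 : ℝ) 1) : 0 ≤ hgt n s := by
  unfold hgt
  have : 0 ≤ min s (1 - s) := le_min hs.1 (by linarith [hs.2])
  positivity

theorem par_mem {z : VV 2 (n + 1)} (hz : z ∈ JK 2 (n + 1)) {s : ℝ} (hs : s ∈ Icc (0 : ℝ) 1) :
    par z s ∈ StarsG (ZMod 2) n := by
  intro i
  refine ⟨fun l => mul_nonneg (hgt_nonneg hs) (hz.1 _ l), fun l l' hl => ?_⟩
  rcases hz.2.2 i.succ l l' hl with h1 | h1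
  · left
    simp [par, h1]
  · right
    simp [par, h1]

theorem face_sum1 {f : Fin (n + 1) → ZMod 2} {z : VV 2 (n + 1)} (hz : z ∈ face f)
    (i : Fin (n + 1)) : ∑ l, z i l = z i (f i) :=
  Finset.sum_eq_single _ (fun l _ hl => hz.2.2 i l hl) fun h => absurd (Finset.mem_univ _) h

theorem par_big (hn : 1 ≤ n) {f : Fin (n + 1) → ZMod 2} {z : VV 2 (n + 1)} (hz : z ∈ face f)
    (h0 : z 0 (f 0) = 0) {s : ℝ} (hs : 1 / 4 ≤ s) (hs' : s ≤ 3 / 4) :
    ∃ i l, 1 ≤ par z s i l := by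
  by_contra hcon
  push Not at hcon
  have hn0 : (0 : ℝ) < n := by exact_mod_cast hn
  have h1 : ∑ i : Fin n, z i.succ (f i.succ) = 1 := by
    have h2 := hz.2.1
    simp only [face_sum1 hz] at h2
    rw [Fin.sum_univ_succ, h0, zero_add] at h2
    exact h2
  have hg : n ≤ hgt n s := by
    unfold hgt
    have : 1 / 4 ≤ min s (1 - s) := le_min hs (by linarith)
    nlinarith
  have h2 : ∑ i : Fin n, z i.succ (f i.succ) < ∑ _i : Fin n, 1 / (n : ℝ) := by
    refine Finset.sum_lt_sum_of_nonempty ⟨⟨0, hn⟩, Finset.mem_univ _⟩ fun i _ => ?_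
    have h3 := hcon i (f i.succ)
    unfold par at h3
    rw [lt_div_iff₀ hn0]
    have h4 : 0 ≤ z i.succ (f i.succ) := hz.1 _ _
    nlinarith
  rw [Finset.sum_const, Finset.card_univ, Fintype.card_fin, nsmul_eq_mul,
    mul_one_div_cancel hn0.ne', h1] at h2
  exact lt_irrefl _ h2

theorem psi_low {s : ℝ} (hs : s ≤ 1 / 4) : psi M s = 0 := by
  unfold psi
  have : min 1 (2 * s - 1 / 2) ≤ 0 := (min_le_right _ _).trans (by linarith)
  rw [max_eq_left this, mul_zero]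

theorem psi_high {s : ℝ} (hs : 3 / 4 ≤ s) : psi M s = M := by
  unfold psi
  have : min 1 (2 * s - 1 / 2) = 1 := min_eq_left (by linarith)
  rw [this, max_eq_right zero_le_one, mul_one]

theorem rfl2_M (a : ZMod 2) : rfl2 (2 * M) a ((M : ℕ) : ZMod (2 * M)) = (M : ℕ) := by
  rcases zmod2_cases a with rfl | rfl
  · exact rfl2_zero _ _
  · rw [rfl2_one, neg_eq_iff_add_eq_zero, ← Nat.cast_add, ← two_mul, ZMod.natCast_self]

theorem rfl2_z (a : ZMod 2) : rfl2 (2 * M) a ((0 : ℕ) : ZMod (2 * M)) = 0 := by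
  rcases zmod2_cases a with rfl | rfl
  · rw [rfl2_zero, Nat.cast_zero]
  · rw [rfl2_one, Nat.cast_zero, neg_zero]

theorem WW_cons (hn : 1 ≤ n) {δ : ℝ} {Φ : (Fin n → ZMod 2 → ℝ) → ZMod (2 * M) → X}
    (hΦ : FamG A (rfl2 (2 * M)) n δ Φ) {f f' : Fin (n + 1) → ZMod 2} {z : VV 2 (n + 1)}
    (hz : z ∈ face f) (hz' : z ∈ face f') {s : ℝ} (hs : s ∈ Icc (0 : ℝ) 1) :
    WW Φ f z s = WW Φ f' z s := by
  unfold WW
  by_cases h0 : z 0 (f 0) = 0
  · rcases lt_or_ge s (1 / 4) with h1 | h1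
    · rw [psi_low h1.le, Nat.floor_zero, rfl2_z, rfl2_z]
    · rcases lt_or_ge (3 / 4) s with h2 | h2
      · rw [psi_high h2.le, Nat.floor_natCast, rfl2_M, rfl2_M]
      · have h3 := hΦ.const _ (par_mem (face_sub f hz) hs) (par_big hn hz h0 h1 h2)
        rw [h3, ← h3 (rfl2 (2 * M) (f' 0) _)]
  · have : f 0 = f' 0 := by
      by_contra h1
      exact h0 (hz'.2.2 0 (f 0) h1)
    rw [this]

/-- the map from the suspension of the join -/
def Wmap (Φ : (Fin n → ZMod 2 → ℝ) → ZMod (2 * M) → X) (z : VV 2 (n + 1)) (s : ℝ) : X :=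
  WW Φ (fun i => leg (z i)) z s

theorem mem_face_leg1 {z : VV 2 (n + 1)} (hz : z ∈ JK 2 (n + 1)) :
    z ∈ face (fun i => leg (z i)) := by
  refine ⟨hz.1, hz.2.1, fun i l hl => ?_⟩
  exact leg_spec (x := z i) ⟨hz.1 i, fun l l' h => hz.2.2 i l l' h⟩ hl

theorem Wmap_eq (hn : 1 ≤ n) {δ : ℝ} {Φ : (Fin n → ZMod 2 → ℝ) → ZMod (2 * M) → X}
    (hΦ : FamG A (rfl2 (2 * M)) n δ Φ) {f : Fin (n + 1) → ZMod 2} {z : VV 2 (n + 1)}
    (hz : z ∈ face f) {s : ℝ} (hs : s ∈ Icc (0 : ℝ) 1) : Wmap Φ z s = WW Φ f z s :=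
  WW_cons hn hΦ (mem_face_leg1 (face_sub f hz)) hz hs

theorem Wmap_sh (hn : 1 ≤ n) {δ : ℝ} {Φ : (Fin n → ZMod 2 → ℝ) → ZMod (2 * M) → X}
    (hΦ : FamG A (rfl2 (2 * M)) n δ Φ) {z : VV 2 (n + 1)} (hz : z ∈ JK 2 (n + 1)) {s : ℝ}
    (hs : s ∈ Icc (0 : ℝ) 1) : Wmap Φ (sh z) s = A 1 (Wmap Φ z s) := by
  set f : Fin (n + 1) → ZMod 2 := fun i => leg (z i) with hf
  have hzf : z ∈ face f := mem_face_leg1 hz
  have hsum : ∀ i, ∑ l, sh z i l = ∑ l, z i l := fun i =>
    Fintype.sum_equiv (Equiv.subRight 1) _ _ fun l => rfl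
  have hshf : sh z ∈ face (fun i => f i + 1) := by
    refine ⟨fun i l => hz.1 i (l - 1), ?_, fun i l hl => ?_⟩
    · rw [← hz.2.1]
      exact Finset.sum_congr rfl fun i _ => hsum i
    · refine hzf.2.2 i (l - 1) fun h => hl ?_
      show l = f i + 1
      rw [← h, sub_add_cancel]
  rw [Wmap_eq hn hΦ hshf hs, Wmap_eq hn hΦ hzf hs]
  unfold WW
  have h1 : par (sh z) s = fun i l => par z s i (l - 1) := rfl
  rw [h1, hΦ.equi 1 _ (par_mem hz hs)]
  show A 1 (Φ (par z s) (rfl2 (2 * M) (-1) (rfl2 (2 * M) (f 0 + 1) _))) = _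
  rw [← rfl2_add]
  congr 3
  ring

theorem dist_adj2 {N : ℕ} {δ : ℝ} {y : ZMod N → X} (hy : y ∈ Pol X N δ) (a : ZMod 2)
    {j j' : ℕ} (h1 : j ≤ j' + 1) (h2 : j' ≤ j + 1) (hδ : 0 ≤ δ) :
    dist (y (rfl2 N a (j : ZMod N))) (y (rfl2 N a (j' : ZMod N))) ≤ δ := by
  have key : ∀ k : ℕ, dist (y (rfl2 N a (k : ZMod N))) (y (rfl2 N a ((k + 1 : ℕ) : ZMod N))) ≤ δ := by
    intro k
    push_cast
    rcases rfl2_adj N a (k : ZMod N) with h | h
    · rw [h]
      exact hy _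
    · rw [h, dist_comm]
      exact hy _
  rcases lt_trichotomy j j' with h | h | h
  · have : j' = j + 1 := by omega
    subst this
    exact key j
  · subst h
    rw [dist_self]
    exact hδ
  · have : j = j' + 1 := by omega
    subst this
    rw [dist_comm]
    exact key j'

theorem isCompact_face1 (f : Fin (n + 1) → ZMod 2) :
    IsCompact (face f : Set (VV 2 (n + 1))) := by
  have hcl : IsClosed (face f : Set (VV 2 (n + 1))) := by
    have : (face f : Set (VV 2 (n + 1))) = (⋂ i, ⋂ l, {x | 0 ≤ x i l}) ∩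
        ({x | ∑ i, ∑ l, x i l = 1} ∩ ⋂ i, ⋂ l, ⋂ _ : l ≠ f i, {x | x i l = 0}) := by
      ext x
      simp [face]
    rw [this]
    refine IsClosed.inter (isClosed_iInter fun i => isClosed_iInter fun l =>
      isClosed_le continuous_const (continuous_apply_apply i l)) (IsClosed.inter ?_ ?_)
    · exact isClosed_eq (continuous_finsetSum _ fun i _ => continuous_finsetSum _ fun l _ =>
        continuous_apply_apply i l) continuous_const
    · exact isClosed_iInter fun i => isClosed_iInter fun l => isClosed_iInter fun _ =>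
        isClosed_eq (continuous_apply_apply i l) continuous_const
  refine Metric.isCompact_of_isClosed_isBounded hcl ?_
  refine (Metric.isBounded_closedBall (x := (0 : VV 2 (n + 1))) (r := 1)).subset fun x hx => ?_
  rw [mem_closedBall_zero_iff]
  exact JK_norm_le (face_sub f hx)

theorem Wmap_near (hn : 1 ≤ n) {δ : ℝ} {Φ : (Fin n → ZMod 2 → ℝ) → ZMod (2 * M) → X}
    (hΦ : FamG A (rfl2 (2 * M)) n δ Φ) (hδ0 : 0 ≤ δ) [NeZero (2 * M)] {ε : ℝ} (hε : δ < ε) :
    ∃ η : ℝ, 0 < η ∧ ∀ (f : Fin (n + 1) → ZMod 2), ∀ z ∈ face f, ∀ z' ∈ face f,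
      ∀ s ∈ Icc (0 : ℝ) 1, ∀ s' ∈ Icc (0 : ℝ) 1, dist z z' < η → |s - s'| < η →
      dist (Wmap Φ z s) (Wmap Φ z' s') < ε := by
  have key : ∀ f : Fin (n + 1) → ZMod 2, ∃ η : ℝ, 0 < η ∧ ∀ z ∈ face f, ∀ z' ∈ face f,
      ∀ s ∈ Icc (0 : ℝ) 1, ∀ s' ∈ Icc (0 : ℝ) 1, dist z z' < η → |s - s'| < η →
      dist (Wmap Φ z s) (Wmap Φ z' s') < ε := by
    intro f
    have hK : IsCompact ((face f : Set (VV 2 (n + 1))) ×ˢ Icc (0 : ℝ) 1) :=
      (isCompact_face1 f).prod isCompact_Icc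
    have hrc : Continuous (fun q : VV 2 (n + 1) × ℝ => par q.1 q.2) := by
      refine continuous_pi fun i => continuous_pi fun l => ?_
      unfold par hgt
      refine (continuous_const.mul ((continuous_snd).min (continuous_const.sub continuous_snd))).mul
        ((continuous_apply_apply i.succ l).comp continuous_fst)
    have h1 : ContinuousOn (fun q : VV 2 (n + 1) × ℝ => Φ (par q.1 q.2))
        ((face f : Set (VV 2 (n + 1))) ×ˢ Icc (0 : ℝ) 1) :=
      hΦ.cont.comp hrc.continuousOn fun q hq => par_mem (face_sub f hq.1) hq.2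
    have h2 : Continuous (fun q : VV 2 (n + 1) × ℝ => psi M q.2) := by
      unfold psi
      fun_prop
    have u1 := hK.uniformContinuousOn_of_continuous h1
    have u2 := hK.uniformContinuousOn_of_continuous h2.continuousOn
    obtain ⟨η1, hη1, e1⟩ := Metric.uniformContinuousOn_iff.1 u1 (ε - δ) (by linarith)
    obtain ⟨η2, hη2, e2⟩ := Metric.uniformContinuousOn_iff.1 u2 1 one_pos
    refine ⟨min η1 η2, lt_min hη1 hη2, fun z hz z' hz' s hs s' hs' hzz hss => ?_⟩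
    have hd : dist ((z, s) : VV 2 (n + 1) × ℝ) (z', s') < min η1 η2 := by
      rw [Prod.dist_eq]
      exact max_lt hzz (by rw [Real.dist_eq]; exact hss)
    have g1 := e1 (z, s) ⟨hz, hs⟩ (z', s') ⟨hz', hs'⟩ (hd.trans_le (min_le_left _ _))
    have g2 := e2 (z, s) ⟨hz, hs⟩ (z', s') ⟨hz', hs'⟩ (hd.trans_le (min_le_right _ _))
    simp only at g1 g2
    rw [Real.dist_eq, abs_lt] at g2
    rw [Wmap_eq hn hΦ hz hs, Wmap_eq hn hΦ hz' hs']
    unfold WW
    have hj0 : ∀ s : ℝ, 0 ≤ psi M s := by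
      intro s
      unfold psi
      have : (0 : ℝ) ≤ max 0 (min 1 (2 * s - 1 / 2)) := le_max_left _ _
      positivity
    have hj1 : ⌊psi M s⌋₊ ≤ ⌊psi M s'⌋₊ + 1 := by
      have b1 := Nat.floor_le (hj0 s)
      have b2 := Nat.lt_floor_add_one (psi M s')
      have b3 : ((⌊psi M s⌋₊ : ℕ) : ℝ) < ((⌊psi M s'⌋₊ + 1 + 1 : ℕ) : ℝ) := by
        push_cast
        linarith
      have : ⌊psi M s⌋₊ < ⌊psi M s'⌋₊ + 1 + 1 := by exact_mod_cast b3
      omega
    have hj2 : ⌊psi M s'⌋₊ ≤ ⌊psi M s⌋₊ + 1 := by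
      have b1 := Nat.floor_le (hj0 s')
      have b2 := Nat.lt_floor_add_one (psi M s)
      have b3 : ((⌊psi M s'⌋₊ : ℕ) : ℝ) < ((⌊psi M s⌋₊ + 1 + 1 : ℕ) : ℝ) := by
        push_cast
        linarith
      have : ⌊psi M s'⌋₊ < ⌊psi M s⌋₊ + 1 + 1 := by exact_mod_cast b3
      omega
    have h3 := dist_adj2 (hΦ.mem _ (par_mem (face_sub f hz) hs)) (f 0) hj1 hj2 hδ0
    have h4 : dist (Φ (par z s) (rfl2 (2 * M) (f 0) ((⌊psi M s'⌋₊ : ℕ) : ZMod (2 * M))))
        (Φ (par z' s') (rfl2 (2 * M) (f 0) ((⌊psi M s'⌋₊ : ℕ) : ZMod (2 * M)))) < ε - δ :=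
      lt_of_le_of_lt (dist_le_pi_dist _ _ _) g1
    have h5 := dist_triangle (Φ (par z s) (rfl2 (2 * M) (f 0) ((⌊psi M s⌋₊ : ℕ) : ZMod (2 * M))))
      (Φ (par z s) (rfl2 (2 * M) (f 0) ((⌊psi M s'⌋₊ : ℕ) : ZMod (2 * M))))
      (Φ (par z' s') (rfl2 (2 * M) (f 0) ((⌊psi M s'⌋₊ : ℕ) : ZMod (2 * M))))
    linarith
  choose η hη1 hη2 using key
  obtain ⟨f0, -, hf0⟩ := Finset.exists_min_image (Finset.univ : Finset (Fin (n + 1) → ZMod 2)) η
    ⟨fun _ => 0, Finset.mem_univ _⟩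
  exact ⟨η f0, hη1 f0, fun f z hz z' hz' s hs s' hs' h h' => hη2 f z hz z' hz' s hs s' hs'
    (h.trans_le (hf0 f (Finset.mem_univ f))) (h'.trans_le (hf0 f (Finset.mem_univ f)))⟩

theorem Wmap_start {Φ : (Fin n → ZMod 2 → ℝ) → ZMod (2 * M) → X} {y : ZMod (2 * M) → X}
    (h0 : Φ 0 = y) (z : VV 2 (n + 1)) : Wmap Φ z 0 = y 0 := by
  unfold Wmap WW
  have h1 : par z 0 = 0 := by
    funext i l
    simp [par, hgt]
  rw [h1, h0, psi_low (by norm_num), Nat.floor_zero, rfl2_z]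

theorem Wmap_end {Φ : (Fin n → ZMod 2 → ℝ) → ZMod (2 * M) → X} {y : ZMod (2 * M) → X}
    (h0 : Φ 0 = y) (z : VV 2 (n + 1)) : Wmap Φ z 1 = y (M : ℕ) := by
  unfold Wmap WW
  have h1 : par z 1 = 0 := by
    funext i l
    simp [par, hgt]
  rw [h1, h0, psi_high (by norm_num), Nat.floor_natCast, rfl2_M]

end

/-- The main theorem on Lipschitz involutions of a Lipschitz retract the fixed point set of which
is the union of two disjoint closed sets. -/
theorem closed_of_separated {X Y : Type} [MetricSpace X] [CompactSpace X] [MetricSpace Y]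
    [CompactSpace Y] {r : ℝ} (hr : 0 < r) (hX : GeodSpace X) (hU : UniqGeod X r) {α β lam : ℝ}
    (hα : 0 ≤ α) (hβ : 0 ≤ β) {ι : Y → X} {ρ : X → Y}
    (hι : ∀ x y, dist (ι x) (ι y) ≤ α * dist x y) (hρ : ∀ x y, dist (ρ x) (ρ y) ≤ β * dist x y)
    (hid : ∀ y, ρ (ι y) = y) {n : ℕ} (hn : 1 ≤ n) (hdim : CovDim Y n) {σ : Y → Y}
    (hσ : ∀ y, σ (σ y) = y) (hL : ∀ x y, dist (σ x) (σ y) ≤ lam * dist x y) {P Q : Set Y}
    (hP : IsClosed P) (hQ : IsClosed Q) (hPQ : Disjoint P Q) (hF : P ∪ Q = {y | σ y = y})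
    {a b : Y} (ha : a ∈ P) (hb : b ∈ Q) :
    ClosedGeod X (2 * (lam * (α * β)) ^ n * dist (ι a) (ι b)) := by
  by_contra hno
  obtain ⟨m, hm⟩ := Pool.Agent.Y467.GE.t_MG X r hr hX hU
  have hσa : σ a = a := (hF ▸ mem_union_left Q ha : a ∈ {y | σ y = y})
  have hσb : σ b = b := (hF ▸ mem_union_right P hb : b ∈ {y | σ y = y})
  have hab : a ≠ b := fun h => disjoint_left.1 hPQ ha (h ▸ hb)
  have hdab : 0 < dist a b := dist_pos.2 hab
  have hιab : ι a ≠ ι b := fun h => hab (by rw [← hid a, ← hid b, h])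
  have hD : 0 < dist (ι a) (ι b) := dist_pos.2 hιab
  have hlam : 1 ≤ lam := by
    have := hL a b
    rw [hσa, hσb] at this
    nlinarith
  have hab1 : 1 ≤ α * β := by
    have h1 := hρ (ι a) (ι b)
    have h2 := hι a b
    rw [hid, hid] at h1
    have h3 : dist a b ≤ β * (α * dist a b) := h1.trans (mul_le_mul_of_nonneg_left h2 hβ)
    nlinarith
  have hα0 : 0 < α := by
    rcases hα.eq_or_lt with h | h
    · rw [← h, zero_mul] at hab1
      linarith
    · exact h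
  have hβ0 : 0 < β := by
    rcases hβ.eq_or_lt with h | h
    · rw [← h, mul_zero] at hab1
      linarith
    · exact h
  have hσc : Continuous σ :=
    (LipschitzWith.of_dist_le_mul (K := ⟨lam, by linarith⟩) fun x y => hL x y).continuous
  obtain ⟨ε, L, hε, hL1, hL2, hL3, hL4, hL5⟩ := exists_marks hσc hσ hP hQ hPQ hF ⟨a, ha⟩ ⟨b, hb⟩
    hn hdim
  -- the path
  obtain ⟨c, hc0, hc1, hcd⟩ := hX (ι a) (ι b)
  set D := dist (ι a) (ι b) with hDdef
  have hcY : ∀ s ∈ Icc (0 : ℝ) 1, ∀ t ∈ Icc (0 : ℝ) 1,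
      dist ((fun s => ρ (c s)) s) ((fun s => ρ (c s)) t) ≤ |s - t| * (β * D) := by
    intro s hs t ht
    refine (hρ _ _).trans (le_of_eq ?_)
    rw [hcd s hs t ht]
    ring
  have hcY0 : ρ (c 0) = a := by rw [hc0, hid]
  have hcY1 : ρ (c 1) = b := by rw [hc1, hid]
  set K : ℝ := lam * (α * β) with hK
  have hK1 : 1 ≤ K := by
    rw [hK]
    nlinarith
  -- the number of vertices
  have hmin : 0 < min (r / 2) ε := lt_min (by linarith) hε
  obtain ⟨M, hM⟩ := exists_nat_gt (K ^ n * (lam * (β * D)) * (1 + α) / min (r / 2) ε)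
  have hlp : 0 < lam := by linarith
  have hK0 : 0 < K := by linarith
  have hM0 : (0 : ℝ) < M := lt_trans (by positivity) hM
  have hM1 : 0 < M := by exact_mod_cast hM0
  have hsmall : K ^ n * (lam * (β * D / M)) * (1 + α) < min (r / 2) ε := by
    rw [div_lt_iff₀ hmin] at hM
    have : K ^ n * (lam * (β * D / M)) * (1 + α) = K ^ n * (lam * (β * D)) * (1 + α) / M := by ring
    rw [this, div_lt_iff₀ hM0]
    linarith
  have hN : NeZero (2 * M) := ⟨by omega⟩
  obtain ⟨y, hy1, hy2, hy3, hy4⟩ := exists_polygon hσ hlam hL (c := fun s => ρ (c s))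
    (D := β * D) (by positivity) hcY (by rw [hcY0, hσa]) (by rw [hcY1, hσb]) hM1
  -- the action
  have h2F : Fact (Nat.Prime 2) := ⟨Nat.prime_two⟩
  let A2 : ZMod 2 → Y → Y := fun a x => σ^[a.val] x
  have hA2' : Act 2 Y A2 := act_of_iterate (fun x => hσ x)
  have hA2 : ActG (ZMod 2) Y A2 := ⟨hA2'.zero, hA2'.add⟩
  have hA21 : ∀ x, A2 1 x = σ x := fun x => act_one σ x
  have hA2c : ∀ a, Continuous (A2 a) := fun a => hσc.iterate a.val
  have hA2L : ∀ a x y, dist (A2 a x) (A2 a y) ≤ lam * dist x y := by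
    intro a x y
    rcases zmod2_cases a with rfl | rfl
    · rw [hA2.zero, hA2.zero]
      nlinarith [dist_nonneg (x := x) (y := y)]
    · rw [hA21, hA21]
      exact hL x y
  have hya : ∀ a, gB A2 (rfl2 (2 * M)) a y = y := by
    intro a
    rcases zmod2_cases a with rfl | rfl
    · exact gB_zero hA2 (rfl2_zero _) y
    · funext i
      show A2 1 (y (rfl2 (2 * M) (-1) i)) = y i
      rw [zmod2_neg_one, rfl2_one, hA21]
      exact hy2 i
  set δ₀ : ℝ := lam * (β * D / M) with hδ₀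
  have hδ₀0 : 0 < δ₀ := by positivity
  have hKn : ∀ k < n, K ^ k ≤ K ^ n := fun k hk => pow_le_pow_right₀ hK1 hk.le
  have hKn1 : ∀ k < n, K ^ (k + 1) ≤ K ^ n := fun k hk => pow_le_pow_right₀ hK1 hk
  have hPol : ∀ k < n, PolCC Y (2 * M) ((lam * (β * α)) ^ k * δ₀)
      (β * α * ((lam * (β * α)) ^ k * δ₀)) := by
    intro k hk
    have hKe : lam * (β * α) = K := by rw [hK]; ring
    rw [hKe, mul_assoc β α]
    refine PolCC.of_retract hα hβ hι hρ hid ?_
    refine Pool.Agent.Q186.CA.polC_of_no hm hno (2 * M) (by positivity) ?_ ?_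
    · refine le_trans ?_ (hsmall.le.trans (min_le_left _ _))
      have e1 : α * (K ^ k * δ₀) ≤ α * (K ^ n * δ₀) :=
        mul_le_mul_of_nonneg_left (mul_le_mul_of_nonneg_right (hKn k hk) hδ₀0.le) hα
      have e2 : 0 ≤ K ^ n * δ₀ := by positivity
      nlinarith
    · have e1 : ((2 * M : ℕ) : ℝ) * (α * (K ^ k * δ₀)) = 2 * K ^ (k + 1) * D := by
        rw [hδ₀, pow_succ]
        push_cast
        rw [hK]
        field_simp
      rw [e1]
      refine mul_le_mul_of_nonneg_right (mul_le_mul_of_nonneg_left (hKn1 k hk) (by norm_num)) hD.le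
  obtain ⟨Φ, hΦ, hΦ0⟩ := FamG.exists hA2 (rfl2_zero _) (rfl2_add _) (rfl2_adj _) hA2c
    (by linarith) hA2L hy1 hya n hPol
  have hδn : (lam * (β * α)) ^ n * δ₀ < ε := by
    have hKe : lam * (β * α) = K := by rw [hK]; ring
    rw [hKe]
    refine lt_of_le_of_lt ?_ (hsmall.trans_le (min_le_right _ _))
    have e2 : 0 ≤ K ^ n * δ₀ := by positivity
    nlinarith
  obtain ⟨η, hη, hnear⟩ := Wmap_near hn hΦ (by positivity) hδn
  obtain ⟨J, hJ⟩ := exists_nat_gt (1 / η)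
  have hJ0 : (0 : ℝ) < J := lt_trans (by positivity) hJ
  have hJη : 1 / (J : ℝ) < η := by
    rw [div_lt_iff₀ hη] at hJ
    rw [div_lt_iff₀ hJ0]
    linarith
  have hIcc : ∀ j : ℕ, j ≤ J → ((j : ℝ) / J) ∈ Icc (0 : ℝ) 1 := fun j hj =>
    ⟨by positivity, by rw [div_le_one hJ0]; exact_mod_cast hj⟩
  refine no_susp n J σ ε L hL1 hL2 hL3 (fun j z => Wmap Φ z ((j : ℝ) / J)) ?_ ?_ ?_ η hη ?_
  · intro z _
    show L (Wmap Φ z (((0 : ℕ) : ℝ) / J)) ≠ none
    rw [Nat.cast_zero, zero_div, Wmap_start hΦ0, hy3]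
    show L (ρ (c 0)) ≠ none
    rw [hcY0]
    exact hL4 a ha
  · intro z _
    show L (Wmap Φ z ((J : ℝ) / J)) = none
    rw [div_self hJ0.ne', Wmap_end hΦ0, hy4]
    show L (ρ (c 1)) = none
    rw [hcY1]
    exact hL5 b hb
  · intro j hj z hz
    show Wmap Φ (sh z) ((j : ℝ) / J) = σ (Wmap Φ z ((j : ℝ) / J))
    rw [Wmap_sh hn hΦ hz (hIcc j hj), hA21]
  · intro f z hz z' hz' hzz j hj
    have e1 : |(j : ℝ) / J - (j : ℝ) / J| < η := by rw [sub_self, abs_zero]; exact hη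
    have e2 : |(j : ℝ) / J - ((j + 1 : ℕ) : ℝ) / J| < η := by
      have : (j : ℝ) / J - ((j + 1 : ℕ) : ℝ) / J = -(1 / J) := by push_cast; ring
      rw [this, abs_neg, abs_of_pos (by positivity)]
      exact hJη
    have e3 : |((j + 1 : ℕ) : ℝ) / J - ((j + 1 : ℕ) : ℝ) / J| < η := by
      rw [sub_self, abs_zero]
      exact hη
    exact ⟨hnear f z hz z' hz' _ (hIcc j hj.le) _ (hIcc j hj.le) hzz e1,
      hnear f z hz z' hz' _ (hIcc j hj.le) _ (hIcc (j + 1) hj) hzz e2,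
      hnear f z hz z' hz' _ (hIcc (j + 1) hj) _ (hIcc (j + 1) hj) hzz e3⟩

end Pool.Agent.H44.LI
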