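import Pool.Agent.H44.LI.Exc
import Pool.Graph.R_pool_sql_team_seeded_35f281b4.K7.H35.C.Main

/-!
# Curve shortening which commutes with the rotation of the parameter, and families of closed curves
# symmetric under an involution of the parameter space
-/

set_option autoImplicit false

open Set Topology Filter

noncomputable section

namespace Pool.Agent.H44.LI

open Pool.Agent.Y489.GE Pool.Agent.Y590.GE Pool.Agent.R203.IF Pool.Agent.Y911.GE
open Pool.Agent.K7.H35.R (htp_cont)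
open Pool.Agent.K7.H35.C (val_succ val_half)

variable {X : Type} [MetricSpace X] {r₀ r : ℝ} {m : X → X → ℝ → X}

theorem shorten_rot [CompactSpace X] (hm : GMap X r m) (N : ℕ) [NeZero N] {δ : ℝ} (hδ : 0 < δ)
    (hδr : δ ≤ r)
    (hne : ∀ x ∈ Pol X N δ, (δ / (2 * N)) ^ 2 ≤ En N x →
      En N (ph m N (1 / 2) x) ≠ En N x) :
    ∃ Φ : ↥(Pol X N δ) → ↥(Pol X N δ),
      Htp (Y := ↥(Pol X N δ)) (W := ZMod N → X) (Pol X N δ)
        {x | ∀ i, x.1 i = x.1 0} (fun x => x.1) (fun x => (Φ x).1) ∧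
      (∀ y i, dist ((Φ y).1 i) ((Φ y).1 0) ≤ δ / 2) ∧
      ∀ (x y : ↥(Pol X N δ)) (k : ZMod N), (∀ i, y.1 i = x.1 (i + k)) →
        ∀ i, (Φ y).1 i = (Φ x).1 (i + k) := by
  have hr : 0 ≤ r := hδ.le.trans hδr
  have hM : (0 : ℝ) < (N : ℝ) := by
    exact_mod_cast Nat.pos_of_ne_zero (NeZero.ne N)
  have hhalf : (1 / 2 : ℝ) ∈ Icc (0 : ℝ) 1 := ⟨by norm_num, by norm_num⟩
  have hphm : ∀ x ∈ Pol X N δ, ∀ t ∈ Icc (0 : ℝ) 1, ph m N t x ∈ Pol X N δ := fun x hx t ht =>
    (Pool.Agent.Y812.GE.t_EN X r m hm N δ hδr x hx t ht).1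
  set e : ℝ := δ / (2 * N) with he
  have he0 : 0 < e := by positivity
  -- uniform decrease
  have hdec : ∃ η : ℝ, 0 < η ∧ ∀ x ∈ Pol X N δ, e ^ 2 ≤ En N x →
      En N (ph m N (1 / 2) x) ≤ En N x - η := by
    have hc1 : ContinuousOn (fun x : ZMod N → X => ph m N (1 / 2) x)
        (Pol X N δ) :=
      ph_cont hm N hδr continuousOn_id continuousOn_const (fun z hz => hz)
        (fun _ _ => hhalf)
    have hc : ContinuousOn (fun x : ZMod N → X =>
        En N x - En N (ph m N (1 / 2) x)) (Pol X N δ) :=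
      (En_cont N).continuousOn.sub ((En_cont N).comp_continuousOn hc1)
    set K : Set (ZMod N → X) := Pol X N δ ∩ {x | e ^ 2 ≤ En N x} with hK
    have hKc : IsCompact K :=
      (Pol_compact N δ).inter_right (isClosed_le continuous_const (En_cont N))
    rcases K.eq_empty_or_nonempty with h0 | h0
    · refine ⟨1, one_pos, fun x hx hx2 => ?_⟩
      have : x ∈ K := ⟨hx, hx2⟩
      rw [h0] at this
      exact this.elim
    · obtain ⟨x0, hx0, hmin⟩ := hKc.exists_isMinOn h0 (hc.mono inter_subset_left)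
      refine ⟨En N x0 - En N (ph m N (1 / 2) x0), ?_, fun x hx hx2 => ?_⟩
      · have h1 := (Pool.Agent.Y812.GE.t_EN X r m hm N δ hδr x0 hx0.1 (1 / 2) hhalf).2
        have h2 := hne x0 hx0.1 hx0.2
        exact sub_pos.2 (lt_of_le_of_ne h1 h2)
      · have h3 : En N x0 - En N (ph m N (1 / 2) x0) ≤
            En N x - En N (ph m N (1 / 2) x) := hmin (⟨hx, hx2⟩ : x ∈ K)
        linarith
  obtain ⟨η, hη, hdec⟩ := hdec
  -- the shortening map
  let F : ↥(Pol X N δ) → ↥(Pol X N δ) := fun x => ⟨ph m N (1 / 2) x.1, hphm x.1 x.2 _ hhalf⟩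
  have hFc : Continuous F := by
    refine Continuous.subtype_mk ?_ _
    rw [← continuousOn_univ]
    exact ph_cont hm N hδr continuous_subtype_val.continuousOn continuousOn_const
      (fun z _ => z.2) (fun _ _ => hhalf)
  have hFen : ∀ x : ↥(Pol X N δ), En N (F x).1 ≤ En N x.1 := fun x =>
    (Pool.Agent.Y812.GE.t_EN X r m hm N δ hδr x.1 x.2 (1 / 2) hhalf).2
  have hFfix : ∀ x : ↥(Pol X N δ), (∀ i, x.1 i = x.1 0) → F x = x := by
    intro x hx
    apply Subtype.ext
    funext i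
    change m (x.1 i) (x.1 (i + 1)) (1 / 2) = x.1 i
    rw [hx (i + 1), hx i]
    exact hm.self hr _ hhalf
  have hFkfix : ∀ k : ℕ, ∀ x : ↥(Pol X N δ), (∀ i, x.1 i = x.1 0) → F^[k] x = x := by
    intro k x hx
    exact Function.iterate_fixed (hFfix x hx) k
  have hFrot : ∀ (n : ℕ) (x y : ↥(Pol X N δ)) (k : ZMod N), (∀ i, y.1 i = x.1 (i + k)) →
      ∀ i, (F^[n] y).1 i = (F^[n] x).1 (i + k) := by
    intro n
    induction n with
    | zero => exact fun x y k h i => h i
    | succ n ih =>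
      intro x y k h i
      rw [Function.iterate_succ_apply, Function.iterate_succ_apply]
      refine ih (F x) (F y) k (fun i => ?_) i
      show m (y.1 i) (y.1 (i + 1)) (1 / 2) = m (x.1 (i + k)) (x.1 (i + k + 1)) (1 / 2)
      rw [h i, h (i + 1), show i + 1 + k = i + k + 1 by ring]
  have hFken : ∀ k : ℕ, ∀ x : ↥(Pol X N δ), En N (F^[k] x).1 < e ^ 2 ∨
      En N (F^[k] x).1 ≤ En N x.1 - k * η := by
    intro k x
    induction k with
    | zero => right; simp
    | succ k ih =>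
      rw [Function.iterate_succ_apply']
      rcases ih with h | h
      · left; exact (hFen _).trans_lt h
      · rcases lt_or_ge (En N (F^[k] x).1) (e ^ 2) with h2 | h2
        · left; exact (hFen _).trans_lt h2
        · right
          have h3 := hdec (F^[k] x).1 (F^[k] x).2 h2
          change En N (ph m N (1 / 2) (F^[k] x).1) ≤ _
          push_cast
          linarith
  obtain ⟨k, hk⟩ := exists_nat_gt ((N : ℝ) * δ ^ 2 / η)
  have hkk : ∀ x : ↥(Pol X N δ), En N (F^[k] x).1 < e ^ 2 := by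
    intro x
    rcases hFken k x with h | h
    · exact h
    · have h1 := En_le N x.2
      have h2 := En_nonneg N (F^[k] x).1
      rw [div_lt_iff₀ hη] at hk
      exfalso
      linarith
  -- the homotopy of one step
  have hstep : Htp (Y := ↥(Pol X N δ)) (W := ZMod N → X) (Pol X N δ)
      {x | ∀ i, x.1 i = x.1 0} (fun x => x.1) (fun x => (F x).1) := by
    have hs : ∀ s ∈ Icc (0 : ℝ) 1, s / 2 ∈ Icc (0 : ℝ) 1 := fun s hs =>
      ⟨by linarith [hs.1], by linarith [hs.2]⟩
    refine Htp.of_clamp (fun y s => ph m N (s / 2) y.1) ?_ ?_ ?_ ?_ ?_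
    · exact ph_cont hm N hδr (continuous_subtype_val.comp continuous_fst).continuousOn
        (continuous_snd.div_const 2).continuousOn (fun z _ => z.1.2) (fun z hz => hs _ hz)
    · intro y s h
      exact hphm _ y.2 _ (hs s h)
    · intro y
      funext i
      change m (y.1 i) (y.1 (i + 1)) (0 / 2) = y.1 i
      rw [zero_div]
      exact hm.zero _ _ ((y.2 i).trans hδr)
    · intro y
      rfl
    · intro y hy s h
      funext i
      change m (y.1 i) (y.1 (i + 1)) (s / 2) = y.1 i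
      rw [hy (i + 1), hy i]
      exact hm.self hr _ (hs s h)
  have hiter : ∀ k : ℕ, Htp (Y := ↥(Pol X N δ)) (W := ZMod N → X) (Pol X N δ)
      {x | ∀ i, x.1 i = x.1 0} (fun x => x.1) (fun x => (F^[k] x).1) := by
    intro k
    induction k with
    | zero =>
      refine ⟨fun y _ => y.1, ?_, ?_, ?_, ?_, ?_⟩
      · exact continuous_subtype_val.comp continuous_fst
      · exact fun y _ => y.2
      · exact fun _ _ _ => rfl
      · exact fun _ _ _ => rfl
      · exact fun _ _ _ => rfl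
    | succ k ih =>
      have h1 := hstep.precomp (Z' := {x : ↥(Pol X N δ) | ∀ i, x.1 i = x.1 0}) (F^[k])
        (hFc.iterate k) (fun y hy => by rw [hFkfix k y hy]; exact hy)
      have h2 := ih.trans h1
      have h3 : (fun x : ↥(Pol X N δ) => (F^[k + 1] x).1) = fun x => (F (F^[k] x)).1 := by
        funext x
        rw [Function.iterate_succ_apply']
      rw [h3]
      exact h2
  refine ⟨F^[k], hiter k, fun y i => ?_, fun x y j h i => hFrot k x y j h i⟩
  have h1 := far_le N he0 (hkk y) i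
  have h2 : (N : ℝ) * e = δ / 2 := by
    rw [he]
    field_simp
  rwa [h2] at h1

/-- the closed polygon of two curves with exchanged ends -/
def pol2 (N : ℕ) (h : ℝ) (γ γ' : ℝ → X) (i : ZMod (2 * N)) : X :=
  if i.val < N then γ (i.val * h) else γ' (((i.val - N : ℕ) : ℝ) * h)

theorem pol2_mem {N : ℕ} [NeZero (2 * N)] {h : ℝ} (hh : 0 ≤ h) {γ γ' : ℝ → X}
    (hγ : ∀ s t, dist (γ s) (γ t) ≤ |s - t|) (hγ' : ∀ s t, dist (γ' s) (γ' t) ≤ |s - t|)
    (hend : γ (N * h) = γ' 0) (hend' : γ' (N * h) = γ 0) : pol2 N h γ γ' ∈ Pol X (2 * N) h := by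
  have hN : 0 < N := by
    have := NeZero.ne (2 * N)
    omega
  have hstep : ∀ (γ : ℝ → X), (∀ s t, dist (γ s) (γ t) ≤ |s - t|) → ∀ k : ℕ,
      dist (γ (k * h)) (γ ((k + 1 : ℕ) * h)) ≤ h := by
    intro γ hγ k
    refine (hγ _ _).trans (le_of_eq ?_)
    have e : (k : ℝ) * h - ((k + 1 : ℕ) : ℝ) * h = -h := by push_cast; ring
    rw [e, abs_neg, abs_of_nonneg hh]
  intro i
  have hlt := ZMod.val_lt i
  unfold pol2
  rw [val_succ i]
  by_cases h1 : i.val + 1 = 2 * N
  · rw [if_pos h1, if_neg (show ¬ i.val < N by omega), if_pos hN]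
    have h2 := hstep γ' hγ' (i.val - N)
    have e : i.val - N + 1 = N := by omega
    rw [e, hend'] at h2
    rw [Nat.cast_zero, zero_mul]
    exact h2
  · rw [if_neg h1]
    by_cases h2 : i.val + 1 < N
    · rw [if_pos (show i.val < N by omega), if_pos h2]
      exact hstep γ hγ _
    · rw [if_neg h2]
      by_cases h3 : i.val < N
      · have e : i.val + 1 = N := by omega
        rw [if_pos h3, e, Nat.sub_self, Nat.cast_zero, zero_mul, ← hend]
        have h4 := hstep γ hγ i.val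
        rw [e] at h4
        exact h4
      · rw [if_neg h3]
        have e : i.val + 1 - N = i.val - N + 1 := by omega
        rw [e]
        exact hstep γ' hγ' _

omit [MetricSpace X] in
theorem pol2_rot {N : ℕ} [NeZero (2 * N)] {h : ℝ} (γ γ' : ℝ → X) (i : ZMod (2 * N)) :
    pol2 N h γ' γ i = pol2 N h γ γ' (i + (N : ZMod (2 * N))) := by
  have hlt := ZMod.val_lt i
  unfold pol2
  rw [val_half i]
  by_cases h1 : i.val < N
  · rw [if_pos h1, if_pos h1, if_neg (by omega), Nat.add_sub_cancel]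
  · rw [if_neg h1, if_neg h1, if_pos (by omega)]

omit [MetricSpace X] in
theorem pol2_zero {N : ℕ} [NeZero (2 * N)] {h : ℝ} (γ γ' : ℝ → X) : pol2 N h γ γ' 0 = γ 0 := by
  have hN : 0 < N := by
    have := NeZero.ne (2 * N)
    omega
  unfold pol2
  rw [ZMod.val_zero, if_pos hN, Nat.cast_zero, zero_mul]

/-- the symmetric sweepout principle -/
theorem sym_principle [CompactSpace X] (hX : GeodSpace X) (hr : 0 < r) (hU : UniqGeod X r)
    {L : ℝ} (hL : 0 < L) (hno : ¬ ClosedGeod X (2 * L)) :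
    ∃ ε : ℝ, 0 < ε ∧ ∀ (K : Type) [TopologicalSpace K] (τ : K → K) (f : K → X)
      (Γ : K → ℝ → X), Continuous τ → (∀ k, τ (τ k) = k) → (∀ s, Continuous fun k => Γ k s) →
      (∀ k s s', dist (Γ k s) (Γ k s') ≤ |s - s'|) → (∀ k, Γ k 0 = f k) →
      (∀ k, Γ k (L + ε) = f (τ k)) →
      ∃ e : K → X, (∀ k, e (τ k) = e k) ∧ Htp (univ : Set X) (∅ : Set K) f e := by
  obtain ⟨m, hm⟩ := Pool.Agent.Y467.GE.t_MG X r hr hX hU
  have hr2 : 0 < r / 2 := by linarith
  have hr0 : r / 2 < r := by linarith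
  obtain ⟨N, hN⟩ := exists_nat_gt ((L + 1) / (r / 2))
  have hN0 : (0 : ℝ) < N := lt_trans (by positivity) hN
  have hN' : N ≠ 0 := by
    rintro rfl
    simp at hN0
  have : NeZero N := ⟨hN'⟩
  have : NeZero (2 * N) := ⟨by omega⟩
  have hcast : ((2 * N : ℕ) : ℝ) = 2 * (N : ℝ) := by push_cast; ring
  have hNr : (L + 1) / N < r / 2 := by
    rw [div_lt_iff₀ hr2] at hN
    rw [div_lt_iff₀ hN0]
    linarith
  have hN1 : ∀ b : ℝ, b ≤ L + 1 → b / N ≤ r / 2 := by
    intro b hb
    exact (div_le_div_of_nonneg_right hb hN0.le).trans hNr.le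
  by_cases hbad : ∀ ε : ℝ, 0 < ε → ε ≤ 1 →
      ∃ x ∈ Pol X (2 * N) ((L + ε) / N), (L / N / (2 * (2 * N : ℕ))) ^ 2 ≤ En (2 * N) x ∧
        En (2 * N) (ph m (2 * N) (1 / 2) x) = En (2 * N) x
  · exfalso
    apply hno
    have hu : Tendsto (fun n : ℕ => (L + 1 / ((n : ℝ) + 1)) / N) atTop (𝓝 (L / N)) := by
      have h1 : Tendsto (fun n : ℕ => (L + 1 / ((n : ℝ) + 1)) / N) atTop
          (𝓝 ((L + 0) / N)) :=
        (tendsto_const_nhds.add tendsto_one_div_add_atTop_nhds_zero_nat).div_const _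
      simpa using h1
    have hlt : L / N < r / 2 := by
      refine lt_of_lt_of_le ?_ hNr.le
      exact div_lt_div_of_pos_right (by linarith) hN0
    obtain ⟨x, hx1, hx2, hx3⟩ := limit_polygon hm (2 * N) (L / N)
      ((L / N / (2 * (2 * N : ℕ))) ^ 2) hlt _ hu
      (by
        intro n
        have hn1 : (0 : ℝ) < 1 / ((n : ℝ) + 1) := by positivity
        have hn2 : 1 / ((n : ℝ) + 1) ≤ 1 := by
          rw [div_le_one (by positivity)]
          have : (0 : ℝ) ≤ n := Nat.cast_nonneg n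
          linarith
        exact hbad _ hn1 hn2)
    have hpos : 0 < En (2 * N) x := lt_of_lt_of_le (by positivity) hx2
    have h5 := Pool.Agent.Y165.GE.t_CG X (r / 2) m hm (2 * N) (L / N) hlt.le x hx1 hx3 hpos
    have h6 : ((2 * N : ℕ) : ℝ) * (L / N) = 2 * L := by
      rw [hcast]
      field_simp
    rwa [h6] at h5
  · push Not at hbad
    obtain ⟨ε, hε0, hε1, hgood⟩ := hbad
    refine ⟨ε, hε0, ?_⟩
    intro K _ τ f Γ hτ hτ2 hΓc hΓl hΓ0 hΓ1
    set δ : ℝ := (L + ε) / N with hδ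
    have hδ0 : 0 < δ := by positivity
    have hδr : δ ≤ r / 2 := hN1 _ (by linarith)
    obtain ⟨Φ, hΦ, hΦs, hΦr⟩ := shorten_rot hm (2 * N) hδ0 hδr (by
      intro x hx hxe
      refine hgood x hx (le_trans ?_ hxe)
      refine pow_le_pow_left₀ (by positivity) ?_ 2
      refine div_le_div_of_nonneg_right ?_ (by positivity)
      exact div_le_div_of_nonneg_right (by linarith) hN0.le)
    have hNδ : (N : ℝ) * δ = L + ε := by
      rw [hδ]
      field_simp
    have hmem : ∀ y, pol2 N δ (Γ y) (Γ (τ y)) ∈ Pol X (2 * N) δ := by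
      intro y
      refine pol2_mem hδ0.le (hΓl _) (hΓl _) ?_ ?_
      · rw [hNδ, hΓ1, hΓ0]
      · rw [hNδ, hΓ1, hΓ0, hτ2]
    have hcc : Continuous fun y => (⟨pol2 N δ (Γ y) (Γ (τ y)), hmem y⟩ : ↥(Pol X (2 * N) δ)) := by
      refine Continuous.subtype_mk (continuous_pi fun i => ?_) _
      unfold pol2
      split_ifs
      · exact hΓc _
      · exact (hΓc _).comp hτ
    have hpre := hΦ.precomp (Z' := (∅ : Set K))
      (fun y => (⟨pol2 N δ (Γ y) (Γ (τ y)), hmem y⟩ : ↥(Pol X (2 * N) δ))) hcc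
      (fun y hy => hy.elim)
    set G : K → X := fun y => (Φ ⟨pol2 N δ (Γ y) (Γ (τ y)), hmem y⟩).1 0 with hG
    have ph1 : Htp (univ : Set X) (∅ : Set K) f G := by
      obtain ⟨H, h1, h2, h3, h4, h5⟩ := hpre
      have e0 : ∀ y, pol2 N δ (Γ y) (Γ (τ y)) 0 = f y := fun y => by rw [pol2_zero, hΓ0]
      refine ⟨fun y s => H y s 0, (continuous_apply (0 : ZMod (2 * N))).comp h1,
        fun _ _ => mem_univ _, fun y s hs => ?_, fun y s hs => ?_, fun y hy => hy.elim⟩
      · show H y s 0 = f y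
        rw [h3 y s hs]
        exact e0 y
      · show H y s 0 = G y
        rw [h4 y s hs]
    have hGc : Continuous G := htp_cont ph1
    have hGτ : ∀ y, G (τ y) = (Φ ⟨pol2 N δ (Γ y) (Γ (τ y)), hmem y⟩).1
        ((N : ℕ) : ZMod (2 * N)) := by
      intro y
      have h1 := hΦr ⟨pol2 N δ (Γ y) (Γ (τ y)), hmem y⟩ ⟨pol2 N δ (Γ (τ y)) (Γ (τ (τ y))), hmem _⟩
        ((N : ℕ) : ZMod (2 * N)) (fun i => by
          show pol2 N δ (Γ (τ y)) (Γ (τ (τ y))) i = _
          rw [hτ2, pol2_rot]) 0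
      rw [zero_add] at h1
      exact h1
    have hGd : ∀ y, dist (G y) (G (τ y)) ≤ r / 2 := by
      intro y
      rw [hGτ, dist_comm]
      exact (hΦs _ _).trans (by linarith)
    have hhalf : (1 / 2 : ℝ) ∈ Icc (0 : ℝ) 1 := ⟨by norm_num, by norm_num⟩
    have ph2 : Htp (univ : Set X) (∅ : Set K) G (fun y => m (G y) (G (τ y)) (1 / 2)) := by
      refine Htp.of_clamp (fun y s => m (G y) (G (τ y)) (s / 2)) ?_ (fun _ _ _ => mem_univ _)
        (fun y => ?_) (fun y => rfl) (fun y hy => hy.elim)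
      · have h1 : ContinuousOn (fun z : K × ℝ => (G z.1, G (τ z.1), z.2 / 2))
            {z | z.2 ∈ Icc (0 : ℝ) 1} := by
          apply Continuous.continuousOn
          exact (hGc.comp continuous_fst).prodMk ((hGc.comp
            (hτ.comp continuous_fst)).prodMk (continuous_snd.div_const _))
        refine hm.cont.comp h1 fun z hz => ⟨hGd z.1, ?_⟩
        have hz' : z.2 ∈ Icc (0 : ℝ) 1 := hz
        exact ⟨by linarith [hz'.1], by linarith [hz'.2]⟩
      · show m (G y) (G (τ y)) (0 / 2) = G y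
        rw [zero_div, hm.zero _ _ (hGd y)]
    refine ⟨fun y => m (G y) (G (τ y)) (1 / 2), fun y => ?_, ph1.trans ph2⟩
    show m (G (τ y)) (G (τ (τ y))) (1 / 2) = m (G y) (G (τ y)) (1 / 2)
    rw [hτ2]
    have h1 := m_symm hm hr0 hU (hGd y) hhalf
    rw [show (1 : ℝ) - 1 / 2 = 1 / 2 by norm_num] at h1
    exact h1

end Pool.Agent.H44.LI
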