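import Pool.Agent.H44.LI.Rot

/-!
# Involutions which are deformed to the identity by Lipschitz maps
-/

set_option autoImplicit false

open Set Topology Filter

noncomputable section

namespace Pool.Agent.H44.LI

open Pool.Agent.Y489.GE Pool.Agent.Y911.GE Pool.Agent.K7.H35.R Pool.Agent.K7.H35.C

variable {X : Type} [MetricSpace X]

theorem turn_principle [CompactSpace X] (hX : GeodSpace X) {r : ℝ} (hr : 0 < r)
    (hU : UniqGeod X r) {σ : X → X} {P : Set X} {lam l R : ℝ} {g : ℝ → X → X}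
    (hg : TurnS X σ P lam l g) (hl : 0 ≤ l) (hR : ∀ x : X, ∃ z ∈ P, dist z x ≤ R) (q : ℕ)
    (K : Type) [MetricSpace K] [CompactSpace K] (hK : CovDim K q) (τ : K → K) (hτ : Continuous τ)
    (hτ2 : ∀ k, τ (τ k) = k) (f : K → X) (hf : Continuous f) (hfτ : ∀ k, f (τ k) = σ (f k))
    (hno : ¬ ClosedGeod X (((q : ℝ) + 1) * (4 * lam * R + 2 * l))) :
    ∃ e : K → X, (∀ k, e (τ k) = e k) ∧ Htp (univ : Set X) (∅ : Set K) f e := by
  -- the trivial case
  have htriv : (∀ k, f (τ k) = f k) →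
      ∃ e : K → X, (∀ k, e (τ k) = e k) ∧ Htp (univ : Set X) (∅ : Set K) f e := fun h =>
    ⟨f, h, fun k _ => f k, hf.comp continuous_fst, fun _ _ => mem_univ _, fun _ _ _ => rfl,
      fun _ _ _ => rfl, fun _ _ _ => rfl⟩
  by_cases hsub : Subsingleton X
  · exact htriv fun y => Subsingleton.elim _ _
  have hnt : Nontrivial X := not_subsingleton_iff_nontrivial.1 hsub
  obtain ⟨x₁, x₂, hxy⟩ := exists_pair_ne X
  have hlam : 1 ≤ lam := by
    have h1 := hg.lip 0 x₁ x₂
    rw [hg.zero, hg.zero] at h1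
    have h2 : 0 < dist x₁ x₂ := dist_pos.2 hxy
    by_contra hcon
    push Not at hcon
    nlinarith
  have hlam0 : 0 < lam := by linarith
  have hR0 : 0 ≤ R := by
    obtain ⟨z, _, hz⟩ := hR x₁
    exact dist_nonneg.trans hz
  have hq : (0 : ℝ) < (q : ℝ) + 1 := by positivity
  set L : ℝ := ((q : ℝ) + 1) * (2 * lam * R + l) with hL
  have hL0 : 0 ≤ L := by positivity
  rcases hL0.eq_or_lt with h0 | hLpos
  · refine htriv fun k => ?_
    have h1 : 2 * lam * R + l = 0 := by
      rcases mul_eq_zero.1 (hL.symm.trans h0.symm) with h | h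
      · linarith
      · exact h
    have h2 : 0 ≤ 2 * lam * R := by positivity
    have h3 : l = 0 := by linarith
    have h4 : R = 0 := by
      have : 2 * lam * R = 0 := by linarith
      rcases mul_eq_zero.1 this with h | h
      · linarith
      · exact h
    obtain ⟨z, hz, hzd⟩ := hR (f k)
    rw [h4] at hzd
    have h5 : z = f k := dist_le_zero.1 hzd
    have h6 := hg.arc z hz 1 0
    rw [h3, zero_mul, hg.zero, hg.one] at h6
    rw [hfτ, ← h5]
    exact dist_le_zero.1 h6
  · have hno' : ¬ ClosedGeod X (2 * L) := by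
      have e : 2 * L = ((q : ℝ) + 1) * (4 * lam * R + 2 * l) := by rw [hL]; ring
      rwa [e]
    obtain ⟨ε, hε, hmain⟩ := sym_principle hX hr hU hLpos hno'
    obtain ⟨m, hm⟩ := Pool.Agent.Y467.GE.t_MG X r hr hX hU
    obtain ⟨p, hp, _⟩ := hR x₁
    set ε' : ℝ := min (ε / (((q : ℝ) + 1) * (4 * lam + 1))) (r / 2) with hε'
    have hε'0 : 0 < ε' := lt_min (by positivity) (by linarith)
    have hε'1 : ((q : ℝ) + 1) * (4 * lam + 1) * ε' ≤ ε := by
      have h1 : ε' ≤ ε / (((q : ℝ) + 1) * (4 * lam + 1)) := min_le_left _ _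
      rw [le_div_iff₀ (by positivity)] at h1
      linarith
    have hRε : 0 < R + ε' := by linarith
    obtain ⟨t, ρ, hdata⟩ := data_exists hK hm hp hRε.le (fun x => by
      obtain ⟨z, hz, hzd⟩ := hR x
      exact ⟨z, hz, exists_path hX z x hRε (by linarith)⟩) hε'0 (min_le_right _ _) f hf ∅
      (fun k hk => hk.elim)
    have hg' : TurnS X σ P lam (l + ε') g := by
      refine ⟨hg.cont, hg.zero, hg.one, hg.lip, fun z hz s t => (hg.arc z hz s t).trans ?_⟩
      exact mul_le_mul_of_nonneg_right (by linarith) (abs_nonneg _)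
    obtain ⟨Γ, hΓc, hΓl, hΓ0, hΓ1⟩ := curvesS hg' hlam0 (by linarith)
      (b := R + ε' + ε') (by linarith) hf hdata
    refine hmain K τ f Γ hτ hτ2 hΓc hΓl hΓ0 fun k => ?_
    rw [hΓ1, hfτ]
    have e : ((q : ℝ) + 1) * (2 * lam * (R + ε' + ε') + (l + ε')) =
        L + ((q : ℝ) + 1) * (4 * lam + 1) * ε' := by rw [hL]; ring
    rw [e]
    linarith

end Pool.Agent.H44.LI
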