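import Pool.Agent.H44.LI.Join
import Pool.Agent.H44.LI.Inv
import Pool.Graph.R_seed8.Y686.GE.EIL
import Pool.Graph.R_seed8.Y903.GE.CUT
import Pool.Graph.R_seed8.Y438.GE.Thick
import Pool.Graph.R_seed8.Y427.GE.WID
import Pool.Graph.R_pool_sql_team_39128cda.Lib.helper9_.BorsukUlam

/-!
# Free Lipschitz actions and volume
-/

set_option autoImplicit false

open Set Topology MeasureTheory TopologicalSpace

noncomputable section

namespace Pool.Agent.H44.LI

open Pool.Agent.Y489.GE

section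

variable {p : ℕ} [NeZero p] {X : Type} [MetricSpace X] {A : ZMod p → X → X}

/-- the orbit of a point as a compact set -/
def orb (A : ZMod p → X → X) (x : X) : NonemptyCompacts X :=
  ⟨⟨range fun a => A a x, (finite_range _).isCompact⟩, range_nonempty _⟩

theorem orb_coe (x : X) : ((orb A x : NonemptyCompacts X) : Set X) = range fun a => A a x := rfl

theorem orb_dist {lam : ℝ} (hL : ∀ a x y, dist (A a x) (A a y) ≤ lam * dist x y)
    (x y : X) : dist (orb A x) (orb A y) ≤ lam * dist x y := by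
  have h0 : 0 ≤ lam * dist x y := dist_nonneg.trans (hL 0 x y)
  refine Metric.hausdorffDist_le_of_mem_dist h0 ?_ ?_
  · rintro _ ⟨a, rfl⟩
    exact ⟨A a y, ⟨a, rfl⟩, hL a x y⟩
  · rintro _ ⟨a, rfl⟩
    refine ⟨A a x, ⟨a, rfl⟩, ?_⟩
    rw [dist_comm]
    exact hL a x y

theorem orb_near (h : Act p X A) {x y : X} {s : ℝ} (hxy : dist (orb A x) (orb A y) < s) :
    ∃ a, dist x (A a y) < s := by
  have hx : x ∈ ((orb A x : NonemptyCompacts X) : Set X) := ⟨0, h.zero x⟩
  obtain ⟨z, ⟨a, rfl⟩, hz⟩ := Metric.exists_dist_lt_of_hausdorffDist_lt hx hxy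
    (Metric.hausdorffEDist_ne_top_of_nonempty_of_bounded (orb A x).nonempty (orb A y).nonempty
      (orb A x).isCompact.isBounded (orb A y).isCompact.isBounded)
  exact ⟨a, hz⟩

theorem orb_act (h : Act p X A) (a : ZMod p) (x : X) : orb A (A a x) = orb A x := by
  apply NonemptyCompacts.ext
  rw [orb_coe, orb_coe]
  ext z
  constructor
  · rintro ⟨b, rfl⟩
    exact ⟨b + a, h.add b a x⟩
  · rintro ⟨b, rfl⟩
    refine ⟨b - a, ?_⟩
    show A (b - a) (A a x) = A b x
    rw [← h.add, sub_add_cancel]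

end

/-- small balls and large displacement: an equivariant cover of multiplicity at most `n` -/
theorem exists_cover_of_volume (p n : ℕ) [Fact p.Prime] (lam : ℝ) (hlam : 0 ≤ lam) :
    ∃ c : ℝ, 0 < c ∧ ∀ (X : Type) [MetricSpace X] [CompactSpace X] [Nonempty X]
      [MeasurableSpace X] [BorelSpace X] (A : ZMod p → X → X), Act p X A →
      (∀ a x y, dist (A a x) (A a y) ≤ lam * dist x y) → ∀ R : ℝ, 0 < R →
      (∀ x : X, μH[(n : ℝ)] (Metric.closedBall x R) < ENNReal.ofReal (c * R ^ n)) →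
      (∀ a, a ≠ 0 → ∀ x, 2 * R ≤ dist x (A a x)) →
      ∃ (κ : ℕ) (U : Fin κ → Set X), EqF A U ∧ ∀ x, mult A U x ≤ n := by
  classical
  obtain ⟨c, hc, hwid⟩ := Pool.Agent.Y427.GE.t_WID
    (Pool.Agent.Y903.GE.t_CUT Pool.Agent.Y686.GE.t_EIL) Pool.Agent.Y438.GE.t_THICK n
  have hp : (0 : ℝ) < p := by exact_mod_cast (Fact.out : p.Prime).pos
  refine ⟨c / (2 * (2 ^ n * (p * (lam + 1) ^ n))), by positivity, ?_⟩
  intro X _ _ _ _ _ A h hL R hR hvol hdis
  -- the quotient
  let Q := ↥(range (orb A))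
  let π : X → Q := fun x => ⟨orb A x, x, rfl⟩
  have hπs : Function.Surjective π := by
    rintro ⟨_, x, rfl⟩
    exact ⟨x, rfl⟩
  have hπd : ∀ x y, dist (π x) (π y) ≤ lam * dist x y := fun x y => orb_dist hL x y
  have hπL : LipschitzWith (Real.toNNReal lam) π := LipschitzWith.of_dist_le_mul (by
    intro x y
    rw [Real.coe_toNNReal _ hlam]
    exact hπd x y)
  have hQc : CompactSpace Q := by
    refine ⟨?_⟩
    rw [← hπs.range_eq]
    exact isCompact_range hπL.continuous
  let mQ : MeasurableSpace Q := borel Q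
  have bQ : BorelSpace Q := ⟨rfl⟩
  have hball : ∀ q : Q, μH[(n : ℝ)] (Metric.closedBall q (R / 2)) <
      ENNReal.ofReal (c * (R / 2) ^ n) := by
    intro q
    obtain ⟨x0, rfl⟩ := hπs q
    have hsub : Metric.closedBall (π x0) (R / 2) ⊆
        ⋃ a : ZMod p, π '' Metric.closedBall (A a x0) R := by
      intro q' hq'
      obtain ⟨y, rfl⟩ := hπs q'
      rw [Metric.mem_closedBall] at hq'
      obtain ⟨a, ha⟩ := orb_near h (x := y) (y := x0) (s := R) (lt_of_le_of_lt hq' (by linarith))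
      exact mem_iUnion.2 ⟨a, y, Metric.mem_closedBall.2 ha.le, rfl⟩
    have h1 : ∀ a : ZMod p, μH[(n : ℝ)] (π '' Metric.closedBall (A a x0) R) ≤
        ENNReal.ofReal (lam ^ n * (c / (2 * (2 ^ n * (p * (lam + 1) ^ n))) * R ^ n)) := by
      intro a
      refine (hπL.hausdorffMeasure_image_le (Nat.cast_nonneg n) _).trans ?_
      rw [ENNReal.ofReal_mul (by positivity), ENNReal.ofReal_pow hlam]
      have e1 : ((Real.toNNReal lam : NNReal) : ENNReal) ^ (n : ℝ) = ENNReal.ofReal lam ^ n := by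
        rw [ENNReal.rpow_natCast]
        rfl
      rw [e1]
      exact mul_le_mul' le_rfl (hvol _).le
    refine lt_of_le_of_lt (measure_mono hsub) ?_
    refine lt_of_le_of_lt (measure_iUnion_fintype_le _ _) ?_
    refine lt_of_le_of_lt (Finset.sum_le_sum fun a _ => h1 a) ?_
    rw [Finset.sum_const, Finset.card_univ, ZMod.card, nsmul_eq_mul,
      ← ENNReal.ofReal_natCast, ← ENNReal.ofReal_mul (by positivity)]
    refine (ENNReal.ofReal_lt_ofReal_iff (by positivity)).2 ?_
    have h2 : lam ^ n ≤ (lam + 1) ^ n := pow_le_pow_left₀ hlam (by linarith) n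
    have h3 : (p : ℝ) * ((lam + 1) ^ n * (c / (2 * (2 ^ n * (p * (lam + 1) ^ n))) * R ^ n)) =
        c * (R / 2) ^ n / 2 := by
      rw [div_pow]
      field_simp
    have h4 : 0 < c * (R / 2) ^ n := by positivity
    calc (p : ℝ) * (lam ^ n * (c / (2 * (2 ^ n * (p * (lam + 1) ^ n))) * R ^ n))
        ≤ (p : ℝ) * ((lam + 1) ^ n * (c / (2 * (2 ^ n * (p * (lam + 1) ^ n))) * R ^ n)) := by
          gcongr
      _ = c * (R / 2) ^ n / 2 := h3
      _ < c * (R / 2) ^ n := by linarith
  obtain ⟨N, O, hO1, hO2, hO3, hO4⟩ := hwid Q (R / 2) (by positivity) hball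
  have hx : ∀ j : Fin N, ∃ x : X, (O j).Nonempty → π x ∈ O j := by
    intro j
    by_cases hj : (O j).Nonempty
    · obtain ⟨q, hq⟩ := hj
      obtain ⟨x, rfl⟩ := hπs q
      exact ⟨x, fun _ => hq⟩
    · exact ⟨Classical.arbitrary X, fun h => absurd h hj⟩
  choose x0 hx0 using hx
  refine ⟨N, fun j => {y | π y ∈ O j ∧ dist y (x0 j) < R}, ⟨?_, ?_, ?_⟩, ?_⟩
  · intro j
    exact ((hO1 j).preimage hπL.continuous).inter
      (isOpen_lt (continuous_id.dist continuous_const) continuous_const)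
  · intro y
    obtain ⟨j, hj⟩ := hO3 (π y)
    have h1 : π (x0 j) ∈ O j := hx0 j ⟨_, hj⟩
    have h2 : dist (orb A (x0 j)) (orb A y) < R :=
      lt_of_le_of_lt (hO2 j _ h1 _ hj) (by linarith)
    obtain ⟨a, ha⟩ := orb_near h h2
    refine ⟨j, a, ?_, ?_⟩
    · have : π (A a y) = π y := Subtype.ext (orb_act h a y)
      rw [this]
      exact hj
    · rw [dist_comm]
      exact ha
  · intro y j a b ha hb
    by_contra hab
    have h1 := hdis (b - a) (fun h0 => hab (sub_eq_zero.1 h0).symm) (A a y)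
    rw [← h.add, sub_add_cancel] at h1
    have := dist_triangle_right (A a y) (A b y) (x0 j)
    linarith [ha.2, hb.2]
  · intro y
    have hdisj : ∀ q q' : {q : Fin N × ZMod p // A q.2 y ∈ {y | π y ∈ O q.1 ∧ dist y (x0 q.1) < R}},
        q.1.1 = q'.1.1 → q = q' := by
      rintro ⟨⟨j, a⟩, ha⟩ ⟨⟨j', b⟩, hb⟩ hjj
      simp only at hjj
      subst hjj
      have : a = b := by
        by_contra hab
        have h1 := hdis (b - a) (fun h0 => hab (sub_eq_zero.1 h0).symm) (A a y)
        rw [← h.add, sub_add_cancel] at h1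
        have := dist_triangle_right (A a y) (A b y) (x0 j)
        linarith [ha.2, hb.2]
      subst this
      rfl
    refine le_trans (Nat.card_le_card_of_injective (fun q => (⟨q.1.1, ?_⟩ :
      {j : Fin N // π y ∈ O j})) ?_) (hO4 (π y))
    · have h1 := q.2.1
      have : π (A q.1.2 y) = π y := Subtype.ext (orb_act h _ y)
      rwa [this] at h1
    · intro q q' hqq
      exact hdisj q q' (by simpa using hqq)

/-- the least displacement of a free action -/
theorem displacement {p : ℕ} [NeZero p] {X : Type} [MetricSpace X] [CompactSpace X] [Nonempty X]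
    {A : ZMod p → X → X} (hc : ∀ a, Continuous (A a)) (hf : ∀ a, a ≠ 0 → ∀ x, A a x ≠ x) :
    ∃ ρ : ℝ, 0 < ρ ∧ ∀ a, a ≠ 0 → ∀ x, 2 * ρ < dist x (A a x) := by
  have h1 : ∀ a, ∃ ρ : ℝ, 0 < ρ ∧ (a ≠ 0 → ∀ x, 2 * ρ < dist x (A a x)) := by
    intro a
    by_cases ha : a = 0
    · exact ⟨1, one_pos, fun h => absurd ha h⟩
    · have hcont : Continuous fun x => dist x (A a x) := continuous_id.dist (hc a)
      obtain ⟨x0, -, hx0⟩ := isCompact_univ.exists_isMinOn (univ_nonempty (α := X))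
        hcont.continuousOn
      have hpos : 0 < dist x0 (A a x0) := dist_pos.2 (hf a ha x0).symm
      refine ⟨dist x0 (A a x0) / 4, by positivity, fun _ x => ?_⟩
      have : dist x0 (A a x0) ≤ dist x (A a x) := hx0 (mem_univ x)
      linarith
  choose ρ h1 h2 using h1
  obtain ⟨a0, -, ha0⟩ := Finset.exists_min_image (Finset.univ : Finset (ZMod p)) ρ
    ⟨0, Finset.mem_univ _⟩
  refine ⟨ρ a0, h1 a0, fun a ha x => lt_of_le_of_lt ?_ (h2 a ha x)⟩
  have := ha0 a (Finset.mem_univ a)
  linarith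

/-- iterates of a fixed point free map of prime order -/
theorem iterate_free {p : ℕ} (hp : p.Prime) {X : Type} {g : X → X} (hg : ∀ x, g^[p] x = x)
    (hf : ∀ x, g x ≠ x) (a : ZMod p) (ha : a ≠ 0) (y : X) : g^[a.val] y ≠ y := by
  have : Fact p.Prime := ⟨hp⟩
  intro hy
  have h2 : Function.IsPeriodicPt g a.val y := hy
  have h3 : Function.IsPeriodicPt g p y := hg y
  have h4 := h2.gcd h3
  have h5 : a.val.gcd p = 1 := by
    have h6 : 0 < a.val := by
      rcases Nat.eq_zero_or_pos a.val with h0 | h0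
      · exact absurd ((ZMod.val_eq_zero a).1 h0) ha
      · exact h0
    rw [Nat.gcd_comm]
    exact (Nat.Prime.coprime_iff_not_dvd hp).2 (Nat.not_dvd_of_pos_of_lt h6 (ZMod.val_lt a))
  rw [h5] at h4
  exact hf y h4

/-- a sphere with the antipodal map excludes maps to the join of `n` copies of `ZMod 2` -/
theorem no_joinMap_of_sphere {X : Type} [MetricSpace X] {σ : X → X} {n : ℕ}
    {j : EuclideanSpace ℝ (Fin (n + 1)) → X} (hj : ContinuousOn j {v | ‖v‖ = 1})
    (hjo : ∀ v, ‖v‖ = 1 → j (-v) = σ (j v)) (v : X → Fin n → ZMod 2 → ℝ)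
    (hv : JoinMap σ n v) : False := by
  obtain ⟨h1, h2, h3, h4, h5⟩ := hv
  have hc : Continuous fun x => (fun k => v x k 0 - v x k 1 : Fin n → ℝ) :=
    continuous_pi fun k => ((continuous_apply_apply k (0 : ZMod 2)).comp h1).sub
      ((continuous_apply_apply k (1 : ZMod 2)).comp h1)
  obtain ⟨w, hw, hw0⟩ := Pool.Agent.Lib.helper9.BorsukUlam.borsuk_ulam
    (E := EuclideanSpace ℝ (Fin (n + 1))) (F := Fin n → ℝ) (by simp)
    (fun w => (fun k => v (j w) k 0 - v (j w) k 1 : Fin n → ℝ)) (hc.comp_continuousOn hj) (by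
      intro w hw
      funext k
      simp only [Pi.neg_apply]
      rw [hjo w hw, h5, h5]
      have e1 : (0 : ZMod 2) - 1 = 1 := by decide
      have e2 : (1 : ZMod 2) - 1 = 0 := by decide
      rw [e1, e2]
      ring)
  apply h4 (j w)
  funext k l
  have h6 := congrFun hw0 k
  simp only [Pi.zero_apply] at h6
  have h7 : v (j w) k 0 = 0 ∧ v (j w) k 1 = 0 := by
    rcases h3 (j w) k 0 1 (by decide) with h8 | h8
    · exact ⟨h8, by linarith⟩
    · exact ⟨by linarith, h8⟩
  have h9 : l = 0 ∨ l = 1 := by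
    revert l
    decide
  rcases h9 with rfl | rfl
  · exact h7.1
  · exact h7.2

/-- volume and local volume -/
theorem closed_of_volume (n p : ℕ) (hn : 1 ≤ n) (hp : p.Prime) (lam : ℝ) (hlam : 1 ≤ lam) :
    ∃ C c : ℝ, 0 < C ∧ 0 < c ∧ ∀ (X : Type) [MetricSpace X] [CompactSpace X] [MeasurableSpace X]
      [BorelSpace X] (r : ℝ) (g : X → X), 0 < r → GeodSpace X → UniqGeod X r → CovDim X n →
      (∀ x, g^[p] x = x) → (∀ x, g x ≠ x) →
      (∀ k < p, ∀ x y, dist (g^[k] x) (g^[k] y) ≤ lam * dist x y) →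
      (¬ ∃ v : X → Fin n → ZMod p → ℝ, JoinMap g n v) →
      (∀ R : ℝ, 0 < R →
        (∀ x : X, μH[(n : ℝ)] (Metric.closedBall x R) < ENNReal.ofReal (c * R ^ n)) →
        ClosedGeod X (C * R)) ∧
      (μH[(n : ℝ)] (univ : Set X) ≠ ⊤ →
        ClosedGeod X (C * (μH[(n : ℝ)] (univ : Set X)).toReal ^ (1 / (n : ℝ)))) := by
  have hpF : Fact p.Prime := ⟨hp⟩
  have hp0 : (0 : ℝ) < p := by exact_mod_cast hp.pos
  obtain ⟨c, hc, hcov⟩ := exists_cover_of_volume p n lam (by linarith)
  set C1 : ℝ := p * lam ^ n * 2 with hC1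
  have hC10 : 0 < C1 := by positivity
  set C : ℝ := C1 * (1 + (2 / c) ^ (1 / (n : ℝ))) with hC
  have hrp : 0 < (2 / c) ^ (1 / (n : ℝ)) := Real.rpow_pos_of_pos (by positivity) _
  have hC1C : C1 ≤ C := by
    rw [hC]
    nlinarith
  refine ⟨C, c, by positivity, hc, ?_⟩
  intro X _ _ _ _ r g hr hX hU hdim hg hf hL hno
  have hne : Nonempty X := by
    by_contra hemp
    rw [not_nonempty_iff] at hemp
    exact hno ⟨fun x => (hemp.false x).elim, continuous_of_const fun x => (hemp.false x).elim,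
      fun x => (hemp.false x).elim, fun x => (hemp.false x).elim, fun x => (hemp.false x).elim,
      fun x => (hemp.false x).elim⟩
  let A : ZMod p → X → X := fun a x => g^[a.val] x
  have hA : Act p X A := act_of_iterate hg
  have hAL : ∀ a x y, dist (A a x) (A a y) ≤ lam * dist x y := fun a x y =>
    hL a.val (ZMod.val_lt a) x y
  have hA1 : A 1 = g := funext fun x => act_one g x
  have hAf : ∀ a, a ≠ 0 → ∀ x, A a x ≠ x := fun a ha x => iterate_free hp hg hf a ha x
  have hcA : ∀ a, Continuous (A a) := fun a =>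
    (LipschitzWith.of_dist_le_mul (K := ⟨lam, by linarith⟩) fun x y => hAL a x y).continuous
  have hshort : ∀ R : ℝ, 0 < R →
      (∀ x : X, μH[(n : ℝ)] (Metric.closedBall x R) < ENNReal.ofReal (c * R ^ n)) →
      ∃ a, a ≠ 0 ∧ ∃ x, dist x (A a x) < 2 * R := by
    intro R hR hvol
    by_contra hcon
    push Not at hcon
    obtain ⟨κ, U, hU1, hU2⟩ := hcov X A hA hAL R hR hvol hcon
    obtain ⟨v, hv⟩ := joinMap_of_cover hA hcA hU1 hU2
    rw [hA1] at hv
    exact hno ⟨v, hv⟩
  have hlocal : ∀ R : ℝ, 0 < R →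
      (∀ x : X, μH[(n : ℝ)] (Metric.closedBall x R) < ENNReal.ofReal (c * R ^ n)) →
      ClosedGeod X (C1 * R) := by
    intro R hR hvol
    obtain ⟨a, ha, x, hx⟩ := hshort R hR hvol
    let B : ZMod p → X → X := fun b => A (a * b)
    have hB : Act p X B := by
      refine ⟨fun y => ?_, fun b b' y => ?_⟩
      · show A (a * 0) y = y
        rw [mul_zero]
        exact hA.zero y
      · show A (a * (b + b')) y = A (a * b) (A (a * b') y)
        rw [mul_add]
        exact hA.add _ _ y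
    have h1 := closed_of_free hB hr hX hU (fun b y z => hAL (a * b) y z) hdim
      (fun b hb y => hAf (a * b) (mul_ne_zero ha hb) y) x
    refine h1.mono ?_
    have h2 : B 1 x = A a x := by
      show A (a * 1) x = _
      rw [mul_one]
    have h3 : C1 * R = p * lam ^ n * (2 * R) := by
      rw [hC1]
      ring
    rw [h2, h3]
    exact mul_le_mul_of_nonneg_left hx.le (by positivity)
  refine ⟨fun R hR hvol => (hlocal R hR hvol).mono
    (mul_le_mul_of_nonneg_right hC1C hR.le), fun hfin => ?_⟩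
  set V : ℝ := (μH[(n : ℝ)] (univ : Set X)).toReal with hV
  have hV0 : 0 ≤ V := ENNReal.toReal_nonneg
  have hball : ∀ x : X, ∀ R, μH[(n : ℝ)] (Metric.closedBall x R) ≤ ENNReal.ofReal V := by
    intro x R
    rw [hV, ENNReal.ofReal_toReal hfin]
    exact measure_mono (subset_univ _)
  rcases hV0.eq_or_lt with h0 | h0
  · exfalso
    obtain ⟨ρ, hρ, hdis⟩ := displacement hcA hAf
    obtain ⟨a, ha, x, hx⟩ := hshort ρ hρ fun x => by
      refine (hball x ρ).trans_lt ?_
      rw [← h0, ENNReal.ofReal_zero]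
      exact ENNReal.ofReal_pos.2 (by positivity)
    have := hdis a ha x
    linarith
  · have hn0 : (n : ℝ) ≠ 0 := by
      have : (0 : ℝ) < n := by exact_mod_cast hn
      exact this.ne'
    set R : ℝ := (2 / c) ^ (1 / (n : ℝ)) * V ^ (1 / (n : ℝ)) with hR
    have hVp : 0 < V ^ (1 / (n : ℝ)) := Real.rpow_pos_of_pos h0 _
    have hR0 : 0 < R := by positivity
    have hRn : c * R ^ n = 2 * V := by
      rw [hR, mul_pow, ← Real.rpow_natCast, ← Real.rpow_natCast, ← Real.rpow_mul (by positivity),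
        ← Real.rpow_mul h0.le, one_div_mul_cancel hn0, Real.rpow_one, Real.rpow_one]
      field_simp
    have h1 := hlocal R hR0 fun x => by
      refine (hball x R).trans_lt ?_
      rw [hRn]
      exact (ENNReal.ofReal_lt_ofReal_iff (by positivity)).2 (by linarith)
    refine h1.mono ?_
    rw [hR, hC]
    have h2 : C1 * ((2 / c) ^ (1 / (n : ℝ)) * V ^ (1 / (n : ℝ))) =
        C1 * (2 / c) ^ (1 / (n : ℝ)) * V ^ (1 / (n : ℝ)) := by ring
    rw [h2]
    refine mul_le_mul_of_nonneg_right ?_ hVp.le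
    nlinarith

end Pool.Agent.H44.LI
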